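import Pool.Agent.Lib.MP_e81270_lc_SR.Basic

/-!
Inconsistent affine systems modulo 2 have short certificates.
-/

set_option autoImplicit false
set_option linter.unusedSectionVars false
set_option linter.unusedVariables false

namespace Pool.Agent.Lib.MP_e81270_lc_SR

open Finset
open scoped symmDiff

variable {n m : ℕ} {E : Fin m → Finset (Fin n)} {b : Fin m → ZMod 2}

/-- An affine system without solutions in which only the unknowns of `Y` occur has a subset of at most
`|Y| + 1` equations whose sum is `0 = 1`.
PROOF. Induction on `Y` (generalising `c`, `M`). `Y = ∅`: some `c e ≠ 0`, `G = {e}`. Step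
`insert y Y`: if `M e y = 0` for all `e`, apply the induction hypothesis to the same `c`, `M` (the
unknown `y` does not matter). Otherwise choose `e₀` with `M e₀ y = 1` and eliminate `y` by `e₀`: put
`c' e = c e + M e y * c e₀`, `M' e z = M e z + M e y * M e₀ z`. A solution `v` of the primed system
extends to a solution of the old one with `v y = c e₀ + ∑ z ∈ Y, M e₀ z * v z` (all `e`, also `e₀`).
So the primed system has no solution; let `G'` be its certificate, `s = ∑ e ∈ G', M e y`. If `s = 0`
take `G = G'`; if `s = 1` take `G = G' ∆ {e₀}` (sums over symmetric differences: `sum_symmDiff`).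
In both cases `∑ e ∈ G, f e = ∑ e ∈ G', f e + s * f e₀` for every `f`. -/
theorem certificate {ι κ : Type} [DecidableEq ι] [DecidableEq κ] (Y : Finset κ) (c : ι → ZMod 2)
    (M : ι → κ → ZMod 2)
    (h : ∀ v : κ → ZMod 2, ∃ e, c e + ∑ y ∈ Y, M e y * v y ≠ 0) :
    ∃ G : Finset ι, G.card ≤ Y.card + 1 ∧ (∀ y ∈ Y, ∑ e ∈ G, M e y = 0) ∧ ∑ e ∈ G, c e = 1 := by
  induction Y using Finset.induction_on generalizing c M with
  | empty =>
    obtain ⟨e, he⟩ := h 0
    refine ⟨{e}, by simp, by simp, ?_⟩
    rw [Finset.sum_singleton]
    apply eq_one_of_ne_zero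
    simpa using he
  | insert y Y hy ih =>
    by_cases h0 : ∀ e, M e y = 0
    · obtain ⟨G, h1, h2, h3⟩ := ih c M (by
        intro v
        obtain ⟨e, he⟩ := h v
        refine ⟨e, ?_⟩
        rwa [Finset.sum_insert hy, h0 e, zero_mul, zero_add] at he)
      refine ⟨G, by rw [Finset.card_insert_of_notMem hy]; omega, ?_, h3⟩
      intro z hz
      rcases Finset.mem_insert.1 hz with rfl | hz
      · exact Finset.sum_eq_zero (fun e _ => h0 e)
      · exact h2 z hz
    · obtain ⟨e₀, he₀⟩ := not_forall.1 h0
      have he₁ := eq_one_of_ne_zero he₀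
      obtain ⟨G', h1, h2, h3⟩ := ih (fun e => c e + M e y * c e₀)
        (fun e z => M e z + M e y * M e₀ z) (by
        intro v
        obtain ⟨e, he⟩ := h (Function.update v y (c e₀ + ∑ z ∈ Y, M e₀ z * v z))
        refine ⟨e, ?_⟩
        rw [Finset.sum_insert hy, Function.update_self] at he
        have hu : ∑ z ∈ Y, M e z * Function.update v y (c e₀ + ∑ z ∈ Y, M e₀ z * v z) z =
            ∑ z ∈ Y, M e z * v z := by
          refine Finset.sum_congr rfl fun z hz => ?_
          have hzy : z ≠ y := by
            rintro rfl
            exact hy hz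
          rw [Function.update_of_ne hzy]
        rw [hu] at he
        intro hcon
        apply he
        simp only [add_mul, Finset.sum_add_distrib] at hcon
        have h4 : ∑ z ∈ Y, M e y * M e₀ z * v z = M e y * ∑ z ∈ Y, M e₀ z * v z := by
          rw [Finset.mul_sum]
          exact Finset.sum_congr rfl fun z _ => by ring
        rw [h4] at hcon
        linear_combination hcon)
      have key : ∃ G : Finset ι, G.card ≤ G'.card + 1 ∧
          ∀ f : ι → ZMod 2, ∑ e ∈ G, f e = ∑ e ∈ G', f e + (∑ e ∈ G', M e y) * f e₀ := by
        rcases eq_zero_or_one (∑ e ∈ G', M e y) with hs | hs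
        · refine ⟨G', by omega, fun f => ?_⟩
          rw [hs, zero_mul, add_zero]
        · refine ⟨G' ∆ {e₀}, ?_, fun f => ?_⟩
          · have h5 : G' ∆ {e₀} ⊆ insert e₀ G' := by
              intro e he
              rw [Finset.mem_symmDiff] at he
              rw [Finset.mem_insert]
              rcases he with he | he
              · exact Or.inr he.1
              · exact Or.inl (Finset.mem_singleton.1 he.1)
            exact (Finset.card_le_card h5).trans (Finset.card_insert_le _ _)
          · rw [sum_symmDiff, Finset.sum_singleton, hs, one_mul]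
      obtain ⟨G, hG1, hG2⟩ := key
      refine ⟨G, ?_, ?_, ?_⟩
      · rw [Finset.card_insert_of_notMem hy]; omega
      · intro z hz
        rw [hG2]
        rcases Finset.mem_insert.1 hz with rfl | hz
        · rw [he₁, mul_one, add_self]
        · have h5 := h2 z hz
          rw [Finset.sum_add_distrib, ← Finset.sum_mul] at h5
          exact h5
      · rw [hG2]
        rw [Finset.sum_add_distrib, ← Finset.sum_mul] at h3
        exact h3

end Pool.Agent.Lib.MP_e81270_lc_SR
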