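import Pool.Agent.Lib.MP_e81270_lc_SR.Basic

/-!
Expansion inside the free variables.
-/

set_option autoImplicit false
set_option linter.unusedSectionVars false
set_option linter.unusedVariables false

namespace Pool.Agent.Lib.MP_e81270_lc_SR

open Finset
open scoped symmDiff

variable {n m : ℕ} {E : Fin m → Finset (Fin n)} {b : Fin m → ZMod 2}

/-- Expansion inside `S`: `|uniq R ∩ S| ≥ |uniq R| - ∑ i ∈ R, |E i \ S| ≥ 19 a |R| - a |R|`
(a unique neighbour outside `S` lies in `E i \ S` for some `i ∈ R`). -/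
theorem expands_of_good {a r d D q : ℕ} (hg : Good E a r d D q) {S : Finset (Fin n)}
    (hS : ∀ i, (E i \ S).card ≤ a) : Expands E S r (18 * a) := by
  intro R hR
  have h1 := hg.expand R hR
  have hsub : uniq E R \ S ⊆ R.biUnion fun i => E i \ S := by
    intro x hx
    rw [Finset.mem_sdiff] at hx
    have hx1 : (R.filter fun i => x ∈ E i).card = 1 := (Finset.mem_filter.1 hx.1).2
    have hne : (R.filter fun i => x ∈ E i).Nonempty := by
      rw [← Finset.card_pos, hx1]
      exact Nat.one_pos
    obtain ⟨i, hi⟩ := hne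
    rw [Finset.mem_filter] at hi
    exact Finset.mem_biUnion.2 ⟨i, hi.1, Finset.mem_sdiff.2 ⟨hi.2, hx.2⟩⟩
  have h2 : (uniq E R \ S).card ≤ a * R.card := by
    calc (uniq E R \ S).card ≤ (R.biUnion fun i => E i \ S).card := Finset.card_le_card hsub
      _ ≤ ∑ i ∈ R, (E i \ S).card := Finset.card_biUnion_le
      _ ≤ ∑ _i ∈ R, a := Finset.sum_le_sum fun i _ => hS i
      _ = a * R.card := by rw [Finset.sum_const, smul_eq_mul, mul_comm]
  have h3 : (uniq E R \ S).card + (uniq E R ∩ S).card = (uniq E R).card :=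
    Finset.card_sdiff_add_card_inter (uniq E R) S
  have h4 : 19 * a * R.card = 18 * a * R.card + a * R.card := by ring
  omega

end Pool.Agent.Lib.MP_e81270_lc_SR
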