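import Pool.Agent.Lib.MP_e81270_lc_SR.Basic

/-!
Equations after a substitution.
-/

set_option autoImplicit false
set_option linter.unusedSectionVars false
set_option linter.unusedVariables false

namespace Pool.Agent.Lib.MP_e81270_lc_SR

open Finset
open scoped symmDiff

variable {n m : ℕ} {E : Fin m → Finset (Fin n)} {b : Fin m → ZMod 2}

/-- the difference of the values of a substituted equation at two assignments -/
theorem val_app_add_val_app (σ : Subst n) (e : Fin m) (v v' : Fin n → ZMod 2) :
    val E b {e} (σ.app v) + val E b {e} (σ.app v') = ∑ x, scoef E σ e x * (v x + v' x) := by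
  rw [val_singleton, val_singleton]
  have h1 : ∀ z, σ.app v z + σ.app v' z
      = ∑ x, (if σ.tgt z = some x then (1 : ZMod 2) else 0) * (v x + v' x) := by
    intro z
    unfold Subst.app
    rcases hz : σ.tgt z with _ | y
    · simp only [Option.elim_none, zero_add, reduceCtorEq, if_false, zero_mul,
        Finset.sum_const_zero]
      exact add_self _
    · simp only [Option.elim_some, Option.some.injEq, ite_mul, one_mul, zero_mul,
        Finset.sum_ite_eq, Finset.mem_univ, if_true]
      have := add_self (σ.off z)
      linear_combination this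
  have h2 : ∑ z ∈ E e, σ.app v z + b e + (∑ z ∈ E e, σ.app v' z + b e)
      = ∑ z ∈ E e, (σ.app v z + σ.app v' z) := by
    rw [Finset.sum_add_distrib]
    have := add_self (b e)
    linear_combination this
  rw [h2]
  unfold scoef
  simp only [Finset.sum_mul]
  rw [Finset.sum_comm]
  exact Finset.sum_congr rfl fun z _ => h1 z

theorem scoef_eq_zero {σ : Subst n} {e : Fin m} {x : Fin n} (h : x ∉ targets E σ e) :
    scoef E σ e x = 0 := by
  unfold scoef
  refine Finset.sum_eq_zero fun z hz => ?_
  rw [if_neg]
  intro hzx
  exact h (Finset.mem_filter.2 ⟨Finset.mem_univ _, z, hz, hzx⟩)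

theorem card_targets_le (σ : Subst n) (e : Fin m) : (targets E σ e).card ≤ (E e).card := by
  have h1 : ((targets E σ e).image some).card ≤ ((E e).image σ.tgt).card := by
    refine Finset.card_le_card ?_
    intro o ho
    obtain ⟨y, hy, rfl⟩ := Finset.mem_image.1 ho
    obtain ⟨-, z, hz, hzy⟩ := Finset.mem_filter.1 hy
    exact Finset.mem_image.2 ⟨z, hz, hzy⟩
  rw [Finset.card_image_of_injective _ (Option.some_injective _)] at h1
  exact h1.trans Finset.card_image_le

end Pool.Agent.Lib.MP_e81270_lc_SR
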