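import Pool.Agent.Lib.MP_e81270_lc_SR.Basic

/-!
Dead clauses and locally implied clauses: monotonicity.
-/

set_option autoImplicit false
set_option linter.unusedSectionVars false
set_option linter.unusedVariables false

namespace Pool.Agent.Lib.MP_e81270_lc_SR

open Finset
open scoped symmDiff

variable {n m : ℕ} {E : Fin m → Finset (Fin n)} {b : Fin m → ZMod 2}

/-- more fixed variables -/
theorem Dead.mono {Z Z' : Finset (Fin n)} {v₀ v : Fin n → ZMod 2} (hZ : Z ⊆ Z')
    (hv : Fixed Z v₀ v) {B : Clause n} (h : Dead Z v₀ B) : Dead Z' v B := by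
  rcases h with ⟨l, hl, hlZ, hl2⟩ | h
  · exact Or.inl ⟨l, hl, hZ hlZ, by rw [hv _ hlZ, hl2]⟩
  · exact Or.inr h

/-- more fixed variables -/
theorem Loc.mono {r : ℕ} {Z Z' : Finset (Fin n)} {v₀ v : Fin n → ZMod 2} (hZ : Z ⊆ Z')
    (hv : Fixed Z v₀ v) {B : Clause n} (h : Loc E b r Z v₀ B) : Loc E b r Z' v B := by
  obtain ⟨R, hR, hc, hval⟩ := h
  refine ⟨R, hR, fun x hx hxB => hc x (fun hxZ => hx (hZ hxZ)) hxB, fun v' hv' hB => ?_⟩
  refine hval v' (fun x hx => ?_) hB
  rw [hv' x (hZ hx), hv x hx]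

/-- A clause which is not dead is falsified by some assignment which agrees with `v₀` on `Z`:
`v x = v₀ x` for `x ∈ Z`, otherwise `v x = 1` if `(x, 0) ∈ B` and `v x = 0` if not. -/
theorem exists_falsifying {Z : Finset (Fin n)} {v₀ : Fin n → ZMod 2} {B : Clause n}
    (hB : ¬ Dead Z v₀ B) : ∃ v, Fixed Z v₀ v ∧ ¬ Sat v B := by
  refine ⟨fun x => if x ∈ Z then v₀ x else if (x, (0 : ZMod 2)) ∈ B then 1 else 0,
    fun x hx => if_pos hx, ?_⟩
  rintro ⟨⟨x, s⟩, hl, hv⟩
  change (if x ∈ Z then v₀ x else if (x, (0 : ZMod 2)) ∈ B then 1 else 0) = s at hv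
  by_cases hx : x ∈ Z
  · rw [if_pos hx] at hv
    exact hB (Or.inl ⟨(x, s), hl, hx, hv⟩)
  · rw [if_neg hx] at hv
    by_cases h0 : (x, (0 : ZMod 2)) ∈ B
    · rw [if_pos h0] at hv
      rw [← hv] at hl
      exact hB (Or.inr ⟨x, h0, hl⟩)
    · rw [if_neg h0] at hv
      rw [← hv] at hl
      exact h0 hl

/-- Two assignments which falsify `B` agree on the variables of `B` (values in `ZMod 2`); so a sum of
equations which is violated by `v`, with variables in `Z ∪ vars B`, implies `B`. -/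
theorem loc_of_not_consistent {r : ℕ} {Z : Finset (Fin n)} {v₀ v : Fin n → ZMod 2} {B : Clause n}
    (hv : Fixed Z v₀ v) (hB : ¬ Sat v B) (h : ¬ Consistent E b r (Z ∪ vars B) v) :
    Loc E b r Z v₀ B := by
  unfold Consistent at h
  push Not at h
  obtain ⟨R, hR, hc, hval⟩ := h
  refine ⟨R, hR, fun x hx hxB => hc x ?_, fun v' hv' hB' => ?_⟩
  · rw [Finset.mem_union]
    rintro (h1 | h1)
    · exact hx h1
    · exact hxB h1
  · rw [← eq_one_of_ne_zero hval]
    refine val_congr R fun x hx => ?_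
    by_cases hxZ : x ∈ Z
    · rw [hv' x hxZ, hv x hxZ]
    · have hxB : x ∈ vars B := by
        by_contra hxB
        refine hx (hc x ?_)
        rw [Finset.mem_union]
        rintro (h1 | h1)
        · exact hxZ h1
        · exact hxB h1
      unfold vars at hxB
      rw [Finset.mem_image] at hxB
      obtain ⟨⟨y, s⟩, hl, rfl⟩ := hxB
      have h1 : v y ≠ s := fun h => hB ⟨(y, s), hl, h⟩
      have h2 : v' y ≠ s := fun h => hB' ⟨(y, s), hl, h⟩
      rw [ne_iff_eq_add_one] at h1 h2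
      change v' y = v y
      rw [h1, h2]

end Pool.Agent.Lib.MP_e81270_lc_SR
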