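import Pool.Agent.Lib.MP_e81270_lc_SR.Basic

/-!
The resolution rule keeps locally implied clauses.
-/

set_option autoImplicit false
set_option linter.unusedSectionVars false
set_option linter.unusedVariables false

namespace Pool.Agent.Lib.MP_e81270_lc_SR

open Finset
open scoped symmDiff

variable {n m : ℕ} {E : Fin m → Finset (Fin n)} {b : Fin m → ZMod 2}

private lemma val_upd (R : Finset (Fin m)) (v : Fin n → ZMod 2) (x : Fin n) (s : ZMod 2) :
    val E b R v + val E b R (Function.update v x s) = coef E R x * (v x + s) := by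
  rw [val_add_val, Finset.sum_eq_single x]
  · rw [Function.update_self]
  · intro y _ hy
    rw [Function.update_of_ne hy, add_self, mul_zero]
  · intro h
    exact absurd (Finset.mem_univ x) h

private lemma loc_mono' {Z : Finset (Fin n)} {v₀ : Fin n → ZMod 2} {r : ℕ} {B' B : Clause n}
    (hL : Loc E b r Z v₀ B') (hv : ∀ y ∈ vars B', y ∈ Z ∨ y ∈ vars B)
    (hs : ∀ v, Fixed Z v₀ v → ¬ Sat v B → ¬ Sat v B') : Loc E b r Z v₀ B := by
  obtain ⟨R, hR, hc, hval⟩ := hL
  refine ⟨R, hR, fun y hyZ hyB => hc y hyZ fun hy => ?_, fun v hF hB => hval v hF (hs v hF hB)⟩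
  rcases hv y hy with h | h
  · exact hyZ h
  · exact hyB h

private lemma mem_vars {B : Clause n} {l : Lit n} (h : l ∈ B) : l.1 ∈ vars B :=
  Finset.mem_image_of_mem _ h

private lemma dead_mono {Z : Finset (Fin n)} {v₀ : Fin n → ZMod 2} {B' B : Clause n}
    (h : B' ⊆ B) (hD : Dead Z v₀ B') : Dead Z v₀ B := by
  rcases hD with ⟨l, hl, h1, h2⟩ | ⟨y, h1, h2⟩
  · exact Or.inl ⟨l, h hl, h1, h2⟩
  · exact Or.inr ⟨y, h h1, h h2⟩

private lemma loc_of_subset {Z : Finset (Fin n)} {v₀ : Fin n → ZMod 2} {r : ℕ} {B' B : Clause n}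
    (h : B' ⊆ B) (hL : Loc E b r Z v₀ B') : Loc E b r Z v₀ B := by
  refine loc_mono' hL (fun y hy => Or.inr ?_) (fun v _ hB hB' => ?_)
  · obtain ⟨l, hl, rfl⟩ := Finset.mem_image.1 hy
    exact mem_vars (h hl)
  · obtain ⟨l, hl, hv⟩ := hB'
    exact hB ⟨l, h hl, hv⟩

/-- one clause of the resolution step whose pivot literal `(x, s)` is false under `v₀` -/
private lemma loc_pivot {Z : Finset (Fin n)} {v₀ : Fin n → ZMod 2} {r : ℕ} {B' B : Clause n}
    {x : Fin n} {s : ZMod 2} (hx : x ∈ Z) (hv : v₀ x ≠ s) (hsub : B'.erase (x, s) ⊆ B)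
    (hB : ¬ Dead Z v₀ B) (h' : Dead Z v₀ B' ∨ Loc E b r Z v₀ B') : Loc E b r Z v₀ B := by
  have hmem : ∀ l ∈ B', l ≠ (x, s) → l ∈ B := fun l hl hne =>
    hsub (Finset.mem_erase.2 ⟨hne, hl⟩)
  rcases h' with hD | hL
  · exfalso
    rcases hD with ⟨l, hl, h1, h2⟩ | ⟨y, h1, h2⟩
    · have hne : l ≠ (x, s) := by
        rintro rfl
        exact hv h2
      exact hB (Or.inl ⟨l, hmem l hl hne, h1, h2⟩)
    · by_cases hyx : y = x
      · subst hyx
        -- the literal `(y, s + 1)` is true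
        have h3 : v₀ y = s + 1 := ne_iff_eq_add_one.1 hv
        have h4 : (y, s + 1) ∈ B' := by
          rcases eq_zero_or_one s with rfl | rfl
          · rw [zero_add]; exact h2
          · rw [add_self]; exact h1
        refine hB (Or.inl ⟨(y, s + 1), hmem _ h4 ?_, hx, h3⟩)
        intro h5
        have h6 : s + 1 = s := congrArg Prod.snd h5
        have h7 : (1 : ZMod 2) = 0 := by linear_combination h6
        exact one_ne_zero h7
      · exact hB (Or.inr ⟨y, hmem _ h1 fun h => hyx (congrArg Prod.fst h),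
          hmem _ h2 fun h => hyx (congrArg Prod.fst h)⟩)
  · refine loc_mono' hL (fun y hy => ?_) (fun v hF hB1 hB2 => ?_)
    · obtain ⟨l, hl, rfl⟩ := Finset.mem_image.1 hy
      by_cases hne : l = (x, s)
      · left
        rw [hne]
        exact hx
      · exact Or.inr (mem_vars (hmem l hl hne))
    · obtain ⟨l, hl, hvl⟩ := hB2
      by_cases hne : l = (x, s)
      · rw [hne] at hvl
        exact hv (by rw [← hF x hx]; exact hvl)
      · exact hB1 ⟨l, hmem l hl hne, hvl⟩

/-- facts on one clause of the resolution step if `x` is neither in `Z` nor in `B` -/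
private lemma pivot_facts {Z : Finset (Fin n)} {v₀ : Fin n → ZMod 2} {r : ℕ} {B' B : Clause n}
    {x : Fin n} {s : ZMod 2} (hx : x ∉ Z) (hxB : x ∉ vars B) (hsub : B'.erase (x, s) ⊆ B)
    (hB : ¬ Dead Z v₀ B) (h' : Dead Z v₀ B' ∨ Loc E b r Z v₀ B') :
    ∃ R : Finset (Fin m), R.card ≤ r ∧ (∀ y, y ∉ Z → y ∉ vars B' → coef E R y = 0) ∧
      (∀ y, y ≠ x → y ∉ Z → y ∉ vars B → coef E R y = 0) ∧
      ∀ v, Fixed Z v₀ v → ¬ Sat v B → val E b R (Function.update v x (s + 1)) = 1 := by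
  have hmem : ∀ l ∈ B', l ≠ (x, s) → l ∈ B := fun l hl hne =>
    hsub (Finset.mem_erase.2 ⟨hne, hl⟩)
  have hs : (s + 1 : ZMod 2) ≠ s := by
    intro h6
    have h7 : (1 : ZMod 2) = 0 := by linear_combination h6
    exact one_ne_zero h7
  have hxs : (x, s + 1) ∉ B' := by
    intro h
    have h1 := hmem _ h (fun h5 => hs (congrArg Prod.snd h5))
    exact hxB (mem_vars h1)
  rcases h' with hD | hL
  · exfalso
    rcases hD with ⟨l, hl, h1, h2⟩ | ⟨y, h1, h2⟩
    · have hne : l ≠ (x, s) := by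
        rintro rfl
        exact hx h1
      exact hB (Or.inl ⟨l, hmem l hl hne, h1, h2⟩)
    · by_cases hyx : y = x
      · subst hyx
        rcases eq_zero_or_one s with rfl | rfl
        · rw [zero_add] at hxs
          exact hxs h2
        · rw [add_self] at hxs
          exact hxs h1
      · exact hB (Or.inr ⟨y, hmem _ h1 fun h => hyx (congrArg Prod.fst h),
          hmem _ h2 fun h => hyx (congrArg Prod.fst h)⟩)
  · obtain ⟨R, hR, hc, hval⟩ := hL
    refine ⟨R, hR, hc, fun y hyx hyZ hyB => hc y hyZ fun hy => ?_, fun v hF hBv => hval _ ?_ ?_⟩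
    · obtain ⟨l, hl, rfl⟩ := Finset.mem_image.1 hy
      exact hyB (mem_vars (hmem l hl fun h => hyx (congrArg Prod.fst h)))
    · intro z hz
      have hzx : z ≠ x := fun h => hx (h ▸ hz)
      rw [Function.update_of_ne hzx]
      exact hF z hz
    · rintro ⟨l, hl, hvl⟩
      by_cases hlx : l.1 = x
      · rw [hlx, Function.update_self] at hvl
        exact hxs (by rw [hvl, ← hlx]; exact hl)
      · rw [Function.update_of_ne hlx] at hvl
        exact hBv ⟨l, hmem l hl fun h => hlx (congrArg Prod.fst h), hvl⟩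

private lemma card_half {S Z : Finset (Fin n)} {r t w wL : ℕ} (ht : 0 < t)
    (hexp : Expands E S r t) (hZ : (Z ∩ S).card ≤ wL) (hr : 2 * (w + wL) ≤ t * r)
    {B' : Clause n} (hw : (vars B' ∩ S).card ≤ w) {R : Finset (Fin m)} (hR : R.card ≤ r)
    (hc : ∀ y, y ∉ Z → y ∉ vars B' → coef E R y = 0) : 2 * R.card ≤ r := by
  have h1 := card_le_of_expands hexp hR (Z := Z ∪ vars B') (fun y hy => by
    rw [Finset.mem_union, not_or] at hy
    exact hc y hy.1 hy.2)
  have h2 : ((Z ∪ vars B') ∩ S).card ≤ wL + w := by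
    rw [Finset.union_inter_distrib_right]
    exact (Finset.card_union_le _ _).trans (Nat.add_le_add hZ hw)
  have h3 : t * (2 * R.card) ≤ t * r := by
    calc t * (2 * R.card) = 2 * (t * R.card) := by ring
      _ ≤ 2 * (w + wL) := by omega
      _ ≤ t * r := hr
  exact Nat.le_of_mul_le_mul_left h3 ht

/-- A resolvent which is not dead is locally implied.
PROOF. `t * |R_i| ≤ |(Z ∪ vars B_i) ∩ S| ≤ wL + w` by `card_le_of_expands`.
Case `x ∈ Z`, `v₀ x = 1`: `B₂` is not dead (a true literal `(x, 0)` is impossible, another one is in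
`B`; if both literals of `x` are in `B₂` then `(x, 1) ∈ B` is true; both literals of another variable
are in `B`) and its `R` works for `B`. Case `x ∈ Z`, `v₀ x = 0`: the same with `B₁`.
Case `x ∉ Z`, `(x, 1) ∈ B`: `B₁ ⊆ B`, use `B₁`. Case `x ∉ Z`, `(x, 0) ∈ B`: `B₂ ⊆ B`, use `B₂`.
Case `x ∉ Z`, `x ∉ vars B`: neither `B₁` nor `B₂` is dead; if `coef E R₁ x = 0` then `R₁` works
(`val` at `v` equals `val` at `Function.update v x 0`, which falsifies `B₁`), same for `R₂` with
`Function.update v x 1`; if both coefficients are `1` then `R₁ ∆ R₂` works: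
`val (R₁ ∆ R₂) v = val (R₁ ∆ R₂) (update v x 0) = 1 + val R₂ (update v x 0)` and
`val R₂ (update v x 0) = val R₂ (update v x 1) + 1 = 0` (`val_add_val`). -/
theorem loc_res {S Z : Finset (Fin n)} {v₀ : Fin n → ZMod 2} {r t w wL : ℕ} (ht : 0 < t)
    (hexp : Expands E S r t) (hZ : (Z ∩ S).card ≤ wL) (hr : 2 * (w + wL) ≤ t * r)
    {B₁ B₂ B : Clause n} {x : Fin n}
    (h₁ : Dead Z v₀ B₁ ∨ ((vars B₁ ∩ S).card ≤ w ∧ Loc E b r Z v₀ B₁))
    (h₂ : Dead Z v₀ B₂ ∨ ((vars B₂ ∩ S).card ≤ w ∧ Loc E b r Z v₀ B₂))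
    (hsub : B₁.erase (x, 1) ∪ B₂.erase (x, 0) ⊆ B) (hB : ¬ Dead Z v₀ B) :
    Loc E b r Z v₀ B := by
  have hs₁ : B₁.erase (x, 1) ⊆ B := Finset.subset_union_left.trans hsub
  have hs₂ : B₂.erase (x, 0) ⊆ B := Finset.subset_union_right.trans hsub
  have h₁' : Dead Z v₀ B₁ ∨ Loc E b r Z v₀ B₁ := h₁.imp id And.right
  have h₂' : Dead Z v₀ B₂ ∨ Loc E b r Z v₀ B₂ := h₂.imp id And.right
  by_cases hxZ : x ∈ Z
  · rcases eq_zero_or_one (v₀ x) with h0 | h0
    · exact loc_pivot hxZ (by rw [h0]; exact zero_ne_one) hs₁ hB h₁'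
    · exact loc_pivot hxZ (by rw [h0]; exact one_ne_zero) hs₂ hB h₂'
  by_cases h1B : (x, (1 : ZMod 2)) ∈ B
  · have hsubB : B₁ ⊆ B := by
      intro l hl
      by_cases hne : l = (x, 1)
      · rw [hne]; exact h1B
      · exact hs₁ (Finset.mem_erase.2 ⟨hne, hl⟩)
    rcases h₁' with hD | hL
    · exact absurd (dead_mono hsubB hD) hB
    · exact loc_of_subset hsubB hL
  by_cases h0B : (x, (0 : ZMod 2)) ∈ B
  · have hsubB : B₂ ⊆ B := by
      intro l hl
      by_cases hne : l = (x, 0)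
      · rw [hne]; exact h0B
      · exact hs₂ (Finset.mem_erase.2 ⟨hne, hl⟩)
    rcases h₂' with hD | hL
    · exact absurd (dead_mono hsubB hD) hB
    · exact loc_of_subset hsubB hL
  have hxB : x ∉ vars B := by
    intro h
    obtain ⟨l, hl, hlx⟩ := Finset.mem_image.1 h
    rcases eq_zero_or_one l.2 with h2 | h2
    · exact h0B (by rw [← hlx, ← h2]; exact hl)
    · exact h1B (by rw [← hlx, ← h2]; exact hl)
  -- widths
  have hnd : ∀ (B' : Clause n) (s : ZMod 2), B'.erase (x, s) ⊆ B → ¬ Dead Z v₀ B' := by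
    intro B' s hs hD
    -- by `pivot_facts` for the empty disjunct
    have hmem : ∀ l ∈ B', l ≠ (x, s) → l ∈ B := fun l hl hne =>
      hs (Finset.mem_erase.2 ⟨hne, hl⟩)
    rcases hD with ⟨l, hl, h1, h2⟩ | ⟨y, h1, h2⟩
    · have hne : l ≠ (x, s) := by
        rintro rfl
        exact hxZ h1
      exact hB (Or.inl ⟨l, hmem l hl hne, h1, h2⟩)
    · by_cases hyx : y = x
      · subst hyx
        rcases eq_zero_or_one s with rfl | rfl
        · have := hmem _ h2 (fun h5 => one_ne_zero (congrArg Prod.snd h5))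
          exact h1B this
        · have := hmem _ h1 (fun h5 => zero_ne_one (congrArg Prod.snd h5))
          exact h0B this
      · exact hB (Or.inr ⟨y, hmem _ h1 fun h => hyx (congrArg Prod.fst h),
          hmem _ h2 fun h => hyx (congrArg Prod.fst h)⟩)
  have hw₁ : (vars B₁ ∩ S).card ≤ w := by
    rcases h₁ with hD | hL
    · exact absurd hD (hnd _ _ hs₁)
    · exact hL.1
  have hw₂ : (vars B₂ ∩ S).card ≤ w := by
    rcases h₂ with hD | hL
    · exact absurd hD (hnd _ _ hs₂)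
    · exact hL.1
  obtain ⟨R₁, hR₁, hc₁, hd₁, hv₁⟩ := pivot_facts hxZ hxB hs₁ hB h₁'
  obtain ⟨R₂, hR₂, hc₂, hd₂, hv₂⟩ := pivot_facts hxZ hxB hs₂ hB h₂'
  rw [add_self] at hv₁
  rw [zero_add] at hv₂
  by_cases hx₁ : coef E R₁ x = 0
  · refine ⟨R₁, hR₁, fun y hyZ hyB => ?_, fun v hF hBv => ?_⟩
    · by_cases hyx : y = x
      · rw [hyx]; exact hx₁
      · exact hd₁ y hyx hyZ hyB
    · have h1 := val_upd (E := E) (b := b) R₁ v x 0
      rw [hx₁, zero_mul, hv₁ v hF hBv] at h1
      have := add_self (1 : ZMod 2)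
      linear_combination h1 - this
  by_cases hx₂ : coef E R₂ x = 0
  · refine ⟨R₂, hR₂, fun y hyZ hyB => ?_, fun v hF hBv => ?_⟩
    · by_cases hyx : y = x
      · rw [hyx]; exact hx₂
      · exact hd₂ y hyx hyZ hyB
    · have h1 := val_upd (E := E) (b := b) R₂ v x 1
      rw [hx₂, zero_mul, hv₂ v hF hBv] at h1
      have := add_self (1 : ZMod 2)
      linear_combination h1 - this
  have hx₁' := eq_one_of_ne_zero hx₁
  have hx₂' := eq_one_of_ne_zero hx₂
  have hcard₁ := card_half ht hexp hZ hr hw₁ hR₁ hc₁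
  have hcard₂ := card_half ht hexp hZ hr hw₂ hR₂ hc₂
  refine ⟨R₁ ∆ R₂, ?_, fun y hyZ hyB => ?_, fun v hF hBv => ?_⟩
  · have h1 : R₁ ∆ R₂ ⊆ R₁ ∪ R₂ := by
      intro i hi
      rw [Finset.mem_symmDiff] at hi
      rw [Finset.mem_union]
      rcases hi with hi | hi
      · exact Or.inl hi.1
      · exact Or.inr hi.1
    have h2 := (Finset.card_le_card h1).trans (Finset.card_union_le _ _)
    omega
  · rw [coef_symmDiff]
    by_cases hyx : y = x
    · rw [hyx, hx₁', hx₂', add_self]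
    · rw [hd₁ y hyx hyZ hyB, hd₂ y hyx hyZ hyB, add_zero]
  · rw [val_symmDiff]
    have h1 := val_upd (E := E) (b := b) R₁ v x 0
    have h2 := val_upd (E := E) (b := b) R₂ v x 1
    rw [hx₁', one_mul, hv₁ v hF hBv] at h1
    rw [hx₂', one_mul, hv₂ v hF hBv] at h2
    have h3 := add_self (v x)
    have h4 := add_self (1 : ZMod 2)
    linear_combination h1 + h2 + h3 - h4

end Pool.Agent.Lib.MP_e81270_lc_SR
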