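import Pool.Agent.Lib.MP_e81270_lc_SR.Basic
import Pool.Agent.Lib.MP_e81270_lc_SR.B1

/-!
Resolution derivations keep locally implied clauses.
-/

set_option autoImplicit false
set_option linter.unusedSectionVars false
set_option linter.unusedVariables false

namespace Pool.Agent.Lib.MP_e81270_lc_SR

open Finset
open scoped symmDiff

variable {n m : ℕ} {E : Fin m → Finset (Fin n)} {b : Fin m → ZMod 2}

/-- Induction on the derivation; the literals of `L` are dead (satisfied). -/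
theorem loc_of_der {S Z : Finset (Fin n)} {v₀ : Fin n → ZMod 2} {r t w wL : ℕ} (ht : 0 < t)
    (hexp : Expands E S r t) (hZ : (Z ∩ S).card ≤ wL) (hr : 2 * (w + wL) ≤ t * r)
    {W : Finset (Clause n)} {Γ : Set (Clause n)} {L : Finset (Lit n)}
    (hW : ∀ B ∈ W, Dead Z v₀ B ∨ (vars B ∩ S).card ≤ w)
    (hΓ : ∀ B ∈ Γ, Dead Z v₀ B ∨ ((vars B ∩ S).card ≤ w ∧ Loc E b r Z v₀ B))
    (hL : ∀ l ∈ L, l.1 ∈ Z ∧ v₀ l.1 = l.2) {B : Clause n} (h : Der W Γ L B) :
    Dead Z v₀ B ∨ ((vars B ∩ S).card ≤ w ∧ Loc E b r Z v₀ B) := by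
  induction h with
  | mem B hB => exact hΓ B hB
  | lit l hl => exact Or.inl (Or.inl ⟨l, Finset.mem_singleton_self l, hL l hl⟩)
  | res B₁ B₂ B x _ _ hsub hBW ih₁ ih₂ =>
    by_cases hB : Dead Z v₀ B
    · exact Or.inl hB
    · exact Or.inr ⟨(hW B hBW).resolve_left hB, loc_res ht hexp hZ hr ih₁ ih₂ hsub hB⟩

/-- So the empty clause is not derivable if no small sum of equations is violated. -/
theorem not_der_empty {S Z : Finset (Fin n)} {v₀ : Fin n → ZMod 2} {r t w wL : ℕ} (ht : 0 < t)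
    (hexp : Expands E S r t) (hZ : (Z ∩ S).card ≤ wL) (hr : 2 * (w + wL) ≤ t * r)
    {W : Finset (Clause n)} {Γ : Set (Clause n)} {L : Finset (Lit n)}
    (hW : ∀ B ∈ W, Dead Z v₀ B ∨ (vars B ∩ S).card ≤ w)
    (hΓ : ∀ B ∈ Γ, Dead Z v₀ B ∨ ((vars B ∩ S).card ≤ w ∧ Loc E b r Z v₀ B))
    (hL : ∀ l ∈ L, l.1 ∈ Z ∧ v₀ l.1 = l.2) (hcons : Consistent E b r Z v₀) :
    ¬ Der W Γ L ∅ := by
  intro h
  rcases loc_of_der ht hexp hZ hr hW hΓ hL h with h1 | ⟨-, R, hR, hcoef, hval⟩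
  · rcases h1 with ⟨l, hl, -⟩ | ⟨x, hx, -⟩
    · exact absurd hl (Finset.notMem_empty l)
    · exact absurd hx (Finset.notMem_empty _)
  · have h1 : val E b R v₀ = 1 := by
      refine hval v₀ (fun x _ => rfl) ?_
      rintro ⟨l, hl, -⟩
      exact absurd hl (Finset.notMem_empty l)
    have h2 : val E b R v₀ = 0 := by
      refine hcons R hR fun x hx => hcoef x hx ?_
      unfold vars
      simp
    rw [h1] at h2
    exact one_ne_zero h2

end Pool.Agent.Lib.MP_e81270_lc_SR
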