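import Pool.Agent.Lib.MP_e81270_lc_SR.Defs2

/-!
Basic facts on sums of equations.
-/

set_option autoImplicit false

namespace Pool.Agent.Lib.MP_e81270_lc_SR

open Finset
open scoped symmDiff

variable {n m : ℕ} {E : Fin m → Finset (Fin n)} {b : Fin m → ZMod 2}

lemma add_self (x : ZMod 2) : x + x = 0 := CharTwo.add_self_eq_zero x

lemma eq_zero_or_one (x : ZMod 2) : x = 0 ∨ x = 1 := by
  fin_cases x
  · exact Or.inl rfl
  · exact Or.inr rfl

lemma eq_one_of_ne_zero {x : ZMod 2} (h : x ≠ 0) : x = 1 := (eq_zero_or_one x).resolve_left h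

lemma ne_iff_eq_add_one {x y : ZMod 2} : x ≠ y ↔ x = y + 1 := by
  revert x y
  decide

/-- sums over symmetric differences in characteristic two -/
lemma sum_symmDiff {α : Type*} [DecidableEq α] (R R' : Finset α) (f : α → ZMod 2) :
    ∑ i ∈ R ∆ R', f i = ∑ i ∈ R, f i + ∑ i ∈ R', f i := by
  have h1 : R ∆ R' = (R \ R') ∪ (R' \ R) := rfl
  have hd : Disjoint (R \ R') (R' \ R) := by
    rw [Finset.disjoint_left]
    intro x hx hx'
    rw [Finset.mem_sdiff] at hx hx'
    exact hx'.2 hx.1
  rw [h1, Finset.sum_union hd]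
  have h2 : ∑ i ∈ R, f i = ∑ i ∈ R ∩ R', f i + ∑ i ∈ R \ R', f i :=
    (Finset.sum_inter_add_sum_sdiff R R' f).symm
  have h3 : ∑ i ∈ R', f i = ∑ i ∈ R' ∩ R, f i + ∑ i ∈ R' \ R, f i :=
    (Finset.sum_inter_add_sum_sdiff R' R f).symm
  rw [h2, h3, Finset.inter_comm R' R]
  have := add_self (∑ i ∈ R ∩ R', f i)
  linear_combination -this

lemma val_symmDiff (R R' : Finset (Fin m)) (v : Fin n → ZMod 2) :
    val E b (R ∆ R') v = val E b R v + val E b R' v := sum_symmDiff _ _ _

lemma coef_symmDiff (R R' : Finset (Fin m)) (x : Fin n) :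
    coef E (R ∆ R') x = coef E R x + coef E R' x := sum_symmDiff _ _ _

lemma val_union {R R' : Finset (Fin m)} (h : Disjoint R R') (v : Fin n → ZMod 2) :
    val E b (R ∪ R') v = val E b R v + val E b R' v := Finset.sum_union h

lemma coef_union {R R' : Finset (Fin m)} (h : Disjoint R R') (x : Fin n) :
    coef E (R ∪ R') x = coef E R x + coef E R' x := Finset.sum_union h

@[simp] lemma val_empty (v : Fin n → ZMod 2) : val E b ∅ v = 0 := rfl

@[simp] lemma coef_empty (x : Fin n) : coef E ∅ x = 0 := rfl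

lemma val_singleton (e : Fin m) (v : Fin n → ZMod 2) :
    val E b {e} v = ∑ x ∈ E e, v x + b e := Finset.sum_singleton _ _

lemma coef_singleton (e : Fin m) (x : Fin n) : coef E {e} x = if x ∈ E e then 1 else 0 :=
  Finset.sum_singleton _ _

/-- the difference of the values at two assignments -/
lemma val_add_val (R : Finset (Fin m)) (v v' : Fin n → ZMod 2) :
    val E b R v + val E b R v' = ∑ x, coef E R x * (v x + v' x) := by
  unfold val coef
  simp only [Finset.sum_mul]
  rw [Finset.sum_comm, ← Finset.sum_add_distrib]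
  refine Finset.sum_congr rfl fun i _ => ?_
  have h1 : ∑ x, (if x ∈ E i then (1 : ZMod 2) else 0) * (v x + v' x)
      = ∑ x ∈ E i, (v x + v' x) := by
    simp only [ite_mul, one_mul, zero_mul]
    rw [Finset.sum_ite_mem, Finset.univ_inter]
  rw [h1, Finset.sum_add_distrib]
  have := add_self (b i)
  linear_combination this

/-- the value depends only on the variables with nonzero coefficient -/
lemma val_congr (R : Finset (Fin m)) {v v' : Fin n → ZMod 2}
    (h : ∀ x, coef E R x ≠ 0 → v x = v' x) : val E b R v = val E b R v' := by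
  have h1 := val_add_val (E := E) (b := b) R v v'
  have h2 : ∑ x, coef E R x * (v x + v' x) = 0 := by
    refine Finset.sum_eq_zero fun x _ => ?_
    by_cases hx : coef E R x = 0
    · rw [hx, zero_mul]
    · rw [h x hx, add_self, mul_zero]
  rw [h2] at h1
  have := add_self (val E b R v')
  linear_combination h1 - this

lemma coef_of_mem_uniq {R : Finset (Fin m)} {x : Fin n} (h : x ∈ uniq E R) :
    coef E R x = 1 := by
  unfold uniq at h
  rw [Finset.mem_filter] at h
  unfold coef
  rw [Finset.sum_ite, Finset.sum_const_zero, add_zero, Finset.sum_const, h.2, one_smul]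

lemma coef_eq_zero_of_notMem_cover {R : Finset (Fin m)} {x : Fin n} (h : x ∉ cover E R) :
    coef E R x = 0 := by
  unfold cover at h
  unfold coef
  refine Finset.sum_eq_zero fun i hi => ?_
  rw [if_neg]
  intro hx
  exact h (Finset.mem_biUnion.2 ⟨i, hi, hx⟩)

/-- a small set of equations whose sum has its variables in `Z` is very small -/
lemma card_le_of_expands {S : Finset (Fin n)} {r t : ℕ} (hexp : Expands E S r t)
    {R : Finset (Fin m)} (hR : R.card ≤ r) {Z : Finset (Fin n)}
    (hZ : ∀ x, x ∉ Z → coef E R x = 0) : t * R.card ≤ (Z ∩ S).card := by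
  refine (hexp R hR).trans (Finset.card_le_card ?_)
  intro x hx
  rw [Finset.mem_inter] at hx ⊢
  refine ⟨?_, hx.2⟩
  by_contra hxZ
  have h1 := coef_of_mem_uniq hx.1
  rw [hZ x hxZ] at h1
  exact zero_ne_one h1

lemma uniq_singleton (e : Fin m) : uniq E {e} = E e := by
  unfold uniq
  ext x
  rw [Finset.mem_filter]
  by_cases hx : x ∈ E e
  · simp only [Finset.mem_univ, true_and, hx, iff_true]
    rw [Finset.filter_singleton, if_pos hx, Finset.card_singleton]
  · simp only [Finset.mem_univ, true_and, hx, iff_false]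
    rw [Finset.filter_singleton, if_neg hx, Finset.card_empty]
    norm_num

lemma sat_iff {v : Fin n → ZMod 2} {C : Clause n} : Sat v C ↔ ∃ l ∈ C, v l.1 = l.2 := Iff.rfl

lemma mem_neg {C : Clause n} {l : Lit n} : l ∈ neg C ↔ (l.1, l.2 + 1) ∈ C := by
  unfold neg
  rw [Finset.mem_image]
  constructor
  · rintro ⟨l', hl', rfl⟩
    have : l'.2 + 1 + 1 = l'.2 := by rw [add_assoc, add_self, add_zero]
    simpa [this] using hl'
  · intro h
    refine ⟨_, h, ?_⟩
    have : l.2 + 1 + 1 = l.2 := by rw [add_assoc, add_self, add_zero]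
    ext1 <;> simp [this]

/-- `v` falsifies `C` iff it satisfies all literals of `neg C` -/
lemma not_sat_iff {v : Fin n → ZMod 2} {C : Clause n} :
    ¬ Sat v C ↔ ∀ l ∈ neg C, v l.1 = l.2 := by
  constructor
  · intro h l hl
    rw [mem_neg] at hl
    by_contra hne
    refine h ⟨_, hl, ?_⟩
    exact ne_iff_eq_add_one.1 hne
  · rintro h ⟨l, hl, hv⟩
    have h1 : (l.1, l.2 + 1) ∈ neg C := by
      rw [mem_neg]
      have : l.2 + 1 + 1 = l.2 := by rw [add_assoc, add_self, add_zero]
      simpa [this] using hl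
    have h2 := h _ h1
    rw [hv] at h2
    simp at h2

lemma sum_mult_le (σ : Subst n) : ∑ y, mult σ y ≤ n := by
  unfold mult
  rw [← Finset.card_biUnion]
  · refine (Finset.card_le_univ _).trans ?_
    rw [Fintype.card_fin]
  · intro y _ y' _ hyy
    rw [Function.onFun, Finset.disjoint_left]
    intro z hz hz'
    rw [Finset.mem_filter] at hz hz'
    rw [hz.2] at hz'
    exact hyy (Option.some.inj hz'.2)

end Pool.Agent.Lib.MP_e81270_lc_SR
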