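import Pool.Agent.Lib.MP_e81270_lc_SR.Basic
import Pool.Agent.Lib.MP_e81270_lc_SR.A2
import Pool.Agent.Lib.MP_e81270_lc_SR.A5

/-!
Representation of substituted equations by small sums of equations.
-/

set_option autoImplicit false
set_option linter.unusedSectionVars false
set_option linter.unusedVariables false

namespace Pool.Agent.Lib.MP_e81270_lc_SR

open Finset
open scoped symmDiff

variable {n m : ℕ} {E : Fin m → Finset (Fin n)} {b : Fin m → ZMod 2}

/-- a small set of equations with variables in `W` -/
private def Small (E : Fin m → Finset (Fin n)) (r : ℕ) (W : Finset (Fin n))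
    (R : Finset (Fin m)) : Prop :=
  R.card ≤ r ∧ ∀ x, x ∉ W → coef E R x = 0

private lemma small_symmDiff {S W : Finset (Fin n)} {r t : ℕ} (ht : 0 < t)
    (hexp : Expands E S r t) (hW : 2 * (W ∩ S).card ≤ t * r) {R R' : Finset (Fin m)}
    (h : Small E r W R) (h' : Small E r W R') : Small E r W (R ∆ R') := by
  have h1 := card_le_of_expands hexp h.1 h.2
  have h2 := card_le_of_expands hexp h'.1 h'.2
  have h3 : R ∆ R' ⊆ R ∪ R' := by
    intro i hi
    rw [Finset.mem_symmDiff] at hi
    rw [Finset.mem_union]
    rcases hi with hi | hi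
    · exact Or.inl hi.1
    · exact Or.inr hi.1
  have h4 := (Finset.card_le_card h3).trans (Finset.card_union_le _ _)
  refine ⟨?_, fun x hx => by rw [coef_symmDiff, h.2 x hx, h'.2 x hx, add_zero]⟩
  have h5 : t * (R ∆ R').card ≤ t * r := by
    calc t * (R ∆ R').card ≤ t * (R.card + R'.card) := Nat.mul_le_mul_left _ h4
      _ = t * R.card + t * R'.card := by ring
      _ ≤ (W ∩ S).card + (W ∩ S).card := Nat.add_le_add h1 h2
      _ = 2 * (W ∩ S).card := by ring
      _ ≤ t * r := hW
  exact Nat.le_of_mul_le_mul_left h5 ht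

/-- iterated symmetric differences -/
private lemma exists_iterated {S W : Finset (Fin n)} {r t : ℕ} (ht : 0 < t)
    (hexp : Expands E S r t) (hW : 2 * (W ∩ S).card ≤ t * r) (G : Finset (Finset (Fin m)))
    (hG : ∀ R ∈ G, Small E r W R) :
    ∃ R', Small E r W R' ∧ (∀ v, val E b R' v = ∑ R ∈ G, val E b R v) ∧
      ∀ x, coef E R' x = ∑ R ∈ G, coef E R x := by
  classical
  induction G using Finset.induction_on with
  | empty => exact ⟨∅, ⟨by simp, fun x _ => coef_empty x⟩, fun v => by simp, fun x => by simp⟩
  | @insert A G hA ih =>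
    obtain ⟨R', hs, hv, hc⟩ := ih (fun R hR => hG R (Finset.mem_insert_of_mem hR))
    refine ⟨A ∆ R', small_symmDiff ht hexp hW (hG A (Finset.mem_insert_self _ _)) hs,
      fun v => ?_, fun x => ?_⟩
    · rw [val_symmDiff, Finset.sum_insert hA, hv]
    · rw [coef_symmDiff, Finset.sum_insert hA, hc]

/-- Let `X = targets E σ e`. If every violation of the substituted equation `e` is a violation of some
small sum of equations with variables in `O ∪ X`, then the substituted equation IS such a sum.
PROOF. The small sets `R` (card at most `r`, `coef = 0` off `O ∪ X`) are closed under `∆`: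
`t * |R| ≤ |(O ∪ X) ∩ S|` (`card_le_of_expands`) and `hK`. Apply `certificate` with
`ι = Option (Finset (Fin m))`, `κ = Fin n`, `Y = X \\ O`; for a small `R`:
`c (some R) = val E b R v₀`, `M (some R) y = coef E R y`, both `0` if `R` is not small;
`c none = val E b {e} (σ.app v₀) + 1`, `M none y = scoef E σ e y`. For `w : Fin n → ZMod 2` put
`v x = v₀ x + w x` for `x ∈ Y`, `v x = v₀ x` otherwise: by `val_add_val`, `val_app_add_val_app` the
entries are `val E b R v` and `val E b {e} (σ.app v) + 1`, one of them is nonzero by `H`. Let `G` be the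
certificate. The iterated symmetric difference `R'` of the small `R` with `some R ∈ G` is small (use
`Finset.induction_on` for the set of these `R`). If `none ∉ G` then `coef E R' = 0` off `O` and
`val E b R' v₀ = 1`, against `hcons`. So `none ∈ G`, `coef E R' y = scoef E σ e y` for `y ∈ Y` (and both
are `0` for `y ∉ O ∪ X`) and `val E b R' v₀ = val E b {e} (σ.app v₀)`. -/
theorem exists_rep {S O : Finset (Fin n)} {v₀ : Fin n → ZMod 2} {r t : ℕ} (ht : 0 < t)
    (hexp : Expands E S r t) (σ : Subst n) (e : Fin m)
    (hK : 2 * ((O ∪ targets E σ e) ∩ S).card ≤ t * r) (hcons : Consistent E b r O v₀)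
    (H : ∀ v, Fixed O v₀ v → val E b {e} (σ.app v) = 1 →
      ∃ R : Finset (Fin m), R.card ≤ r ∧
        (∀ x, x ∉ O ∪ targets E σ e → coef E R x = 0) ∧ val E b R v = 1) :
    ∃ R : Finset (Fin m), t * R.card ≤ ((O ∪ targets E σ e) ∩ S).card ∧ R.card ≤ r ∧
      (∀ x, x ∉ O → coef E R x = scoef E σ e x) ∧
      ∀ v, Fixed O v₀ v → val E b R v = val E b {e} (σ.app v) := by
  classical
  set X := targets E σ e with hX
  set W := O ∪ X with hW
  set Y := X \ O with hY
  -- the system
  let c : Option (Finset (Fin m)) → ZMod 2 := fun o =>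
    o.elim (val E b {e} (σ.app v₀) + 1) (fun R => if Small E r W R then val E b R v₀ else 0)
  let M : Option (Finset (Fin m)) → Fin n → ZMod 2 := fun o y =>
    o.elim (scoef E σ e y) (fun R => if Small E r W R then coef E R y else 0)
  -- assignments
  have hval : ∀ (w : Fin n → ZMod 2) (f : Fin n → ZMod 2), (∀ y, y ∉ W → f y = 0) →
      ∑ y, f y * ((if y ∈ Y then v₀ y + w y else v₀ y) + v₀ y) = ∑ y ∈ Y, f y * w y := by
    intro w f _
    rw [← Finset.sum_subset (Finset.subset_univ Y)]
    · refine Finset.sum_congr rfl fun y hy => ?_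
      rw [if_pos hy]
      have := add_self (v₀ y)
      linear_combination f y * this
    · intro y _ hy
      rw [if_neg hy, add_self, mul_zero]
  have hsys : ∀ w : Fin n → ZMod 2, ∃ o, c o + ∑ y ∈ Y, M o y * w y ≠ 0 := by
    intro w
    set v : Fin n → ZMod 2 := fun y => if y ∈ Y then v₀ y + w y else v₀ y with hv
    have hF : Fixed O v₀ v := by
      intro x hx
      have hxY : x ∉ Y := fun h => (Finset.mem_sdiff.1 h).2 hx
      simp only [hv, if_neg hxY]
    have hnone : c none + ∑ y ∈ Y, M none y * w y = val E b {e} (σ.app v) + 1 := by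
      have h1 := val_app_add_val_app (E := E) (b := b) σ e v v₀
      have h2 := hval w (scoef E σ e) (fun y hy => scoef_eq_zero fun h =>
        hy (Finset.mem_union_right _ h))
      rw [h2] at h1
      show val E b {e} (σ.app v₀) + 1 + ∑ y ∈ Y, scoef E σ e y * w y = _
      have h3 := add_self (val E b {e} (σ.app v₀))
      linear_combination (-1 : ZMod 2) * h1 + h3
    by_cases h0 : val E b {e} (σ.app v) = 1
    · obtain ⟨R, hR1, hR2, hR3⟩ := H v hF h0
      have hsm : Small E r W R := ⟨hR1, hR2⟩
      refine ⟨some R, ?_⟩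
      have h1 := val_add_val (E := E) (b := b) R v v₀
      rw [hval w (coef E R) hR2, hR3] at h1
      show (if Small E r W R then val E b R v₀ else 0) +
        ∑ y ∈ Y, (if Small E r W R then coef E R y else 0) * w y ≠ 0
      simp only [if_pos hsm]
      have h3 := add_self (val E b R v₀)
      have h4 : val E b R v₀ + ∑ y ∈ Y, coef E R y * w y = 1 := by
        linear_combination (-1 : ZMod 2) * h1 + h3
      rw [h4]
      exact one_ne_zero
    · refine ⟨none, ?_⟩
      rw [hnone, (eq_zero_or_one _).resolve_right h0, zero_add]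
      exact one_ne_zero
  obtain ⟨G, -, hG1, hG2⟩ := certificate Y c M hsys
  -- the small sets of the certificate
  set G' : Finset (Finset (Fin m)) := univ.filter fun R => some R ∈ G ∧ Small E r W R with hG'
  obtain ⟨R', hs, hv, hc⟩ := exists_iterated (b := b) ht hexp (W := W) hK G'
    (fun R hR => (Finset.mem_filter.1 hR).2.2)
  -- sums over the certificate
  have hsum : ∀ (a : ZMod 2) (f : Finset (Fin m) → ZMod 2),
      ∑ o ∈ G, o.elim a (fun R => if Small E r W R then f R else 0) =
        (if none ∈ G then a else 0) + ∑ R ∈ G', f R := by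
    intro a f
    have h1 : ∑ o ∈ G, o.elim a (fun R => if Small E r W R then f R else 0) =
        ∑ o : Option (Finset (Fin m)), if o ∈ G then
          o.elim a (fun R => if Small E r W R then f R else 0) else 0 := by
      rw [Finset.sum_ite_mem, Finset.univ_inter]
    rw [h1, Fintype.sum_option]
    congr 1
    rw [hG', Finset.sum_filter]
    refine Finset.sum_congr rfl fun R _ => ?_
    by_cases h2 : some R ∈ G
    · by_cases h3 : Small E r W R
      · simp [h2, h3]
      · simp [h2, h3]
    · simp [h2]
  have hc' : ∀ y ∈ Y, (if none ∈ G then scoef E σ e y else 0) + coef E R' y = 0 := by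
    intro y hy
    have h1 := hG1 y hy
    have h2 := hsum (scoef E σ e y) (fun R => coef E R y)
    rw [hc, ← h2]
    exact h1
  have hv' : (if none ∈ G then val E b {e} (σ.app v₀) + 1 else 0) + val E b R' v₀ = 1 := by
    have h2 := hsum (val E b {e} (σ.app v₀) + 1) (fun R => val E b R v₀)
    rw [hv, ← h2]
    exact hG2
  have hone : (none : Option (Finset (Fin m))) ∈ G := by
    by_contra hnot
    rw [if_neg hnot, zero_add] at hv'
    have h3 := hcons R' hs.1 (fun x hx => by
      by_cases hxW : x ∈ W
      · have hxY : x ∈ Y := by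
          rw [hY, Finset.mem_sdiff]
          refine ⟨?_, hx⟩
          rcases Finset.mem_union.1 hxW with h | h
          · exact absurd h hx
          · exact h
        have h4 := hc' x hxY
        rw [if_neg hnot, zero_add] at h4
        exact h4
      · exact hs.2 x hxW)
    rw [h3] at hv'
    exact zero_ne_one hv'
  have hcR : ∀ x, x ∉ O → coef E R' x = scoef E σ e x := by
    intro x hx
    by_cases hxX : x ∈ X
    · have h4 := hc' x (Finset.mem_sdiff.2 ⟨hxX, hx⟩)
      rw [if_pos hone] at h4
      have h5 := add_self (scoef E σ e x)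
      linear_combination h4 - h5
    · rw [scoef_eq_zero hxX]
      exact hs.2 x (fun h => by
        rcases Finset.mem_union.1 h with h | h
        · exact hx h
        · exact hxX h)
  refine ⟨R', card_le_of_expands hexp hs.1 hs.2, hs.1, hcR, fun v hF => ?_⟩
  have h1 := val_add_val (E := E) (b := b) R' v v₀
  have h2 := val_app_add_val_app (E := E) (b := b) σ e v v₀
  have h3 : ∑ x, coef E R' x * (v x + v₀ x) = ∑ x, scoef E σ e x * (v x + v₀ x) := by
    refine Finset.sum_congr rfl fun x _ => ?_
    by_cases hx : x ∈ O
    · rw [hF x hx, add_self, mul_zero, mul_zero]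
    · rw [hcR x hx]
  rw [if_pos hone] at hv'
  have h4 := add_self (val E b R' v₀)
  have h5 := add_self (val E b {e} (σ.app v₀))
  have h6 := add_self (1 : ZMod 2)
  linear_combination h1 + h3 - h2 - hv' + h5 + h6 - h6

end Pool.Agent.Lib.MP_e81270_lc_SR
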