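import Pool.Agent.Lib.MP_e81270_lc_SR.Basic

/-!
The closure of a small set of variables.
-/

set_option autoImplicit false
set_option linter.unusedSectionVars false
set_option linter.unusedVariables false

namespace Pool.Agent.Lib.MP_e81270_lc_SR

open Finset
open scoped symmDiff

variable {n m : ℕ} {E : Fin m → Finset (Fin n)} {b : Fin m → ZMod 2}

/-- The closure of `P`: `Cl` of maximal card among the `R` with `R.card ≤ r` and
`((uniq E R ∩ S) \ P).card ≤ s * R.card`. (`δ * Cl.card ≤ P.card` by the expansion. If `R` violates the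
last property then `R ∪ Cl` is larger and still allowed: a unique neighbour of `R ∪ Cl` is a unique
neighbour of `Cl`, or it is one of `R` and not in `cover E Cl`.) -/
theorem exists_closure {S P : Finset (Fin n)} {r s δ w : ℕ} (hexp : Expands E S r (s + δ))
    (hP : P.card ≤ w) :
    ∃ Cl : Finset (Fin m), δ * Cl.card ≤ w ∧ Cl.card ≤ r ∧
      ∀ R : Finset (Fin m), R.Nonempty → Disjoint R Cl → R.card + Cl.card ≤ r →
        s * R.card < ((uniq E R ∩ S) \ (P ∪ cover E Cl)).card := by
  classical
  obtain ⟨Cl, hCl, hmax⟩ := exists_max_image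
    (univ.filter fun R : Finset (Fin m) => R.card ≤ r ∧ ((uniq E R ∩ S) \ P).card ≤ s * R.card)
    (fun R => R.card) ⟨∅, by simp [uniq]⟩
  rw [mem_filter] at hCl
  obtain ⟨_, hCl1, hCl2⟩ := hCl
  refine ⟨Cl, ?_, hCl1, ?_⟩
  · have h1 := hexp Cl hCl1
    have h2 : (uniq E Cl ∩ S).card ≤ ((uniq E Cl ∩ S) \ P).card + P.card := by
      have := card_le_card (s := uniq E Cl ∩ S) (t := ((uniq E Cl ∩ S) \ P) ∪ P) (by
        intro x hx
        by_cases hxP : x ∈ P
        · exact mem_union_right _ hxP
        · exact mem_union_left _ (mem_sdiff.2 ⟨hx, hxP⟩))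
      exact this.trans (card_union_le _ _)
    rw [add_mul] at h1
    omega
  · intro R hR hd hc
    by_contra hcon
    push Not at hcon
    have h1 : (R ∪ Cl).card = R.card + Cl.card := card_union_of_disjoint hd
    have h2 : (uniq E (R ∪ Cl) ∩ S) \ P ⊆
        ((uniq E Cl ∩ S) \ P) ∪ ((uniq E R ∩ S) \ (P ∪ cover E Cl)) := by
      intro x hx
      rw [mem_sdiff, mem_inter, uniq, mem_filter] at hx
      obtain ⟨⟨⟨_, hx1⟩, hxS⟩, hxP⟩ := hx
      rw [filter_union, card_union_of_disjoint (disjoint_filter_filter hd)] at hx1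
      by_cases h3 : (Cl.filter fun i => x ∈ E i).card = 0
      · apply mem_union_right
        rw [mem_sdiff, mem_inter, uniq, mem_filter, mem_union]
        refine ⟨⟨⟨mem_univ _, by omega⟩, hxS⟩, ?_⟩
        rintro (h4 | h4)
        · exact hxP h4
        · rw [cover, mem_biUnion] at h4
          obtain ⟨i, hi, hxi⟩ := h4
          rw [card_eq_zero] at h3
          have : i ∈ Cl.filter fun i => x ∈ E i := mem_filter.2 ⟨hi, hxi⟩
          rw [h3] at this
          simp at this
      · apply mem_union_left
        rw [mem_sdiff, mem_inter, uniq, mem_filter]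
        exact ⟨⟨⟨mem_univ _, by omega⟩, hxS⟩, hxP⟩
    have h3 := (card_le_card h2).trans (card_union_le _ _)
    have h4 := hmax (R ∪ Cl) (by
      rw [mem_filter]
      refine ⟨mem_univ _, by omega, ?_⟩
      rw [h1, mul_add]
      omega)
    have h5 := hR.card_pos
    simp only [h1] at h4
    omega

end Pool.Agent.Lib.MP_e81270_lc_SR
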