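import Pool.Agent.Lib.MP_e81270_lc_SR.Basic
import Pool.Agent.Lib.MP_e81270_lc_SR.A5

/-!
Outside the closure there is at most one equation.
-/

set_option autoImplicit false
set_option linter.unusedSectionVars false
set_option linter.unusedVariables false

namespace Pool.Agent.Lib.MP_e81270_lc_SR

open Finset
open scoped symmDiff

variable {n m : ℕ} {E : Fin m → Finset (Fin n)} {b : Fin m → ZMod 2}

/-- Let `R' = R \ Cl` be nonempty. A variable `x` of `(uniq E R' ∩ S) \ (P ∪ cover E Cl)` is not in `O`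
and `coef E R x = coef E R' x + coef E (R ∩ Cl) x = 1 + 0`, so `scoef E σ e x ≠ 0` and
`x ∈ targets E σ e`. So `s * |R'| < |targets| ≤ |E e| < 2 * s`. -/
theorem card_sdiff_le_one {S P O : Finset (Fin n)} {Cl R : Finset (Fin m)} {σ : Subst n}
    {e : Fin m} {r s : ℕ} (hO : ∀ x ∈ S, x ∈ O → x ∈ P)
    (hCl : ∀ R : Finset (Fin m), R.Nonempty → Disjoint R Cl → R.card + Cl.card ≤ r →
        s * R.card < ((uniq E R ∩ S) \ (P ∪ cover E Cl)).card)
    (hcard : R.card + Cl.card ≤ r) (hcoef : ∀ x, x ∉ O → coef E R x = scoef E σ e x)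
    (hs : (E e).card < 2 * s) : (R \ Cl).card ≤ 1 := by
  classical
  rcases (R \ Cl).eq_empty_or_nonempty with h0 | h0
  · rw [h0]; simp
  have h1 := hCl (R \ Cl) h0 sdiff_disjoint
    (by have := card_le_card (sdiff_subset : R \ Cl ⊆ R); omega)
  have h2 : (uniq E (R \ Cl) ∩ S) \ (P ∪ cover E Cl) ⊆ targets E σ e := by
    intro x hx
    rw [mem_sdiff, mem_inter, mem_union, not_or] at hx
    obtain ⟨⟨hxu, hxS⟩, hxP, hxc⟩ := hx
    have h3 := hcoef x (fun hxO => hxP (hO x hxS hxO))
    have h4 : coef E R x = coef E (R \ Cl) x + coef E (R ∩ Cl) x := by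
      rw [← coef_union, sdiff_union_inter]
      exact disjoint_sdiff_inter _ _
    have h5 : coef E (R ∩ Cl) x = 0 := by
      apply coef_eq_zero_of_notMem_cover
      intro hc
      apply hxc
      rw [cover, mem_biUnion] at hc ⊢
      obtain ⟨i, hi, hxi⟩ := hc
      exact ⟨i, (mem_inter.1 hi).2, hxi⟩
    rw [coef_of_mem_uniq hxu, h5, add_zero] at h4
    rw [h4] at h3
    unfold targets
    rw [mem_filter]
    refine ⟨mem_univ _, ?_⟩
    by_contra hcon
    push Not at hcon
    have h6 : scoef E σ e x = 0 := by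
      unfold scoef
      exact sum_eq_zero (fun z hz => if_neg (hcon z hz))
    rw [h6] at h3
    exact one_ne_zero h3
  have h3 : (targets E σ e).card ≤ (E e).card := by
    have h4 : targets E σ e ⊆ (E e).biUnion (fun z => (σ.tgt z).toFinset) := by
      intro x hx
      unfold targets at hx
      rw [mem_filter] at hx
      obtain ⟨_, z, hz, hzx⟩ := hx
      exact mem_biUnion.2 ⟨z, hz, by simp [hzx]⟩
    calc (targets E σ e).card ≤ ((E e).biUnion (fun z => (σ.tgt z).toFinset)).card := card_le_card h4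
      _ ≤ (E e).card * 1 := by
        refine card_biUnion_le_card_mul _ _ _ (fun z _ => ?_)
        rcases σ.tgt z with _ | y <;> simp
      _ = (E e).card := mul_one _
  have h4 := card_le_card h2
  have h5 : s * (R \ Cl).card < s * 2 := by omega
  have h6 := lt_of_mul_lt_mul_left h5 (Nat.zero_le s)
  omega

end Pool.Agent.Lib.MP_e81270_lc_SR
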