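import Mathlib

/-!
Resolution with substitution redundancy and dominance, without new variables: definitions.
-/

set_option autoImplicit false

namespace Pool.Agent.Lib.MP_e81270_lc_SR

/-- A literal `(x, s)` says that the variable `x` has the value `s`. -/
abbrev Lit (n : ℕ) := Fin n × ZMod 2

/-- A clause is the disjunction of its literals. -/
abbrev Clause (n : ℕ) := Finset (Lit n)

/-- The assignment `v` satisfies the clause `C`. -/
def Sat {n : ℕ} (v : Fin n → ZMod 2) (C : Clause n) : Prop := ∃ l ∈ C, v l.1 = l.2

/-- The literals of the negation of the clause `C`. -/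
def neg {n : ℕ} (C : Clause n) : Finset (Lit n) := C.image fun l => (l.1, l.2 + 1)

/-- A substitution replaces every variable `x` by the literal `y + off x` (the variable `y = tgt x`
or its negation) or, if `tgt x = none`, by the constant `off x`. -/
structure Subst (n : ℕ) where
  tgt : Fin n → Option (Fin n)
  off : Fin n → ZMod 2

/-- The assignment which gives every variable the value, under `v`, of what replaces it. -/
def Subst.app {n : ℕ} (σ : Subst n) (v : Fin n → ZMod 2) : Fin n → ZMod 2 :=
  fun x => (σ.tgt x).elim 0 v + σ.off x

/-- The clause `C` after the substitution, constants left out. -/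
def Subst.clause {n : ℕ} (σ : Subst n) (C : Clause n) : Clause n :=
  C.biUnion fun l => (σ.tgt l.1).elim ∅ fun y => {(y, l.2 + σ.off l.1)}

/-- The substitution makes the clause `C` true. -/
def Subst.Satisfies {n : ℕ} (σ : Subst n) (C : Clause n) : Prop := ∀ v, Sat (σ.app v) C

/-- `Der W Γ L B`: the clause `B` has a resolution derivation (with weakening) from the clauses of
`Γ` and the literals of `L`, and all clauses derived in it are in `W`. -/
inductive Der {n : ℕ} (W : Finset (Clause n)) (Γ : Set (Clause n)) (L : Finset (Lit n)) :
    Clause n → Prop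
  | mem (B : Clause n) : B ∈ Γ → Der W Γ L B
  | lit (l : Lit n) : l ∈ L → Der W Γ L {l}
  | res (B₁ B₂ B : Clause n) (x : Fin n) : Der W Γ L B₁ → Der W Γ L B₂ →
      B₁.erase (x, 1) ∪ B₂.erase (x, 0) ⊆ B → B ∈ W → Der W Γ L B

/-- Substitution redundancy: some substitution makes `C` true and, for every clause `B` of `Γ`,
makes `B` true or turns it into a clause for which `Γ`, the negation of `C` and the negation of that
clause have a resolution refutation with derived clauses in `W`. -/
def Redundant {n : ℕ} (W : Finset (Clause n)) (Γ : Set (Clause n)) (C : Clause n) : Prop :=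
  ∃ σ : Subst n, σ.Satisfies C ∧
    ∀ B ∈ Γ, σ.Satisfies B ∨ Der W Γ (neg C ∪ neg (σ.clause B)) ∅

/-- The clauses which follow from one of the equations `x = σ(x)`: the value of the variable `x` is
that of what replaces it. They contain only `x` and the variable which replaces it. -/
def Subst.fixed {n : ℕ} (σ : Subst n) : Set (Clause n) :=
  {B | ∃ x, (∀ l ∈ B, l.1 = x ∨ σ.tgt x = some l.1) ∧ ∀ v, σ.app v x = v x → Sat v B}

/-- Dominance: some substitution `σ` changes every assignment `v` which satisfies `Γ` and violates `C`
(it changes every `v` which violates `C`, or the clauses of `σ(v) = v`, `Γ` and the negation of `C` have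
a resolution refutation) and, for every clause `B` of the input `F`, makes `B` true or turns it into a
clause for which `Γ`, the negation of `C` and the negation of that clause have a resolution
refutation. So `σ(v)` is another solution of `F`. A dominance rule asks moreover that `σ(v)` is smaller
than `v` in a given order; here this is not required. -/
def Dominated {n : ℕ} (F : Set (Clause n)) (W : Finset (Clause n)) (Γ : Set (Clause n))
    (C : Clause n) : Prop :=
  ∃ σ : Subst n, ((∀ v, ¬ Sat v C → σ.app v ≠ v) ∨ Der W (Γ ∪ σ.fixed) (neg C) ∅) ∧
    ∀ B ∈ F, σ.Satisfies B ∨ Der W Γ (neg C ∪ neg (σ.clause B)) ∅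

/-- The sets of clauses which can be reached from `F`: a clause which has a resolution derivation, or
is redundant, or is dominated may be added, and clauses not in `F` may be deleted. All derived clauses
are in `W`. -/
inductive Reach {n : ℕ} (F : Set (Clause n)) (W : Finset (Clause n)) : Set (Clause n) → Prop
  | start : Reach F W F
  | infer (Γ : Set (Clause n)) (C : Clause n) : Reach F W Γ → C ∈ W → Der W Γ ∅ C →
      Reach F W (insert C Γ)
  | redundant (Γ : Set (Clause n)) (C : Clause n) : Reach F W Γ → C ∈ W → Redundant W Γ C →
      Reach F W (insert C Γ)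
  | dominated (Γ : Set (Clause n)) (C : Clause n) : Reach F W Γ → C ∈ W → Dominated F W Γ C →
      Reach F W (insert C Γ)
  | delete (Γ Γ' : Set (Clause n)) : Reach F W Γ → F ⊆ Γ' → Γ' ⊆ Γ → Reach F W Γ'

/-- A refutation of `F` in which all derived clauses are in `W`. -/
def Refutes {n : ℕ} (F : Set (Clause n)) (W : Finset (Clause n)) : Prop :=
  ∃ Γ, Reach F W Γ ∧ ∅ ∈ Γ

/-- The clauses of the linear equation `∑ x ∈ E, v x = b`: one for each assignment of the variables
in `E` which violates it. -/
def eqClauses {n : ℕ} (E : Finset (Fin n)) (b : ZMod 2) : Set (Clause n) :=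
  {C | ∃ u : Fin n → ZMod 2, ∑ x ∈ E, u x ≠ b ∧ C = E.image fun x => (x, u x + 1)}

/-- The clauses of a system of linear equations modulo 2. -/
def cnf {n m : ℕ} (E : Fin m → Finset (Fin n)) (b : Fin m → ZMod 2) : Set (Clause n) :=
  {C | ∃ i, C ∈ eqClauses (E i) (b i)}

end Pool.Agent.Lib.MP_e81270_lc_SR
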