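import Pool.Agent.Lib.MP_e81270_lc_SR.Defs

/-!
Systems of linear equations: values, coefficients, unique neighbours, locally implied clauses.
-/

set_option autoImplicit false

namespace Pool.Agent.Lib.MP_e81270_lc_SR

open Finset

variable {n m : ℕ}

/-- The value at `v` of the sum of the equations of `R`: it is `0` iff `v` satisfies the sum. -/
def val (E : Fin m → Finset (Fin n)) (b : Fin m → ZMod 2) (R : Finset (Fin m))
    (v : Fin n → ZMod 2) : ZMod 2 :=
  ∑ i ∈ R, (∑ x ∈ E i, v x + b i)

/-- The coefficient of the variable `x` in the sum of the equations of `R`. -/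
def coef (E : Fin m → Finset (Fin n)) (R : Finset (Fin m)) (x : Fin n) : ZMod 2 :=
  ∑ i ∈ R, if x ∈ E i then 1 else 0

/-- The variables which occur in exactly one equation of `R`. -/
def uniq (E : Fin m → Finset (Fin n)) (R : Finset (Fin m)) : Finset (Fin n) :=
  univ.filter fun x => (R.filter fun i => x ∈ E i).card = 1

/-- The variables which occur in some equation of `R`. -/
def cover (E : Fin m → Finset (Fin n)) (R : Finset (Fin m)) : Finset (Fin n) := R.biUnion E

/-- The variables of a clause. -/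
def vars (B : Clause n) : Finset (Fin n) := B.image Prod.fst

/-- `v` agrees with `v₀` on `Z`. -/
def Fixed (Z : Finset (Fin n)) (v₀ v : Fin n → ZMod 2) : Prop := ∀ x ∈ Z, v x = v₀ x

/-- The clause is satisfied by the values of `v₀` on `Z`, or it is a tautology. -/
def Dead (Z : Finset (Fin n)) (v₀ : Fin n → ZMod 2) (B : Clause n) : Prop :=
  (∃ l ∈ B, l.1 ∈ Z ∧ v₀ l.1 = l.2) ∨ ∃ x, (x, 0) ∈ B ∧ (x, 1) ∈ B

/-- Given the values of `v₀` on `Z`, the clause is implied by the sum of at most `r` equations. -/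
def Loc (E : Fin m → Finset (Fin n)) (b : Fin m → ZMod 2) (r : ℕ) (Z : Finset (Fin n))
    (v₀ : Fin n → ZMod 2) (B : Clause n) : Prop :=
  ∃ R : Finset (Fin m), R.card ≤ r ∧ (∀ x, x ∉ Z → x ∉ vars B → coef E R x = 0) ∧
    ∀ v, Fixed Z v₀ v → ¬ Sat v B → val E b R v = 1

/-- Given the values of `v₀` on `Z`, no sum of at most `r` equations is violated. -/
def Consistent (E : Fin m → Finset (Fin n)) (b : Fin m → ZMod 2) (r : ℕ) (Z : Finset (Fin n))
    (v₀ : Fin n → ZMod 2) : Prop :=
  ∀ R : Finset (Fin m), R.card ≤ r → (∀ x, x ∉ Z → coef E R x = 0) → val E b R v₀ = 0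

/-- Every set `R` of at most `r` equations has at least `t |R|` unique neighbours in `S`. -/
def Expands (E : Fin m → Finset (Fin n)) (S : Finset (Fin n)) (r t : ℕ) : Prop :=
  ∀ R : Finset (Fin m), R.card ≤ r → t * R.card ≤ (uniq E R ∩ S).card

/-- The number of variables which `σ` replaces by `y` or its negation. -/
def mult (σ : Subst n) (y : Fin n) : ℕ := (univ.filter fun z => σ.tgt z = some y).card

/-- The coefficient of `x` in the equation `e` after the substitution. -/
def scoef (E : Fin m → Finset (Fin n)) (σ : Subst n) (e : Fin m) (x : Fin n) : ZMod 2 :=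
  ∑ z ∈ E e, if σ.tgt z = some x then 1 else 0

/-- The variables which replace the variables of the equation `e`. -/
def targets (E : Fin m → Finset (Fin n)) (σ : Subst n) (e : Fin m) : Finset (Fin n) :=
  univ.filter fun y => ∃ z ∈ E e, σ.tgt z = some y

/-- The pseudorandom properties of the system which are used. -/
structure Good (E : Fin m → Finset (Fin n)) (a r d D q : ℕ) : Prop where
  small : ∀ i, (E i).card < 20 * a
  expand : ∀ R : Finset (Fin m), R.card ≤ r → 19 * a * R.card ≤ (uniq E R).card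
  inj : ∀ v : Fin n → ZMod 2, v ≠ 0 → ∃ i, ∑ x ∈ E i, v x ≠ 0
  codeg : ∀ x y, x ≠ y → (univ.filter fun i => x ∈ E i ∧ y ∈ E i).card ≤ 2
  deg : ∀ x, d ≤ (univ.filter fun i => x ∈ E i).card
  rigid : ∀ σ : Subst n, (univ.filter fun i => ∃ j, j ≠ i ∧
    14 * a ≤ ((E i).filter fun x => ∃ y ∈ E j, σ.tgt x = some y ∧ mult σ y ≤ D).card).card ≤ q
  mix : ∀ X : Finset (Fin n), 20 * X.card ≤ 11 * n →
    (univ.filter fun i => 18 * a ≤ (E i ∩ X).card).card ≤ q

end Pool.Agent.Lib.MP_e81270_lc_SR
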