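import Pool.Agent.Lib.MP_e81270_lc_SR.Basic
import Pool.Agent.Lib.MP_e81270_lc_SR.A5

/-!
The moved variables in the two cases.
-/

set_option autoImplicit false
set_option linter.unusedSectionVars false
set_option linter.unusedVariables false

namespace Pool.Agent.Lib.MP_e81270_lc_SR

open Finset
open scoped symmDiff

variable {n m : ℕ} {E : Fin m → Finset (Fin n)} {b : Fin m → ZMod 2}

private lemma E10_scoef (σ : Subst n) (e : Fin m) (x : Fin n) :
    scoef E σ e x = (((E e).filter fun z => σ.tgt z = some x).card : ZMod 2) := by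
  unfold scoef
  rw [Finset.sum_ite, Finset.sum_const_zero, add_zero, Finset.sum_const, nsmul_eq_mul, mul_one]

private lemma E10_even {σ : Subst n} {e : Fin m} {z y : Fin n}
    (h : Even ((E e).filter fun x => σ.tgt x = some y).card) (hze : z ∈ E e)
    (hz : σ.tgt z = some y) : ∃ x ∈ E e, x ≠ z ∧ σ.tgt x = some y := by
  have hzm : z ∈ (E e).filter fun x => σ.tgt x = some y := Finset.mem_filter.2 ⟨hze, hz⟩
  have h1 : 0 < ((E e).filter fun x => σ.tgt x = some y).card := Finset.card_pos.2 ⟨z, hzm⟩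
  have h2 : 1 < ((E e).filter fun x => σ.tgt x = some y).card := by
    obtain ⟨c, hc⟩ := h
    omega
  obtain ⟨x, hx, hxz⟩ := Finset.exists_mem_ne h2 z
  rw [Finset.mem_filter] at hx
  exact ⟨x, hx.1, hxz, hx.2⟩

/-- Kept equations: if `σ.tgt y ≠ some y` take `z = y` (the number of `x ∈ E e` with target `y` is odd
for `y ∈ E e`); otherwise some `z ≠ y` has target `y`, take this `z`: for `z ∈ E e` the number of the
variables of `E e` with target `y` is even if `y ∉ E e` (it counts `z`) and odd if `y ∈ E e` (it counts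
`z` and `y`), so there is one different from `z` and, in the second case, from `y`. -/
theorem moved_of_kept {σ : Subst n} {I : Finset (Fin m)} {V : Finset (Fin n)}
    (hI : ∀ e ∈ I, ∀ x, x ∉ V → scoef E σ e x = if x ∈ E e then 1 else 0) {y : Fin n}
    (hyV : y ∉ V) (hy : ¬ (σ.tgt y = some y ∧ ∀ z, z ≠ y → σ.tgt z ≠ some y)) :
    ∃ z, (z = y ∨ σ.tgt z = some y) ∧
      ∀ e ∈ I, z ∈ E e → ∃ x ∈ E e, x ≠ z ∧ σ.tgt x = some y := by
  by_cases hyy : σ.tgt y = some y
  · have h1 : ∃ z, z ≠ y ∧ σ.tgt z = some y := by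
      by_contra hcon
      push Not at hcon
      exact hy ⟨hyy, hcon⟩
    obtain ⟨z, hzy, hz⟩ := h1
    refine ⟨z, Or.inr hz, fun e he hze => ?_⟩
    by_cases hye : y ∈ E e
    · exact ⟨y, hye, fun h => hzy h.symm, hyy⟩
    · have h2 := hI e he y hyV
      rw [if_neg hye, E10_scoef] at h2
      exact E10_even ((ZMod.natCast_eq_zero_iff_even).1 h2) hze hz
  · refine ⟨y, Or.inl rfl, fun e he hye => ?_⟩
    have h2 := hI e he y hyV
    rw [if_pos hye, E10_scoef] at h2
    have h3 : Odd ((E e).filter fun x => σ.tgt x = some y).card := (ZMod.natCast_eq_one_iff_odd).1 h2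
    obtain ⟨x, hx⟩ := Finset.card_pos.1 h3.pos
    rw [Finset.mem_filter] at hx
    refine ⟨x, hx.1, ?_, hx.2⟩
    rintro rfl
    exact hyy hx.2

/-- Erased equations: for `z` with target `y` and `z ∈ E e` the number of the variables of `E e` with
target `y` is even and positive. -/
theorem moved_of_erased {σ : Subst n} {Zr : Finset (Fin m)} {V : Finset (Fin n)}
    (hZ : ∀ e ∈ Zr, ∀ x, x ∉ V → scoef E σ e x = 0) {y : Fin n}
    (hyV : y ∉ V) (hy : ∃ z, σ.tgt z = some y) :
    ∃ z, (z = y ∨ σ.tgt z = some y) ∧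
      ∀ e ∈ Zr, z ∈ E e → ∃ x ∈ E e, x ≠ z ∧ σ.tgt x = some y := by
  obtain ⟨z, hz⟩ := hy
  refine ⟨z, Or.inr hz, fun e he hze => ?_⟩
  have h2 := hZ e he y hyV
  rw [E10_scoef] at h2
  exact E10_even ((ZMod.natCast_eq_zero_iff_even).1 h2) hze hz

end Pool.Agent.Lib.MP_e81270_lc_SR
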