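import Pool.Agent.Lib.MP_e81270_lc_SR.Basic

/-!
Few equations contain many heavy variables.
-/

set_option autoImplicit false
set_option linter.unusedSectionVars false
set_option linter.unusedVariables false

namespace Pool.Agent.Lib.MP_e81270_lc_SR

open Finset
open scoped symmDiff

variable {n m : ℕ} {E : Fin m → Finset (Fin n)} {b : Fin m → ZMod 2}

private lemma e3_sub {a r D : ℕ} (hsmall : ∀ i, (E i).card < 20 * a)
    (hexp : ∀ R : Finset (Fin m), R.card ≤ r → 19 * a * R.card ≤ (uniq E R).card) (σ : Subst n)
    (J : Finset (Fin m)) (hJr : J.card ≤ r)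
    (hJ : ∀ j ∈ J, 2 * a ≤ ((E j).filter fun y => D < mult σ y).card) :
    a * D * J.card ≤ n := by
  classical
  obtain ⟨U, hU⟩ : ∃ U, U = uniq E J := ⟨_, rfl⟩
  -- every unique neighbour lies in exactly one member
  have hsplit : ∀ T : Finset (Fin n), T ⊆ U → ∑ j ∈ J, (E j ∩ T).card = T.card := by
    intro T hT
    have h1 : ∀ j ∈ J, (E j ∩ T).card = ∑ x ∈ T, if x ∈ E j then 1 else 0 := by
      intro j _
      rw [← card_filter]
      congr 1
      ext x
      rw [mem_inter, mem_filter, and_comm]
    rw [sum_congr rfl h1, sum_comm, card_eq_sum_ones]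
    refine sum_congr rfl (fun x hx => ?_)
    have h2 := hT hx
    rw [hU, uniq, mem_filter] at h2
    rw [← card_filter]
    exact h2.2
  have h1 : 19 * a * J.card ≤ ∑ j ∈ J, (E j ∩ U).card := by
    rw [hsplit U (subset_refl _), hU]
    exact hexp J hJr
  have h2 : ∑ j ∈ J, (E j ∩ (U.filter fun y => D < mult σ y)).card
      = (U.filter fun y => D < mult σ y).card := hsplit _ (filter_subset _ _)
  have h3 : ∀ j ∈ J, (E j ∩ U).card ≤ (E j ∩ (U.filter fun y => D < mult σ y)).card + 18 * a := by
    intro j hj
    have h4 := hJ j hj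
    have h5 := hsmall j
    have h6 : ((E j).filter fun y => D < mult σ y).card + (E j ∩ U).card
        ≤ (E j ∩ (U.filter fun y => D < mult σ y)).card + (E j).card := by
      have h7 := card_union_add_card_inter ((E j).filter fun y => D < mult σ y) (E j ∩ U)
      have h8 : ((E j).filter fun y => D < mult σ y) ∪ (E j ∩ U) ⊆ E j :=
        union_subset (filter_subset _ _) inter_subset_left
      have h9 : ((E j).filter fun y => D < mult σ y) ∩ (E j ∩ U)
          = E j ∩ (U.filter fun y => D < mult σ y) := by
        ext x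
        simp only [mem_inter, mem_filter]
        tauto
      have h10 := card_le_card h8
      rw [h9] at h7
      omega
    omega
  have h4 : 19 * a * J.card ≤ (U.filter fun y => D < mult σ y).card + 18 * a * J.card := by
    calc 19 * a * J.card ≤ ∑ j ∈ J, (E j ∩ U).card := h1
      _ ≤ ∑ j ∈ J, ((E j ∩ (U.filter fun y => D < mult σ y)).card + 18 * a) := sum_le_sum h3
      _ = _ := by
        rw [sum_add_distrib, h2, sum_const, smul_eq_mul]
        ring
  have h5 : a * J.card ≤ (U.filter fun y => D < mult σ y).card := by nlinarith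
  have h6 : D * (U.filter fun y => D < mult σ y).card ≤ n := by
    refine le_trans ?_ (sum_mult_le σ)
    calc D * (U.filter fun y => D < mult σ y).card
        = ∑ y ∈ U.filter (fun y => D < mult σ y), D := by rw [sum_const, smul_eq_mul, mul_comm]
      _ ≤ ∑ y ∈ U.filter (fun y => D < mult σ y), mult σ y :=
          sum_le_sum (fun y hy => (mem_filter.1 hy).2.le)
      _ ≤ ∑ y, mult σ y := sum_le_sum_of_subset (subset_univ _)
  calc a * D * J.card = D * (a * J.card) := by ring
    _ ≤ D * (U.filter fun y => D < mult σ y).card := Nat.mul_le_mul_left _ h5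
    _ ≤ n := h6

/-- Let `J` be a set of equations with at least `2 a` heavy variables each, `|J| ≤ r`. Counting the
heavy unique neighbours: `∑ j ∈ J, |E j ∩ uniq J| ≥ 19 a |J|` and
`|heavy ∩ E j ∩ uniq J| ≥ 2 a + |E j ∩ uniq J| - 20 a`, so there are at least `a |J|` heavy variables,
and `D * (number of heavy variables) ≤ ∑ mult ≤ n`: `a * D * |J| ≤ n`. If the whole set had more than
`r` elements, a subset of exactly `r` elements would contradict `hr`. -/
theorem card_heavy_le {a r D : ℕ} (hsmall : ∀ i, (E i).card < 20 * a)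
    (hexp : ∀ R : Finset (Fin m), R.card ≤ r → 19 * a * R.card ≤ (uniq E R).card) (σ : Subst n)
    (hr : n < a * D * r) :
    a * D * (univ.filter fun j => 2 * a ≤ ((E j).filter fun y => D < mult σ y).card).card ≤ n := by
  classical
  by_cases hc : (univ.filter fun j => 2 * a ≤ ((E j).filter fun y => D < mult σ y).card).card ≤ r
  · exact e3_sub hsmall hexp σ _ hc (fun j hj => (mem_filter.1 hj).2)
  · exfalso
    push Not at hc
    obtain ⟨J, hJ1, hJ2⟩ := exists_subset_card_eq hc.le
    have := e3_sub (D := D) hsmall hexp σ J hJ2.le (fun j hj => (mem_filter.1 (hJ1 hj)).2)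
    rw [hJ2] at this
    omega

end Pool.Agent.Lib.MP_e81270_lc_SR
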