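import Pool.Agent.Lib.MP_e81270_lc_SR.Basic
import Pool.Agent.Lib.MP_e81270_lc_SR.A5

/-!
A moved equation.
-/

set_option autoImplicit false
set_option linter.unusedSectionVars false
set_option linter.unusedVariables false

namespace Pool.Agent.Lib.MP_e81270_lc_SR

open Finset
open scoped symmDiff

variable {n m : ℕ} {E : Fin m → Finset (Fin n)} {b : Fin m → ZMod 2}

/-- If `R \ Cl = {j}` and `j` has few heavy variables, then at least `14 a` variables of `e` are
replaced by light variables of `j`: apply `hCl` to `{j}` (`uniq_singleton`): more than `16 a` variables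
`y ∈ E j ∩ S` outside `P ∪ cover E Cl`, more than `14 a` of them light; they are not in `O`, so
`scoef E σ e y = coef E R y = coef E {j} y + coef E (R ∩ Cl) y = 1` and some `z ∈ E e` has
`σ.tgt z = some y`; different `y` have different `z`. -/
theorem rigid_of_rest {S P O : Finset (Fin n)} {Cl R : Finset (Fin m)} {σ : Subst n}
    {e j : Fin m} {a r D : ℕ} (hO : ∀ x ∈ S, x ∈ O → x ∈ P)
    (hCl : ∀ R : Finset (Fin m), R.Nonempty → Disjoint R Cl → R.card + Cl.card ≤ r →
        16 * a * R.card < ((uniq E R ∩ S) \ (P ∪ cover E Cl)).card)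
    (h1 : 1 + Cl.card ≤ r) (hcoef : ∀ x, x ∉ O → coef E R x = scoef E σ e x)
    (hR : R \ Cl = {j}) (hj : ((E j).filter fun y => D < mult σ y).card < 2 * a) :
    14 * a ≤ ((E e).filter fun x => ∃ y ∈ E j, σ.tgt x = some y ∧ mult σ y ≤ D).card := by
  have hjR : j ∈ R \ Cl := by rw [hR]; exact Finset.mem_singleton_self j
  rw [Finset.mem_sdiff] at hjR
  have h2 := hCl {j} (Finset.singleton_nonempty j) (Finset.disjoint_singleton_left.2 hjR.2)
    (by rw [Finset.card_singleton]; exact h1)
  rw [Finset.card_singleton, mul_one, uniq_singleton] at h2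
  set Y : Finset (Fin n) := (E j ∩ S) \ (P ∪ cover E Cl) with hY
  have h3 : Y.card ≤ (Y.filter fun y => mult σ y ≤ D).card
      + ((E j).filter fun y => D < mult σ y).card := by
    have h4 : Y ⊆ (Y.filter fun y => mult σ y ≤ D) ∪ ((E j).filter fun y => D < mult σ y) := by
      intro y hy
      rw [Finset.mem_union]
      by_cases hm : mult σ y ≤ D
      · exact Or.inl (Finset.mem_filter.2 ⟨hy, hm⟩)
      · refine Or.inr (Finset.mem_filter.2 ⟨?_, not_le.1 hm⟩)
        rw [hY, Finset.mem_sdiff, Finset.mem_inter] at hy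
        exact hy.1.1
    exact (Finset.card_le_card h4).trans (Finset.card_union_le _ _)
  have h5 : 14 * a ≤ (Y.filter fun y => mult σ y ≤ D).card := by omega
  refine h5.trans ?_
  have h6 : ∀ y ∈ Y.filter (fun y => mult σ y ≤ D), ∃ z ∈ E e, σ.tgt z = some y := by
    intro y hy
    rw [Finset.mem_filter, hY, Finset.mem_sdiff, Finset.mem_inter, Finset.mem_union] at hy
    obtain ⟨⟨⟨hyE, hyS⟩, hyPC⟩, -⟩ := hy
    have hyO : y ∉ O := fun h => hyPC (Or.inl (hO y hyS h))
    have hyC : y ∉ cover E (R ∩ Cl) := by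
      intro h
      unfold cover at h
      rw [Finset.mem_biUnion] at h
      obtain ⟨i, hi, hyi⟩ := h
      rw [Finset.mem_inter] at hi
      exact hyPC (Or.inr (Finset.mem_biUnion.2 ⟨i, hi.2, hyi⟩))
    have h7 : R = {j} ∪ (R ∩ Cl) := by
      rw [← hR]
      exact (Finset.sdiff_union_inter R Cl).symm
    have h8 : coef E R y = 1 := by
      rw [h7, coef_union, coef_singleton, if_pos hyE, coef_eq_zero_of_notMem_cover hyC, add_zero]
      rw [Finset.disjoint_singleton_left, Finset.mem_inter]
      exact fun h => hjR.2 h.2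
    have h9 : scoef E σ e y = 1 := by rw [← hcoef y hyO, h8]
    by_contra hcon
    have h10 : y ∉ targets E σ e := by
      intro h
      unfold targets at h
      exact hcon (Finset.mem_filter.1 h).2
    rw [scoef_eq_zero h10] at h9
    exact zero_ne_one h9
  choose! g hg hg' using h6
  refine Finset.card_le_card_of_injOn g ?_ ?_
  · intro y hy
    have hy' := Finset.mem_filter.1 (Finset.mem_coe.1 hy)
    refine Finset.mem_coe.2 (Finset.mem_filter.2 ⟨hg y hy, y, ?_, hg' y hy, hy'.2⟩)
    have := hy'.1
    rw [hY, Finset.mem_sdiff, Finset.mem_inter] at this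
    exact this.1.1
  · intro y hy y' hy' hyy
    have h11 := hg' y hy
    have h12 := hg' y' hy'
    rw [hyy, h12] at h11
    exact (Option.some.inj h11).symm

end Pool.Agent.Lib.MP_e81270_lc_SR
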