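import Pool.Agent.Lib.MP_e81270_lc_SR.Basic

/-!
Coefficients off the closure.
-/

set_option autoImplicit false
set_option linter.unusedSectionVars false
set_option linter.unusedVariables false

namespace Pool.Agent.Lib.MP_e81270_lc_SR

open Finset
open scoped symmDiff

variable {n m : ℕ} {E : Fin m → Finset (Fin n)} {b : Fin m → ZMod 2}

/-- `coef E R x = coef E (R \ (Cl ∪ Jh)) x + coef E (R ∩ (Cl ∪ Jh)) x` and the last term is `0`. -/
theorem scoef_eq_rest {O : Finset (Fin n)} {Cl Jh R : Finset (Fin m)} {σ : Subst n} {e : Fin m}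
    {x : Fin n} (hcoef : ∀ x, x ∉ O → coef E R x = scoef E σ e x) (hx : x ∉ O)
    (hx1 : x ∉ cover E Cl) (hx2 : x ∉ cover E Jh) :
    scoef E σ e x = coef E (R \ (Cl ∪ Jh)) x := by
  have h1 : coef E (R ∩ (Cl ∪ Jh)) x = 0 := by
    refine coef_eq_zero_of_notMem_cover ?_
    unfold cover at hx1 hx2 ⊢
    rw [Finset.mem_biUnion] at hx1 hx2 ⊢
    rintro ⟨i, hi, hxi⟩
    rw [Finset.mem_inter, Finset.mem_union] at hi
    rcases hi.2 with h | h
    · exact hx1 ⟨i, h, hxi⟩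
    · exact hx2 ⟨i, h, hxi⟩
  have h2 : Disjoint (R \ (Cl ∪ Jh)) (R ∩ (Cl ∪ Jh)) :=
    Finset.disjoint_sdiff_inter R (Cl ∪ Jh)
  have h3 : (R \ (Cl ∪ Jh)) ∪ (R ∩ (Cl ∪ Jh)) = R := Finset.sdiff_union_inter R (Cl ∪ Jh)
  rw [← hcoef x hx, ← add_zero (coef E (R \ (Cl ∪ Jh)) x), ← h1, ← coef_union h2, h3]

end Pool.Agent.Lib.MP_e81270_lc_SR
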