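import Pool.Agent.Lib.MP_e81270_lc_SR.Basic

/-!
Counting the preimages of a variable by means of the codegrees.
-/

set_option autoImplicit false
set_option linter.unusedSectionVars false
set_option linter.unusedVariables false

namespace Pool.Agent.Lib.MP_e81270_lc_SR

open Finset
open scoped symmDiff

variable {n m : ℕ} {E : Fin m → Finset (Fin n)} {b : Fin m → ZMod 2}

/-- Map `e` (in `K`, with `z ∈ E e`) to a variable `x ∈ E e`, `x ≠ z`, replaced by `y`; every `x` is used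
by at most two `e` (they contain both `z` and `x`). -/
theorem card_le_two_mul_mult
    (hc : ∀ x y : Fin n, x ≠ y → (univ.filter fun i => x ∈ E i ∧ y ∈ E i).card ≤ 2) (σ : Subst n)
    (K : Finset (Fin m)) (z y : Fin n)
    (h : ∀ e ∈ K, z ∈ E e → ∃ x ∈ E e, x ≠ z ∧ σ.tgt x = some y) :
    (K.filter fun e => z ∈ E e).card ≤ 2 * mult σ y := by
  classical
  have h' : ∀ e : Fin m, ∃ x : Fin n, e ∈ K → z ∈ E e → x ∈ E e ∧ x ≠ z ∧ σ.tgt x = some y := by
    intro e
    by_cases he : e ∈ K ∧ z ∈ E e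
    · obtain ⟨x, hx1, hx2, hx3⟩ := h e he.1 he.2
      exact ⟨x, fun _ _ => ⟨hx1, hx2, hx3⟩⟩
    · exact ⟨z, fun h1 h2 => absurd ⟨h1, h2⟩ he⟩
  choose f hf using h'
  have h1 : (K.filter fun e => z ∈ E e).card ≤ 2 * ((K.filter fun e => z ∈ E e).image f).card := by
    refine Finset.card_le_mul_card_image _ _ ?_
    intro x hx
    obtain ⟨e, he, rfl⟩ := Finset.mem_image.1 hx
    obtain ⟨he1, he2⟩ := Finset.mem_filter.1 he
    obtain ⟨hx1, hx2, hx3⟩ := hf e he1 he2
    refine le_trans (Finset.card_le_card ?_) (hc z (f e) (Ne.symm hx2))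
    intro e' he'
    obtain ⟨he'1, he'2⟩ := Finset.mem_filter.1 he'
    obtain ⟨he'3, he'4⟩ := Finset.mem_filter.1 he'1
    refine Finset.mem_filter.2 ⟨Finset.mem_univ _, he'4, ?_⟩
    rw [← he'2]
    exact (hf e' he'3 he'4).1
  refine h1.trans (Nat.mul_le_mul_left 2 ?_)
  unfold mult
  refine Finset.card_le_card ?_
  intro x hx
  obtain ⟨e, he, rfl⟩ := Finset.mem_image.1 hx
  obtain ⟨he1, he2⟩ := Finset.mem_filter.1 he
  exact Finset.mem_filter.2 ⟨Finset.mem_univ _, (hf e he1 he2).2.2⟩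

end Pool.Agent.Lib.MP_e81270_lc_SR
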