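import Pool.Agent.Lib.MP_e81270_lc_SR.Basic
import Pool.Agent.Lib.MP_e81270_lc_SR.E7

/-!
The substitution is nearly trivial or nearly constant.
-/

set_option autoImplicit false
set_option linter.unusedSectionVars false
set_option linter.unusedVariables false

namespace Pool.Agent.Lib.MP_e81270_lc_SR

open Finset
open scoped symmDiff

variable {n m : ℕ} {E : Fin m → Finset (Fin n)} {b : Fin m → ZMod 2}

/-- The common count: `K` a set of equations, `A` a set of variables which occur in few equations
of `K`, the complement `X` small. -/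
private theorem count_aux {a r d D q : ℕ} (hg : Good E a r d D q) (ha : 0 < a) (hr : 1 ≤ r)
    (σ : Subst n) (K : Finset (Fin m)) (A X : Finset (Fin n)) (hAX : ∀ x, x ∈ A ∨ x ∈ X)
    (hX : 20 * X.card ≤ 11 * n)
    (hA : ∀ x ∈ A, (K.filter fun e => x ∈ E e).card ≤ 2 * mult σ x) :
    a * K.card ≤ 2 * n + a * q := by
  classical
  have hmix := hg.mix X hX
  -- the equations with few variables in `X`
  set K1 := K.filter fun e => (E e ∩ X).card < 18 * a with hK1
  set K2 := K.filter fun e => ¬ (E e ∩ X).card < 18 * a with hK2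
  have hcard : K1.card + K2.card = K.card := by
    rw [hK1, hK2]
    exact Finset.card_filter_add_card_filter_not _
  have h2 : K2.card ≤ q := by
    refine le_trans (Finset.card_le_card ?_) hmix
    intro e he
    rw [hK2, Finset.mem_filter] at he
    rw [Finset.mem_filter]
    exact ⟨Finset.mem_univ _, not_lt.1 he.2⟩
  have h1 : a * K1.card ≤ 2 * n := by
    have hlow : ∀ e ∈ K1, a ≤ (E e ∩ A).card := by
      intro e he
      rw [hK1, Finset.mem_filter] at he
      have h19 : 19 * a ≤ (E e).card := by
        have := hg.expand {e} (by rw [Finset.card_singleton]; exact hr)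
        rw [uniq_singleton, Finset.card_singleton, mul_one] at this
        exact this
      have hsub : E e ⊆ (E e ∩ A) ∪ (E e ∩ X) := by
        intro x hx
        rw [Finset.mem_union, Finset.mem_inter, Finset.mem_inter]
        rcases hAX x with h | h
        · exact Or.inl ⟨hx, h⟩
        · exact Or.inr ⟨hx, h⟩
      have := (Finset.card_le_card hsub).trans (Finset.card_union_le _ _)
      have := he.2
      omega
    calc a * K1.card = ∑ e ∈ K1, a := by rw [Finset.sum_const, smul_eq_mul, mul_comm]
      _ ≤ ∑ e ∈ K1, (E e ∩ A).card := Finset.sum_le_sum hlow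
      _ ≤ ∑ e ∈ K, (E e ∩ A).card :=
          Finset.sum_le_sum_of_subset (Finset.filter_subset _ _)
      _ = ∑ e ∈ K, ∑ x ∈ A, (if x ∈ E e then 1 else 0) := by
          refine Finset.sum_congr rfl fun e _ => ?_
          rw [Finset.inter_comm, ← Finset.filter_mem_eq_inter, Finset.card_filter]
      _ = ∑ x ∈ A, ∑ e ∈ K, (if x ∈ E e then 1 else 0) := Finset.sum_comm
      _ = ∑ x ∈ A, (K.filter fun e => x ∈ E e).card := by
          refine Finset.sum_congr rfl fun x _ => ?_
          rw [Finset.card_filter]
      _ ≤ ∑ x ∈ A, 2 * mult σ x := Finset.sum_le_sum hA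
      _ ≤ ∑ x, 2 * mult σ x :=
          Finset.sum_le_sum_of_subset (Finset.subset_univ _)
      _ = 2 * ∑ x, mult σ x := by rw [Finset.mul_sum]
      _ ≤ 2 * n := Nat.mul_le_mul_left _ (sum_mult_le σ)
  calc a * K.card = a * K1.card + a * K2.card := by rw [← hcard, mul_add]
    _ ≤ 2 * n + a * q := Nat.add_le_add h1 (Nat.mul_le_mul_left _ h2)

/-- Either few equations of `Zr` (those erased by the substitution) or few of `I` (those kept).
PROOF. For `x ∉ V`: if `σ.tgt x = some x` then every `e ∈ Zr` with `x ∈ E e` contains another variable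
with target `x` (the number of `z ∈ E e` with target `x` is even and positive), so
`#{e ∈ Zr, x ∈ E e} ≤ 2 * mult σ x` by `card_le_two_mul_mult`; if not, every `e ∈ I` with `x ∈ E e`
contains one (the number is odd, `x` itself is not one), so `#{e ∈ I, x ∈ E e} ≤ 2 * mult σ x`. Let `A`,
`A'` be the sets of the `x ∉ V` of the first and of the second kind; one of them has at most `n / 2`
elements. Say `A'`. Then `X = A' ∪ V` has `20 |X| ≤ 11 n`. An `e ∈ Zr` has `|E e ∩ A| ≥ a` (by double
counting `a * number ≤ ∑ x ∈ A, 2 * mult σ x ≤ 2 n`) or `|E e ∩ X| ≥ 18 a` (`|E e| ≥ 19 a` by `expand`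
for `{e}` and `hr`; at most `q` such `e` by `mix`). The other case is the same with `I`. -/
theorem dichotomy {a r d D q : ℕ} (hg : Good E a r d D q) (ha : 0 < a) (hr : 1 ≤ r)
    (σ : Subst n) {I Zr : Finset (Fin m)} {V : Finset (Fin n)}
    (hI : ∀ e ∈ I, ∀ x, x ∉ V → scoef E σ e x = if x ∈ E e then 1 else 0)
    (hZ : ∀ e ∈ Zr, ∀ x, x ∉ V → scoef E σ e x = 0) (hV : 20 * V.card ≤ n) :
    a * Zr.card ≤ 2 * n + a * q ∨ a * I.card ≤ 2 * n + a * q := by
  classical
  set A : Finset (Fin n) := univ.filter fun x => x ∉ V ∧ σ.tgt x = some x with hA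
  set A' : Finset (Fin n) := univ.filter fun x => x ∉ V ∧ σ.tgt x ≠ some x with hA'
  have hdisj : Disjoint A A' := by
    rw [Finset.disjoint_left]
    intro x hx hx'
    rw [hA, Finset.mem_filter] at hx
    rw [hA', Finset.mem_filter] at hx'
    exact hx'.2.2 hx.2.2
  have hsum : A.card + A'.card ≤ n := by
    rw [← Finset.card_union_of_disjoint hdisj]
    refine (Finset.card_le_univ _).trans ?_
    rw [Fintype.card_fin]
  have hcA : ∀ x ∈ A, (Zr.filter fun e => x ∈ E e).card ≤ 2 * mult σ x := by
    intro x hx
    rw [hA, Finset.mem_filter] at hx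
    refine card_le_two_mul_mult hg.codeg σ Zr x x ?_
    intro e he hxe
    by_contra hno
    push Not at hno
    have h0 := hZ e he x hx.2.1
    unfold scoef at h0
    rw [Finset.sum_eq_single x, if_pos hx.2.2] at h0
    · exact one_ne_zero h0
    · intro z hz hzx
      rw [if_neg (hno z hz hzx)]
    · intro h
      exact absurd hxe h
  have hcA' : ∀ x ∈ A', (I.filter fun e => x ∈ E e).card ≤ 2 * mult σ x := by
    intro x hx
    rw [hA', Finset.mem_filter] at hx
    refine card_le_two_mul_mult hg.codeg σ I x x ?_
    intro e he hxe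
    by_contra hno
    push Not at hno
    have h0 := hI e he x hx.2.1
    rw [if_pos hxe] at h0
    unfold scoef at h0
    rw [Finset.sum_eq_zero] at h0
    · exact zero_ne_one h0
    · intro z hz
      by_cases hzx : z = x
      · rw [if_neg]
        rw [hzx]
        exact hx.2.2
      · rw [if_neg (hno z hz hzx)]
  rcases le_total A'.card A.card with hle | hle
  · left
    refine count_aux hg ha hr σ Zr A (A' ∪ V) ?_ ?_ hcA
    · intro x
      rw [hA, Finset.mem_union, hA', Finset.mem_filter, Finset.mem_filter]
      by_cases h1 : x ∈ V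
      · exact Or.inr (Or.inr h1)
      · by_cases h2 : σ.tgt x = some x
        · exact Or.inl ⟨Finset.mem_univ _, h1, h2⟩
        · exact Or.inr (Or.inl ⟨Finset.mem_univ _, h1, h2⟩)
    · have := Finset.card_union_le A' V
      omega
  · right
    refine count_aux hg ha hr σ I A' (A ∪ V) ?_ ?_ hcA'
    · intro x
      rw [hA', Finset.mem_union, hA, Finset.mem_filter, Finset.mem_filter]
      by_cases h1 : x ∈ V
      · exact Or.inr (Or.inr h1)
      · by_cases h2 : σ.tgt x = some x
        · exact Or.inr (Or.inl ⟨Finset.mem_univ _, h1, h2⟩)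
        · exact Or.inl ⟨Finset.mem_univ _, h1, h2⟩
    · have := Finset.card_union_le A V
      omega

end Pool.Agent.Lib.MP_e81270_lc_SR
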