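import Pool.Agent.Lib.MP_e81270_lc_SR.Basic
import Pool.Agent.Lib.MP_e81270_lc_SR.E7

/-!
The variables which are moved are few.
-/

set_option autoImplicit false
set_option linter.unusedSectionVars false
set_option linter.unusedVariables false

namespace Pool.Agent.Lib.MP_e81270_lc_SR

open Finset
open scoped symmDiff

variable {n m : ℕ} {E : Fin m → Finset (Fin n)} {b : Fin m → ZMod 2}

/-- double counting of the incidences with the equations outside `K` -/
private theorem e9_double (E : Fin m → Finset (Fin n)) (K' : Finset (Fin m))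
    (B : Finset (Fin n)) :
    ∑ z ∈ B, (K'.filter fun e => z ∈ E e).card ≤ ∑ e ∈ K', (E e).card := by
  have h1 : ∑ z ∈ B, (K'.filter fun e => z ∈ E e).card
      = ∑ e ∈ K', (B.filter fun z => z ∈ E e).card := by
    simp only [Finset.card_filter]
    exact Finset.sum_comm
  rw [h1]
  refine Finset.sum_le_sum fun e _ => Finset.card_le_card ?_
  intro z hz
  exact (Finset.mem_filter.1 hz).2

/-- `K` is the set of the equations of the dominant kind, at most `qb` equations are not in `K`.
PROOF. Call `z` bad if `d < 2 * #{e ∉ K, z ∈ E e}`: `d * #bad ≤ 2 * ∑_{e ∉ K} |E e| ≤ 40 * a * qb`. The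
`y ∈ Y` whose `z` is bad are at most `2 * #bad` (`y = z` or `σ.tgt z = some y`). If `z` is not bad then
`d ≤ 2 * #{e ∈ K, z ∈ E e} ≤ 4 * mult σ y` by `deg` and `card_le_two_mul_mult`, and
`∑ y, mult σ y ≤ n` (`sum_mult_le`). -/
theorem card_moved_le {a r d D q qb : ℕ} (hg : Good E a r d D q) (σ : Subst n)
    {K : Finset (Fin m)} (hK : Kᶜ.card ≤ qb) (Y : Finset (Fin n))
    (hY : ∀ y ∈ Y, ∃ z, (z = y ∨ σ.tgt z = some y) ∧
      ∀ e ∈ K, z ∈ E e → ∃ x ∈ E e, x ≠ z ∧ σ.tgt x = some y) :
    d * Y.card ≤ 4 * n + 80 * a * qb := by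
  classical
  set bad : Finset (Fin n) := univ.filter fun z => d < 2 * (Kᶜ.filter fun e => z ∈ E e).card
    with hbad
  -- the bad z
  have hb1 : d * bad.card ≤ 40 * a * qb := by
    have h1 : d * bad.card ≤ ∑ z ∈ bad, 2 * (Kᶜ.filter fun e => z ∈ E e).card := by
      rw [mul_comm, ← smul_eq_mul, ← Finset.sum_const]
      refine Finset.sum_le_sum fun z hz => ?_
      rw [hbad, Finset.mem_filter] at hz
      exact hz.2.le
    have h2 : ∑ z ∈ bad, 2 * (Kᶜ.filter fun e => z ∈ E e).card
        = 2 * ∑ z ∈ bad, (Kᶜ.filter fun e => z ∈ E e).card := by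
      rw [Finset.mul_sum]
    have h3 := e9_double E Kᶜ bad
    have h4 : ∑ e ∈ Kᶜ, (E e).card ≤ 20 * a * Kᶜ.card := by
      calc ∑ e ∈ Kᶜ, (E e).card ≤ ∑ _e ∈ Kᶜ, 20 * a :=
            Finset.sum_le_sum fun e _ => (hg.small e).le
        _ = 20 * a * Kᶜ.card := by rw [Finset.sum_const, smul_eq_mul, mul_comm]
    have h5 : 20 * a * Kᶜ.card ≤ 20 * a * qb := Nat.mul_le_mul_left _ hK
    calc d * bad.card ≤ 2 * ∑ z ∈ bad, (Kᶜ.filter fun e => z ∈ E e).card := by
          rw [← h2]
          exact h1
      _ ≤ 2 * (20 * a * qb) := Nat.mul_le_mul_left _ (h3.trans (h4.trans h5))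
      _ = 40 * a * qb := by ring
  -- the choice of z
  choose! z hz1 hz2 using hY
  set Y1 : Finset (Fin n) := Y.filter fun y => z y ∈ bad with hY1
  set Y2 : Finset (Fin n) := Y.filter fun y => z y ∉ bad with hY2
  have hcard : Y1.card + Y2.card = Y.card := Finset.card_filter_add_card_filter_not _
  -- first part
  have hsub : Y1 ⊆ bad ∪ bad.biUnion fun w => (σ.tgt w).toFinset := by
    intro y hy
    rw [hY1, Finset.mem_filter] at hy
    rcases hz1 y hy.1 with h | h
    · rw [Finset.mem_union]
      left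
      rw [← h]
      exact hy.2
    · rw [Finset.mem_union]
      right
      refine Finset.mem_biUnion.2 ⟨z y, hy.2, ?_⟩
      rw [h]
      simp
  have hone : ∀ w : Fin n, (σ.tgt w).toFinset.card ≤ 1 := by
    intro w
    cases σ.tgt w with
    | none => simp
    | some x => simp
  have hY1c : Y1.card ≤ 2 * bad.card := by
    calc Y1.card ≤ (bad ∪ bad.biUnion fun w => (σ.tgt w).toFinset).card :=
          Finset.card_le_card hsub
      _ ≤ bad.card + (bad.biUnion fun w => (σ.tgt w).toFinset).card := Finset.card_union_le _ _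
      _ ≤ bad.card + ∑ w ∈ bad, (σ.tgt w).toFinset.card :=
          Nat.add_le_add_left Finset.card_biUnion_le _
      _ ≤ bad.card + ∑ _w ∈ bad, 1 :=
          Nat.add_le_add_left (Finset.sum_le_sum fun w _ => hone w) _
      _ = 2 * bad.card := by
          rw [Finset.sum_const, smul_eq_mul, mul_one]
          ring
  have hpart1 : d * Y1.card ≤ 80 * a * qb := by
    calc d * Y1.card ≤ d * (2 * bad.card) := Nat.mul_le_mul_left _ hY1c
      _ = 2 * (d * bad.card) := by ring
      _ ≤ 2 * (40 * a * qb) := Nat.mul_le_mul_left _ hb1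
      _ = 80 * a * qb := by ring
  -- second part
  have hpt : ∀ y ∈ Y2, d ≤ 4 * mult σ y := by
    intro y hy
    rw [hY2, Finset.mem_filter] at hy
    have h1 := hg.deg (z y)
    have h2 := card_le_two_mul_mult hg.codeg σ K (z y) y (hz2 y hy.1)
    have h3 : ¬ d < 2 * (Kᶜ.filter fun e => z y ∈ E e).card := by
      intro h
      exact hy.2 (by rw [hbad]; exact Finset.mem_filter.2 ⟨Finset.mem_univ _, h⟩)
    have h4 : (univ.filter fun i => z y ∈ E i).card
        = (K.filter fun e => z y ∈ E e).card + (Kᶜ.filter fun e => z y ∈ E e).card := by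
      have h5 : (univ.filter fun i => z y ∈ E i)
          = (K.filter fun e => z y ∈ E e) ∪ (Kᶜ.filter fun e => z y ∈ E e) := by
        ext e
        simp only [Finset.mem_filter, Finset.mem_univ, true_and, Finset.mem_union,
          Finset.mem_compl]
        tauto
      rw [h5, Finset.card_union_of_disjoint]
      rw [Finset.disjoint_left]
      intro e he he'
      rw [Finset.mem_filter] at he he'
      exact (Finset.mem_compl.1 he'.1) he.1
    omega
  have hpart2 : d * Y2.card ≤ 4 * n := by
    calc d * Y2.card = ∑ _y ∈ Y2, d := by rw [Finset.sum_const, smul_eq_mul, mul_comm]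
      _ ≤ ∑ y ∈ Y2, 4 * mult σ y := Finset.sum_le_sum hpt
      _ ≤ ∑ y, 4 * mult σ y :=
          Finset.sum_le_sum_of_subset_of_nonneg (Finset.subset_univ _) (fun _ _ _ => Nat.zero_le _)
      _ = 4 * ∑ y, mult σ y := by rw [Finset.mul_sum]
      _ ≤ 4 * n := Nat.mul_le_mul_left _ (sum_mult_le σ)
  calc d * Y.card = d * Y1.card + d * Y2.card := by rw [← hcard]; ring
    _ ≤ 80 * a * qb + 4 * n := Nat.add_le_add hpart1 hpart2
    _ = 4 * n + 80 * a * qb := by ring

end Pool.Agent.Lib.MP_e81270_lc_SR
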