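import Pool.Agent.Lib.MP_e81270_lc_SR.Basic

/-!
Sums of families of sets of equations.
-/

set_option autoImplicit false
set_option linter.unusedSectionVars false
set_option linter.unusedVariables false

namespace Pool.Agent.Lib.MP_e81270_lc_SR

open Finset
open scoped symmDiff

variable {n m : ℕ} {E : Fin m → Finset (Fin n)} {b : Fin m → ZMod 2}

/-- Induction on `G` with symmetric differences. -/
theorem exists_sum (E : Fin m → Finset (Fin n)) (b : Fin m → ZMod 2)
    (P : Fin m → Finset (Fin m)) (G : Finset (Fin m)) :
    ∃ Q ⊆ G.biUnion P, (∀ v, val E b Q v = ∑ e ∈ G, val E b (P e) v) ∧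
      ∀ x, coef E Q x = ∑ e ∈ G, coef E (P e) x := by
  classical
  induction G using Finset.induction_on with
  | empty => exact ⟨∅, by simp, by simp, by simp⟩
  | insert e G he ih =>
    obtain ⟨Q, hQ, h1, h2⟩ := ih
    refine ⟨P e ∆ Q, ?_, ?_, ?_⟩
    · rw [Finset.biUnion_insert]
      intro i hi
      rw [Finset.mem_symmDiff] at hi
      rw [Finset.mem_union]
      rcases hi with hi | hi
      · exact Or.inl hi.1
      · exact Or.inr (hQ hi.1)
    · intro v
      rw [val_symmDiff, h1, Finset.sum_insert he]
    · intro x
      rw [coef_symmDiff, h2, Finset.sum_insert he]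

end Pool.Agent.Lib.MP_e81270_lc_SR
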