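import Pool.Agent.Lib.MP_e81270_lc_SR.Basic
import Pool.Agent.Lib.MP_e81270_lc_SR.A2
import Pool.Agent.Lib.MP_e81270_lc_SR.F0

/-!
Small rank contradicts local consistency.
-/

set_option autoImplicit false
set_option linter.unusedSectionVars false
set_option linter.unusedVariables false

namespace Pool.Agent.Lib.MP_e81270_lc_SR

open Finset
open scoped symmDiff

variable {n m : ℕ} {E : Fin m → Finset (Fin n)} {b : Fin m → ZMod 2}

/-- Apply `certificate` with `κ = Fin n`, the set `Y \ O`, `c e = val E b (P e) v₀`,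
`M e y = coef E (P e) y` (for `w : Fin n → ZMod 2` look at `v x = v₀ x + w x` on `Y \ O` and `v x = v₀ x`
elsewhere, `val_add_val`), get `G`, and `Q` from `exists_sum`: `coef E Q = 0` off `O`, `val E b Q v₀ = 1`,
`Q.card ≤ r`. -/
theorem not_consistent_of_small_rank {O Y : Finset (Fin n)} {v₀ : Fin n → ZMod 2} {r : ℕ}
    (P : Fin m → Finset (Fin m)) (hne : ∀ v, Fixed O v₀ v → ∃ e, val E b (P e) v ≠ 0)
    (hY : ∀ x, x ∉ O → x ∉ Y → ∀ e, coef E (P e) x = 0)
    (hcard : ∀ G : Finset (Fin m), G.card ≤ Y.card + 1 → (G.biUnion P).card ≤ r) :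
    ¬ Consistent E b r O v₀ := by
  classical
  intro hcons
  obtain ⟨G, hG, hM, hc⟩ := certificate (Y \ O) (fun e => val E b (P e) v₀)
    (fun e y => coef E (P e) y) (by
      intro u
      obtain ⟨e, he⟩ := hne (fun x => if x ∈ Y \ O then v₀ x + u x else v₀ x) (by
        intro x hx
        have : x ∉ Y \ O := fun h => (Finset.mem_sdiff.1 h).2 hx
        simp only [this, if_false])
      refine ⟨e, ?_⟩
      convert he using 1
      have h1 := val_add_val (E := E) (b := b) (P e)
        (fun x => if x ∈ Y \ O then v₀ x + u x else v₀ x) v₀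
      have h2 : ∑ x, coef E (P e) x * ((if x ∈ Y \ O then v₀ x + u x else v₀ x) + v₀ x)
          = ∑ y ∈ Y \ O, coef E (P e) y * u y := by
        rw [← Finset.sum_subset (Finset.subset_univ (Y \ O))]
        · refine Finset.sum_congr rfl fun y hy => ?_
          rw [if_pos hy]
          have := add_self (v₀ y)
          linear_combination (coef E (P e) y) * this
        · intro x _ hx
          rw [if_neg hx, add_self, mul_zero]
      rw [h2] at h1
      have h3 := add_self (val E b (P e) v₀)
      linear_combination h3 - h1)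
  obtain ⟨Q, hQ, hval, hcoef⟩ := exists_sum E b P G
  have hQr : Q.card ≤ r := by
    refine (Finset.card_le_card hQ).trans (hcard G (hG.trans ?_))
    have := Finset.card_le_card (Finset.sdiff_subset : Y \ O ⊆ Y)
    omega
  have h1 := hcons Q hQr (by
    intro x hx
    rw [hcoef]
    by_cases hxY : x ∈ Y
    · exact hM x (Finset.mem_sdiff.2 ⟨hxY, hx⟩)
    · exact Finset.sum_eq_zero fun e _ => hY x hx hxY e)
  rw [hval, hc] at h1
  exact one_ne_zero h1

end Pool.Agent.Lib.MP_e81270_lc_SR
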