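import Pool.Agent.Lib.MP_e81270_lc_SR.Basic
import Pool.Agent.Lib.MP_e81270_lc_SR.A2
import Pool.Agent.Lib.MP_e81270_lc_SR.F0

/-!
Small rank contradicts local consistency, also together with small sums of equations.
-/

set_option autoImplicit false
set_option linter.unusedSectionVars false
set_option linter.unusedVariables false

namespace Pool.Agent.Lib.MP_e81270_lc_SR

open Finset
open scoped symmDiff

variable {n m : ℕ} {E : Fin m → Finset (Fin n)} {b : Fin m → ZMod 2}

/-- a small set of equations with variables in `Z` -/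
private def SmallF (E : Fin m → Finset (Fin n)) (r : ℕ) (Z : Finset (Fin n))
    (R : Finset (Fin m)) : Prop :=
  R.card ≤ r ∧ ∀ x, x ∉ Z → coef E R x = 0

private lemma smallF_symmDiff {S Z : Finset (Fin n)} {r t : ℕ} (ht : 0 < t)
    (hexp : Expands E S r t) (hZ : 2 * (Z ∩ S).card ≤ t * r) {R R' : Finset (Fin m)}
    (h : SmallF E r Z R) (h' : SmallF E r Z R') : SmallF E r Z (R ∆ R') := by
  have h1 := card_le_of_expands hexp h.1 h.2
  have h2 := card_le_of_expands hexp h'.1 h'.2
  have h3 : R ∆ R' ⊆ R ∪ R' := by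
    intro i hi
    rw [Finset.mem_symmDiff] at hi
    rw [Finset.mem_union]
    rcases hi with hi | hi
    · exact Or.inl hi.1
    · exact Or.inr hi.1
  have h4 := (Finset.card_le_card h3).trans (Finset.card_union_le _ _)
  refine ⟨?_, fun x hx => by rw [coef_symmDiff, h.2 x hx, h'.2 x hx, add_zero]⟩
  have h5 : t * (R ∆ R').card ≤ t * r := by
    calc t * (R ∆ R').card ≤ t * (R.card + R'.card) := Nat.mul_le_mul_left _ h4
      _ = t * R.card + t * R'.card := by ring
      _ ≤ (Z ∩ S).card + (Z ∩ S).card := Nat.add_le_add h1 h2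
      _ = 2 * (Z ∩ S).card := by ring
      _ ≤ t * r := hZ
  exact Nat.le_of_mul_le_mul_left h5 ht

/-- iterated symmetric differences -/
private lemma exists_iteratedF {S Z : Finset (Fin n)} {r t : ℕ} (ht : 0 < t)
    (hexp : Expands E S r t) (hZ : 2 * (Z ∩ S).card ≤ t * r) (G : Finset (Finset (Fin m)))
    (hG : ∀ R ∈ G, SmallF E r Z R) :
    ∃ R', SmallF E r Z R' ∧ (∀ v, val E b R' v = ∑ R ∈ G, val E b R v) ∧
      ∀ x, coef E R' x = ∑ R ∈ G, coef E R x := by
  classical
  induction G using Finset.induction_on with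
  | empty => exact ⟨∅, ⟨by simp, fun x _ => coef_empty x⟩, fun v => by simp, fun x => by simp⟩
  | @insert A G hA ih =>
    obtain ⟨R', hs, hv, hc⟩ := ih (fun R hR => hG R (Finset.mem_insert_of_mem hR))
    refine ⟨A ∆ R', smallF_symmDiff ht hexp hZ (hG A (Finset.mem_insert_self _ _)) hs,
      fun v => ?_, fun x => ?_⟩
    · rw [val_symmDiff, Finset.sum_insert hA, hv]
    · rw [coef_symmDiff, Finset.sum_insert hA, hc]

/-- Every assignment which agrees with `v₀` on `O` violates one of the sums `P e` or is not locally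
consistent on `Z`; then `v₀` is not locally consistent on `O`. -/
theorem not_consistent_of_small_rank' {S O Y Z : Finset (Fin n)} {v₀ : Fin n → ZMod 2} {r t : ℕ}
    (ht : 0 < t) (hexp : Expands E S r t) (hZ : Z ⊆ O ∪ Y) (hZS : 4 * (Z ∩ S).card ≤ t * r)
    (P : Fin m → Finset (Fin m))
    (hne : ∀ v, Fixed O v₀ v → (∃ e, val E b (P e) v ≠ 0) ∨ ¬ Consistent E b r Z v)
    (hY : ∀ x, x ∉ O → x ∉ Y → ∀ e, coef E (P e) x = 0)
    (hcard : ∀ G : Finset (Fin m), G.card ≤ Y.card + 1 → 4 * (G.biUnion P).card ≤ 3 * r) :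
    ¬ Consistent E b r O v₀ := by
  classical
  intro hcons
  -- the system
  let c : Fin m ⊕ Finset (Fin m) → ZMod 2 := fun o =>
    o.elim (fun e => val E b (P e) v₀) (fun R => if SmallF E r Z R then val E b R v₀ else 0)
  let M : Fin m ⊕ Finset (Fin m) → Fin n → ZMod 2 := fun o y =>
    o.elim (fun e => coef E (P e) y) (fun R => if SmallF E r Z R then coef E R y else 0)
  have hval : ∀ (u : Fin n → ZMod 2) (f : Fin n → ZMod 2),
      ∑ x, f x * ((if x ∈ Y \ O then v₀ x + u x else v₀ x) + v₀ x) =
        ∑ y ∈ Y \ O, f y * u y := by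
    intro u f
    rw [← Finset.sum_subset (Finset.subset_univ (Y \ O))]
    · refine Finset.sum_congr rfl fun y hy => ?_
      rw [if_pos hy]
      have := add_self (v₀ y)
      linear_combination f y * this
    · intro x _ hx
      rw [if_neg hx, add_self, mul_zero]
  have hsys : ∀ u : Fin n → ZMod 2, ∃ o, c o + ∑ y ∈ Y \ O, M o y * u y ≠ 0 := by
    intro u
    set v : Fin n → ZMod 2 := fun x => if x ∈ Y \ O then v₀ x + u x else v₀ x with hv
    have hF : Fixed O v₀ v := by
      intro x hx
      have hxY : x ∉ Y \ O := fun h => (Finset.mem_sdiff.1 h).2 hx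
      simp only [hv, if_neg hxY]
    have hR : ∀ R : Finset (Fin m), val E b R v₀ + ∑ y ∈ Y \ O, coef E R y * u y
        = val E b R v := by
      intro R
      have h1 := val_add_val (E := E) (b := b) R v v₀
      rw [hval u (coef E R)] at h1
      have h3 := add_self (val E b R v₀)
      linear_combination h3 - h1
    rcases hne v hF with ⟨e, he⟩ | hnc
    · refine ⟨Sum.inl e, ?_⟩
      show val E b (P e) v₀ + ∑ y ∈ Y \ O, coef E (P e) y * u y ≠ 0
      rw [hR]
      exact he
    · unfold Consistent at hnc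
      push Not at hnc
      obtain ⟨R, hR1, hR2, hR3⟩ := hnc
      have hsm : SmallF E r Z R := ⟨hR1, hR2⟩
      refine ⟨Sum.inr R, ?_⟩
      show (if SmallF E r Z R then val E b R v₀ else 0) +
        ∑ y ∈ Y \ O, (if SmallF E r Z R then coef E R y else 0) * u y ≠ 0
      simp only [if_pos hsm]
      rw [hR]
      exact hR3
  obtain ⟨G, hG, hG1, hG2⟩ := certificate (Y \ O) c M hsys
  -- the two parts of the certificate
  set G₁ : Finset (Fin m) := univ.filter fun e => Sum.inl e ∈ G with hG₁
  set G₂ : Finset (Finset (Fin m)) := univ.filter fun R => Sum.inr R ∈ G ∧ SmallF E r Z R with hG₂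
  have hG₁card : G₁.card ≤ G.card := by
    have h1 : (G₁.image (Sum.inl : Fin m → Fin m ⊕ Finset (Fin m))).card = G₁.card :=
      Finset.card_image_of_injective _ Sum.inl_injective
    rw [← h1]
    refine Finset.card_le_card ?_
    intro o ho
    obtain ⟨e, he, rfl⟩ := Finset.mem_image.1 ho
    exact (Finset.mem_filter.1 he).2
  have hsum : ∀ (f : Fin m → ZMod 2) (g : Finset (Fin m) → ZMod 2),
      ∑ o ∈ G, o.elim f (fun R => if SmallF E r Z R then g R else 0) =
        ∑ e ∈ G₁, f e + ∑ R ∈ G₂, g R := by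
    intro f g
    have h1 : ∑ o ∈ G, o.elim f (fun R => if SmallF E r Z R then g R else 0) =
        ∑ o : Fin m ⊕ Finset (Fin m), if o ∈ G then
          o.elim f (fun R => if SmallF E r Z R then g R else 0) else 0 := by
      rw [Finset.sum_ite_mem, Finset.univ_inter]
    rw [h1, Fintype.sum_sum_type]
    congr 1
    · rw [hG₁, Finset.sum_filter]
      rfl
    · rw [hG₂, Finset.sum_filter]
      refine Finset.sum_congr rfl fun R _ => ?_
      by_cases h2 : Sum.inr R ∈ G
      · by_cases h3 : SmallF E r Z R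
        · simp [h2, h3]
        · simp [h2, h3]
      · simp [h2]
  obtain ⟨R', hs, hv, hc⟩ := exists_iteratedF (b := b) ht hexp (Z := Z) (by omega) G₂
    (fun R hR => (Finset.mem_filter.1 hR).2.2)
  obtain ⟨Q, hQ, hQval, hQcoef⟩ := exists_sum E b P G₁
  -- the sum of the two parts
  have hcard1 : 4 * Q.card ≤ 3 * r := by
    have h1 := Finset.card_le_card hQ
    have h2 : G₁.card ≤ Y.card + 1 := by
      have := Finset.card_le_card (Finset.sdiff_subset : Y \ O ⊆ Y)
      omega
    have h3 := hcard G₁ h2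
    omega
  have hcard2 : 4 * R'.card ≤ r := by
    have h1 := card_le_of_expands hexp hs.1 hs.2
    refine Nat.le_of_mul_le_mul_left (c := t) ?_ ht
    calc t * (4 * R'.card) = 4 * (t * R'.card) := by ring
      _ ≤ 4 * (Z ∩ S).card := Nat.mul_le_mul_left _ h1
      _ ≤ t * r := hZS
  have hcard3 : (Q ∆ R').card ≤ r := by
    have h1 : Q ∆ R' ⊆ Q ∪ R' := by
      intro i hi
      rw [Finset.mem_symmDiff] at hi
      rw [Finset.mem_union]
      rcases hi with hi | hi
      · exact Or.inl hi.1
      · exact Or.inr hi.1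
    have h2 := (Finset.card_le_card h1).trans (Finset.card_union_le _ _)
    omega
  have hzero := hcons (Q ∆ R') hcard3 (by
    intro x hx
    rw [coef_symmDiff, hQcoef, hc]
    by_cases hxY : x ∈ Y
    · have h1 := hG1 x (Finset.mem_sdiff.2 ⟨hxY, hx⟩)
      rw [← h1]
      exact (hsum (fun e => coef E (P e) x) (fun R => coef E R x)).symm
    · have hxZ : x ∉ Z := fun h => by
        rcases Finset.mem_union.1 (hZ h) with h | h
        · exact hx h
        · exact hxY h
      have h1 : ∑ e ∈ G₁, coef E (P e) x = 0 := Finset.sum_eq_zero fun e _ => hY x hx hxY e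
      have h2 : ∑ R ∈ G₂, coef E R x = 0 :=
        Finset.sum_eq_zero fun R hR => (Finset.mem_filter.1 hR).2.2.2 x hxZ
      rw [h1, h2, add_zero])
  have hone : val E b (Q ∆ R') v₀ = 1 := by
    rw [val_symmDiff, hQval, hv, ← hG2]
    exact (hsum (fun e => val E b (P e) v₀) (fun R => val E b R v₀)).symm
  rw [hzero] at hone
  exact zero_ne_one hone

end Pool.Agent.Lib.MP_e81270_lc_SR
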