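import Pool.Agent.Lib.MP_e81270_lc_SR.Basic

/-!
The hypotheses of the lower bound.
-/

set_option autoImplicit false
set_option linter.unusedSectionVars false
set_option linter.unusedVariables false

namespace Pool.Agent.Lib.MP_e81270_lc_SR

open Finset
open scoped symmDiff

variable {n m : ℕ} {E : Fin m → Finset (Fin n)} {b : Fin m → ZMod 2}

/-- The numerical relations between the parameters. -/
structure Params (n a r d D q w : ℕ) : Prop where
  a_pos : 0 < a
  w_a : 20 * a ≤ w
  w_r : 84 * w ≤ r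
  w_n : 880 * w ≤ n
  D_lo : 1600 ≤ D
  D_r : n < a * D * r
  q_n : a * q ≤ n
  d_r : 2592 * n ≤ d * r
  D_n : 164 * n ≤ D * r

/-- The system, the free variables `S`, the values `ρ` of the other variables, the clauses `W`. -/
structure Setup (E : Fin m → Finset (Fin n)) (b : Fin m → ZMod 2) (a r d D q w : ℕ)
    (S : Finset (Fin n)) (ρ : Fin n → ZMod 2) (W : Finset (Clause n)) : Prop where
  good : Good E a r d D q
  params : Params n a r d D q w
  unsat : ∀ v : Fin n → ZMod 2, ∃ i, ∑ x ∈ E i, v x ≠ b i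
  free : ∀ i, (E i \ S).card ≤ a
  few : 80 * Sᶜ.card ≤ n
  narrow : ∀ B ∈ W, Dead Sᶜ ρ B ∨ (vars B ∩ S).card ≤ w

/-- The invariant of the derived clauses. -/
def Inv (E : Fin m → Finset (Fin n)) (b : Fin m → ZMod 2) (r w : ℕ) (S : Finset (Fin n))
    (ρ : Fin n → ZMod 2) (B : Clause n) : Prop :=
  Dead Sᶜ ρ B ∨ ((vars B ∩ S).card ≤ w ∧ Loc E b r Sᶜ ρ B)

end Pool.Agent.Lib.MP_e81270_lc_SR
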