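import Pool.Agent.Lib.MP_e81270_lc_SR.Basic
import Pool.Agent.Lib.MP_e81270_lc_SR.Setup
import Pool.Agent.Lib.MP_e81270_lc_SR.A4
import Pool.Agent.Lib.MP_e81270_lc_SR.A5
import Pool.Agent.Lib.MP_e81270_lc_SR.D1
import Pool.Agent.Lib.MP_e81270_lc_SR.D2
import Pool.Agent.Lib.MP_e81270_lc_SR.E3
import Pool.Agent.Lib.MP_e81270_lc_SR.E5
import Pool.Agent.Lib.MP_e81270_lc_SR.E6
import Pool.Agent.Lib.MP_e81270_lc_SR.E8
import Pool.Agent.Lib.MP_e81270_lc_SR.E9
import Pool.Agent.Lib.MP_e81270_lc_SR.E10
import Pool.Agent.Lib.MP_e81270_lc_SR.F2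

/-!
The core of the proof: a substitution which moves everything is impossible.
-/

set_option autoImplicit false
set_option linter.unusedSectionVars false
set_option linter.unusedVariables false

namespace Pool.Agent.Lib.MP_e81270_lc_SR

open Finset
open scoped symmDiff

variable {n m : ℕ} {E : Fin m → Finset (Fin n)} {b : Fin m → ZMod 2}

private lemma f3_card_cover_le {a : ℕ} (hsmall : ∀ i, (E i).card < 20 * a) (R : Finset (Fin m)) :
    (cover E R).card ≤ 20 * a * R.card := by
  unfold cover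
  rw [mul_comm]
  exact Finset.card_biUnion_le_card_mul _ _ _ fun i _ => (hsmall i).le

/-- The last step, common to the two cases. -/
private lemma f3_final {a r d D q w : ℕ} {S O Z : Finset (Fin n)} {v₀ : Fin n → ZMod 2}
    (hsmall : ∀ i, (E i).card < 20 * a) (hp : Params n a r d D q w)
    (hexp : Expands E S r (16 * a + 2 * a)) (hw : (O ∩ S).card ≤ w)
    (hcons : Consistent E b r O v₀) {R : Fin m → Finset (Fin m)} {Cl Jh : Finset (Fin m)}
    (hCl : 2 * a * Cl.card ≤ w) (hJh : a * D * Jh.card ≤ n) (hone : ∀ e, (R e \ Cl).card ≤ 1)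
    {Y : Finset (Fin n)} (hY : d * Y.card ≤ 324 * n) (P : Fin m → Finset (Fin m))
    (hP : ∀ e, P e ⊆ R e ∪ {e}) (hZ : Z ⊆ O ∪ (Y ∪ cover E Cl ∪ cover E Jh))
    (hne : (Z ∩ S).card ≤ r → ∀ v, Fixed O v₀ v →
      (∃ e, val E b (P e) v ≠ 0) ∨ ¬ Consistent E b r Z v)
    (hzero : ∀ x, x ∉ O → x ∉ cover E Cl → x ∉ cover E Jh → x ∉ Y →
      ∀ e, coef E (P e) x = 0) : False := by
  have ha := hp.a_pos
  have hwa := hp.w_a
  have hwr := hp.w_r
  have hwn := hp.w_n
  have hD := hp.D_lo
  have hd : 0 < d := by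
    rcases Nat.eq_zero_or_pos d with h | h
    · exfalso
      have := hp.d_r
      rw [h, zero_mul] at this
      omega
    · exact h
  have h1 : 8 * Y.card ≤ r := by
    have h2 := hp.d_r
    refine Nat.le_of_mul_le_mul_left (c := d) ?_ hd
    calc d * (8 * Y.card) = 8 * (d * Y.card) := by ring
      _ ≤ 8 * (324 * n) := Nat.mul_le_mul_left _ hY
      _ = 2592 * n := by ring
      _ ≤ d * r := h2
  have h2 : (cover E Cl).card ≤ 10 * w := by
    refine (f3_card_cover_le hsmall Cl).trans ?_
    calc 20 * a * Cl.card = 10 * (2 * a * Cl.card) := by ring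
      _ ≤ 10 * w := Nat.mul_le_mul_left _ hCl
  have h3 : 41 * (cover E Jh).card ≤ 5 * r := by
    have h4 := hp.D_n
    refine Nat.le_of_mul_le_mul_left (c := D) ?_ (by omega)
    calc D * (41 * (cover E Jh).card) ≤ D * (41 * (20 * a * Jh.card)) :=
          Nat.mul_le_mul_left _ (Nat.mul_le_mul_left _ (f3_card_cover_le hsmall Jh))
      _ = 820 * (a * D * Jh.card) := by ring
      _ ≤ 820 * n := Nat.mul_le_mul_left _ hJh
      _ = 5 * (164 * n) := by ring
      _ ≤ 5 * (D * r) := Nat.mul_le_mul_left _ h4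
      _ = D * (5 * r) := by ring
  have h5 : 2 * Cl.card ≤ w := by
    refine le_trans ?_ hCl
    exact Nat.mul_le_mul_right _ (by omega)
  have h6' : (Y ∪ cover E Cl ∪ cover E Jh).card
      ≤ Y.card + (cover E Cl).card + (cover E Jh).card :=
    (Finset.card_union_le _ _).trans (Nat.add_le_add_right (Finset.card_union_le _ _) _)
  have hZS : (Z ∩ S).card ≤ w + (Y.card + (cover E Cl).card + (cover E Jh).card) := by
    have h8 : Z ∩ S ⊆ (O ∩ S) ∪ (Y ∪ cover E Cl ∪ cover E Jh) := by
      intro x hx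
      rw [Finset.mem_inter] at hx
      rcases Finset.mem_union.1 (hZ hx.1) with h | h
      · exact Finset.mem_union_left _ (Finset.mem_inter.2 ⟨h, hx.2⟩)
      · exact Finset.mem_union_right _ h
    exact (Finset.card_le_card h8).trans ((Finset.card_union_le _ _).trans (Nat.add_le_add hw h6'))
  have hZr : (Z ∩ S).card ≤ r := by omega
  have hZ4 : 4 * (Z ∩ S).card ≤ (16 * a + 2 * a) * r := by
    have h9 : 18 * r ≤ (16 * a + 2 * a) * r := Nat.mul_le_mul_right r (by omega)
    omega
  refine not_consistent_of_small_rank' (Y := Y ∪ cover E Cl ∪ cover E Jh) (by omega) hexp hZ hZ4 P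
    (hne hZr) ?_ ?_ hcons
  · intro x hxO hxY
    rw [Finset.mem_union, Finset.mem_union, not_or, not_or] at hxY
    exact hzero x hxO hxY.1.2 hxY.2 hxY.1.1
  · intro G hG
    have h6 : (Y ∪ cover E Cl ∪ cover E Jh).card
        ≤ Y.card + (cover E Cl).card + (cover E Jh).card :=
      (Finset.card_union_le _ _).trans (Nat.add_le_add_right (Finset.card_union_le _ _) _)
    have h7 : G.biUnion P ⊆ Cl ∪ (G.biUnion (fun e => R e \ Cl)) ∪ G := by
      intro i hi
      rw [Finset.mem_biUnion] at hi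
      obtain ⟨e, he, hie⟩ := hi
      have h8 := hP e hie
      rw [Finset.mem_union, Finset.mem_singleton] at h8
      rw [Finset.mem_union, Finset.mem_union, Finset.mem_biUnion]
      rcases h8 with h8 | h8
      · by_cases h9 : i ∈ Cl
        · exact Or.inl (Or.inl h9)
        · exact Or.inl (Or.inr ⟨e, he, Finset.mem_sdiff.2 ⟨h8, h9⟩⟩)
      · rw [h8]
        exact Or.inr he
    have h10 : (G.biUnion (fun e => R e \ Cl)).card ≤ G.card * 1 :=
      Finset.card_biUnion_le_card_mul _ _ _ fun e _ => hone e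
    have h11 : (G.biUnion P).card ≤ Cl.card + G.card * 1 + G.card := by
      refine (Finset.card_le_card h7).trans ?_
      refine (Finset.card_union_le _ _).trans (Nat.add_le_add_right ?_ _)
      exact (Finset.card_union_le _ _).trans (Nat.add_le_add_left h10 _)
    omega

/-- The variables `x` with a nontrivial equation `x = σ(x)`, and the variables which replace them. -/
def moved (σ : Subst n) : Finset (Fin n) :=
  univ.filter fun y => (σ.tgt y ≠ some y ∨ σ.off y ≠ 0) ∨ ∃ x, x ≠ y ∧ σ.tgt x = some y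

/-- PROOF. Choose for every `e` the set `R e` of `hrep`. `P₀ = O ∩ S`. Expansion in `S` by
`expands_of_good` (`18 a = 16 a + 2 a`). `Cl` from `exists_closure` (`s = 16 a`, `δ = 2 a`, so
`2 a |Cl| ≤ w` and `2 |Cl| ≤ r`); `|R e \ Cl| ≤ 1` by `card_sdiff_le_one`. Let `Jh` be the set of the
equations with at least `2 a` heavy variables (`a * D * |Jh| ≤ n` by `card_heavy_le`) and
`V = O ∪ cover E Cl ∪ cover E Jh`: `|V| ≤ |Sᶜ| + w + 20 a |Cl| + 20 a |Jh|`, so `20 |V| ≤ n`.
`rest e = R e \ (Cl ∪ Jh)` has at most one element. Let `Zr` be the set of the `e` with `rest e = ∅`,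
`I` that with `rest e = {e}`, `Gx` the others: for `e ∈ Gx`, `R e \ Cl = {j}` with `j ≠ e`, `j ∉ Jh`, so
`|Gx| ≤ q` by `rigid_of_rest` and `Good.rigid`. By `scoef_eq_rest` (and `coef_singleton`) the hypotheses
of `dichotomy` hold. FIRST CASE `a |Zr| ≤ 2 n + a q`: `K = I`, `qb = |Zr| + |Gx|`, `a * qb ≤ 4 n`.
`YI` = the `y ∉ V` with `¬ (σ.tgt y = some y ∧ ∀ z ≠ y, σ.tgt z ≠ some y)`; by `moved_of_kept` and
`card_moved_le` `d |YI| ≤ 324 n`. Use `not_consistent_of_small_rank` with `P e = R e ∆ {e}`,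
`Y = YI ∪ cover E Cl ∪ cover E Jh`: for `v` fixed on `O`, `val (P e) v = val {e} (σ.app v) + val {e} v
= ∑ x ∈ E e, (σ.app v x + v x)`, nonzero for some `e` by `Good.inj` and `hmove`; for `x ∉ O`, `x ∉ Y`:
`coef (P e) x = scoef E σ e x + (if x ∈ E e then 1 else 0) = 0` because `x` is the only variable with
target `x`. `P e ⊆ Cl ∪ Jh ∪ {e} ∪ rest e`, so the union over `G` has at most
`|Cl| + |Jh| + 2 |G| ≤ r` elements (`|Y| ≤ 324 n / d + 10 w + 20 n / D`). SECOND CASE
`a |I| ≤ 2 n + a q`: the same with `K = Zr`, `moved_of_erased`, `YZ` = the `y ∉ V` which are the target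
of some `z`, `P e = R e`, and `unsat` in place of `inj`. -/
theorem core {a r d D q w : ℕ} {S O : Finset (Fin n)} {v₀ : Fin n → ZMod 2}
    (hg : Good E a r d D q) (hp : Params n a r d D q w)
    (hun : ∀ v : Fin n → ZMod 2, ∃ i, ∑ x ∈ E i, v x ≠ b i)
    (hS : ∀ i, (E i \ S).card ≤ a) (hSc : 80 * Sᶜ.card ≤ n) (hO : Sᶜ ⊆ O)
    (hw : (O ∩ S).card ≤ w) (hcons : Consistent E b r O v₀) (σ : Subst n)
    (hmove : ((O ∪ moved σ) ∩ S).card ≤ r → ∀ v, Fixed O v₀ v → σ.app v = v →
      ¬ Consistent E b r (O ∪ moved σ) v)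
    (hrep : ∀ e, ∃ R : Finset (Fin m), 2 * R.card ≤ r ∧ (∀ x, x ∉ O → coef E R x = scoef E σ e x) ∧
      ∀ v, Fixed O v₀ v → val E b R v = val E b {e} (σ.app v)) : False := by
  choose R hR1 hR2 hR3 using hrep
  have ha := hp.a_pos
  have hwa := hp.w_a
  have hwr := hp.w_r
  have hwn := hp.w_n
  have hD := hp.D_lo
  have hqn := hp.q_n
  have hr1 : 1 ≤ r := by omega
  have hexp : Expands E S r (16 * a + 2 * a) := by
    have h := expands_of_good hg hS
    have h18 : 16 * a + 2 * a = 18 * a := by ring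
    rw [h18]
    exact h
  obtain ⟨Cl, hCl1, hCl2, hCl3⟩ := exists_closure hexp hw
  have hCl4 : 2 * Cl.card ≤ w := by
    refine le_trans ?_ hCl1
    exact Nat.mul_le_mul_right _ (by omega)
  have hOP : ∀ x ∈ S, x ∈ O → x ∈ O ∩ S := fun x hxS hxO => Finset.mem_inter.2 ⟨hxO, hxS⟩
  have hone : ∀ e, (R e \ Cl).card ≤ 1 := by
    intro e
    refine card_sdiff_le_one (σ := σ) (e := e) hOP hCl3 ?_ (hR2 e) ?_
    · have := hR1 e
      omega
    · have := hg.small e
      omega
  obtain ⟨Jh, hJhdef⟩ : ∃ Jh : Finset (Fin m), Jh = univ.filter fun j => 2 * a ≤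
      ((E j).filter fun y => D < mult σ y).card := ⟨_, rfl⟩
  have hJh : a * D * Jh.card ≤ n := by
    rw [hJhdef]
    exact card_heavy_le hg.small hg.expand σ hp.D_r
  have hJh2 : ∀ j, j ∉ Jh → ((E j).filter fun y => D < mult σ y).card < 2 * a := by
    intro j hj
    rw [hJhdef, Finset.mem_filter, not_and, not_le] at hj
    exact hj (Finset.mem_univ _)
  obtain ⟨V, hVdef⟩ : ∃ V : Finset (Fin n), V = O ∪ cover E Cl ∪ cover E Jh := ⟨_, rfl⟩
  have hVmem : ∀ x, x ∉ V ↔ (x ∉ O ∧ x ∉ cover E Cl) ∧ x ∉ cover E Jh := by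
    intro x
    rw [hVdef, Finset.mem_union, Finset.mem_union, not_or, not_or]
  have hVcard : 20 * V.card ≤ n := by
    have h1 : O.card ≤ Sᶜ.card + (O ∩ S).card := by
      have h2 : O ⊆ Sᶜ ∪ (O ∩ S) := by
        intro x hx
        rw [Finset.mem_union, Finset.mem_compl, Finset.mem_inter]
        by_cases hxS : x ∈ S
        · exact Or.inr ⟨hx, hxS⟩
        · exact Or.inl hxS
      exact (Finset.card_le_card h2).trans (Finset.card_union_le _ _)
    have h2 : (cover E Cl).card ≤ 10 * w := by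
      refine (f3_card_cover_le hg.small Cl).trans ?_
      calc 20 * a * Cl.card = 10 * (2 * a * Cl.card) := by ring
        _ ≤ 10 * w := Nat.mul_le_mul_left _ hCl1
    have h3 : 80 * (cover E Jh).card ≤ n := by
      refine Nat.le_of_mul_le_mul_left (c := 20) ?_ (by norm_num)
      calc 20 * (80 * (cover E Jh).card) ≤ 20 * (80 * (20 * a * Jh.card)) :=
            Nat.mul_le_mul_left _ (Nat.mul_le_mul_left _ (f3_card_cover_le hg.small Jh))
        _ = 20 * (a * 1600 * Jh.card) := by ring
        _ ≤ 20 * (a * D * Jh.card) :=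
            Nat.mul_le_mul_left _ (Nat.mul_le_mul_right _ (Nat.mul_le_mul_left _ hD))
        _ ≤ 20 * n := Nat.mul_le_mul_left _ hJh
    have h4 : V.card ≤ O.card + (cover E Cl).card + (cover E Jh).card := by
      rw [hVdef]
      exact (Finset.card_union_le _ _).trans (Nat.add_le_add_right (Finset.card_union_le _ _) _)
    omega
  obtain ⟨Zr, hZrdef⟩ : ∃ Zr : Finset (Fin m), Zr = univ.filter fun e => R e \ (Cl ∪ Jh) = ∅ :=
    ⟨_, rfl⟩
  obtain ⟨I, hIdef⟩ : ∃ I : Finset (Fin m), I = univ.filter fun e => R e \ (Cl ∪ Jh) = {e} :=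
    ⟨_, rfl⟩
  obtain ⟨Gx, hGxdef⟩ : ∃ Gx : Finset (Fin m), Gx = univ.filter fun e =>
      R e \ (Cl ∪ Jh) ≠ ∅ ∧ R e \ (Cl ∪ Jh) ≠ {e} := ⟨_, rfl⟩
  have hGx : Gx.card ≤ q := by
    refine le_trans (Finset.card_le_card ?_) (hg.rigid σ)
    intro e he
    rw [hGxdef, Finset.mem_filter] at he
    obtain ⟨-, he1, he2⟩ := he
    obtain ⟨j, hj⟩ := Finset.nonempty_iff_ne_empty.2 he1
    rw [Finset.mem_sdiff, Finset.mem_union, not_or] at hj
    have hj1 : j ∈ R e \ Cl := Finset.mem_sdiff.2 ⟨hj.1, hj.2.1⟩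
    have hsub : ∀ i ∈ R e \ Cl, i = j := fun i hi => Finset.card_le_one.1 (hone e) i hi j hj1
    have hRj : R e \ Cl = {j} := by
      ext i
      rw [Finset.mem_singleton]
      exact ⟨hsub i, fun h => h ▸ hj1⟩
    have hne : j ≠ e := by
      rintro rfl
      apply he2
      ext i
      rw [Finset.mem_singleton, Finset.mem_sdiff, Finset.mem_union, not_or]
      constructor
      · rintro ⟨h1, h2, -⟩
        exact hsub i (Finset.mem_sdiff.2 ⟨h1, h2⟩)
      · rintro rfl
        exact ⟨hj.1, hj.2⟩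
    rw [Finset.mem_filter]
    refine ⟨Finset.mem_univ _, j, hne, ?_⟩
    exact rigid_of_rest hOP hCl3 (by omega) (hR2 e) hRj (hJh2 j hj.2.2)
  have hrest : ∀ e x, x ∉ V → scoef E σ e x = coef E (R e \ (Cl ∪ Jh)) x := by
    intro e x hx
    rw [hVmem] at hx
    exact scoef_eq_rest (hR2 e) hx.1.1 hx.1.2 hx.2
  have hI : ∀ e ∈ I, ∀ x, x ∉ V → scoef E σ e x = if x ∈ E e then 1 else 0 := by
    intro e he x hx
    rw [hIdef, Finset.mem_filter] at he
    rw [hrest e x hx, he.2, coef_singleton]
  have hZ : ∀ e ∈ Zr, ∀ x, x ∉ V → scoef E σ e x = 0 := by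
    intro e he x hx
    rw [hZrdef, Finset.mem_filter] at he
    rw [hrest e x hx, he.2, coef_empty]
  rcases dichotomy hg ha hr1 σ hI hZ hVcard with hcase | hcase
  · -- few erased equations
    have hK : Iᶜ.card ≤ Zr.card + q := by
      have h1 : Iᶜ ⊆ Zr ∪ Gx := by
        intro e he
        rw [Finset.mem_compl, hIdef, Finset.mem_filter, not_and] at he
        have he' := he (Finset.mem_univ _)
        rw [Finset.mem_union, hZrdef, hGxdef, Finset.mem_filter, Finset.mem_filter]
        by_cases h : R e \ (Cl ∪ Jh) = ∅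
        · exact Or.inl ⟨Finset.mem_univ _, h⟩
        · exact Or.inr ⟨Finset.mem_univ _, h, he'⟩
      refine (Finset.card_le_card h1).trans ((Finset.card_union_le _ _).trans ?_)
      exact Nat.add_le_add_left hGx _
    classical
    have hY := card_moved_le hg σ hK
      (univ.filter fun y => y ∉ V ∧ ¬ (σ.tgt y = some y ∧ ∀ z, z ≠ y → σ.tgt z ≠ some y))
      (by
        intro y hy
        rw [Finset.mem_filter] at hy
        exact moved_of_kept hI hy.2.1 hy.2.2)
    have hY2 : d * (univ.filter fun y => y ∉ V ∧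
        ¬ (σ.tgt y = some y ∧ ∀ z, z ≠ y → σ.tgt z ≠ some y)).card ≤ 324 * n := by
      refine hY.trans ?_
      have h1 : a * (Zr.card + q) ≤ 4 * n := by
        rw [mul_add]
        omega
      calc 4 * n + 80 * a * (Zr.card + q) = 4 * n + 80 * (a * (Zr.card + q)) := by ring
        _ ≤ 4 * n + 80 * (4 * n) := Nat.add_le_add_left (Nat.mul_le_mul_left _ h1) _
        _ = 324 * n := by ring
    have hflip : (∃ x, σ.tgt x = some x ∧ σ.off x ≠ 0) ∨
        O ∪ moved σ ⊆ O ∪ ((univ.filter fun y => y ∉ V ∧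
          ¬ (σ.tgt y = some y ∧ ∀ z, z ≠ y → σ.tgt z ≠ some y)) ∪ cover E Cl ∪ cover E Jh) := by
      by_cases hf : ∃ x, σ.tgt x = some x ∧ σ.off x ≠ 0
      · exact Or.inl hf
      · right
        intro y hy
        rcases Finset.mem_union.1 hy with hy | hy
        · exact Finset.mem_union_left _ hy
        · by_cases hyV : y ∈ V
          · rw [hVdef, Finset.mem_union, Finset.mem_union] at hyV
            rcases hyV with (h | h) | h
            · exact Finset.mem_union_left _ h
            · exact Finset.mem_union_right _ (Finset.mem_union_left _ (Finset.mem_union_right _ h))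
            · exact Finset.mem_union_right _ (Finset.mem_union_right _ h)
          · refine Finset.mem_union_right _ (Finset.mem_union_left _ (Finset.mem_union_left _ ?_))
            rw [Finset.mem_filter]
            refine ⟨Finset.mem_univ _, hyV, ?_⟩
            rintro ⟨h1, h2⟩
            unfold moved at hy
            rw [Finset.mem_filter] at hy
            rcases hy.2 with (h3 | h3) | ⟨x, hx, hx2⟩
            · exact h3 h1
            · exact hf ⟨y, h1, h3⟩
            · exact h2 x hx hx2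
    have hsub : ∀ e, ∀ i, i ∈ R e ∆ {e} → i ∈ R e ∪ {e} := by
      intro e i hi
      rw [Finset.mem_symmDiff] at hi
      rw [Finset.mem_union]
      rcases hi with hi | hi
      · exact Or.inl hi.1
      · exact Or.inr hi.1
    have hviol : ∀ v, Fixed O v₀ v → σ.app v ≠ v → ∃ e, val E b (R e ∆ {e}) v ≠ 0 := by
      intro v hv hmv
      have h1 : σ.app v + v ≠ 0 := by
        intro h
        apply hmv
        funext x
        have h2 := congrFun h x
        rw [Pi.add_apply, Pi.zero_apply] at h2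
        have h3 := add_self (v x)
        linear_combination h2 - h3
      obtain ⟨e, he⟩ := hg.inj _ h1
      refine ⟨e, ?_⟩
      rw [val_symmDiff, hR3 e v hv, val_singleton, val_singleton]
      have h4 : ∑ x ∈ E e, (σ.app v + v) x = ∑ x ∈ E e, σ.app v x + ∑ x ∈ E e, v x := by
        rw [← Finset.sum_add_distrib]
        rfl
      rw [h4] at he
      intro h5
      apply he
      have h6 := add_self (b e)
      linear_combination h5 - h6
    have hcoef : ∀ x, x ∉ O → x ∉ cover E Cl → x ∉ cover E Jh →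
        x ∉ (univ.filter fun y => y ∉ V ∧
          ¬ (σ.tgt y = some y ∧ ∀ z, z ≠ y → σ.tgt z ≠ some y)) →
        ∀ e, coef E (R e ∆ {e}) x = 0 := by
      intro x hxO hx1 hx2 hxY e
      have hxV : x ∉ V := (hVmem x).2 ⟨⟨hxO, hx1⟩, hx2⟩
      rw [Finset.mem_filter, not_and, not_and, not_not] at hxY
      obtain ⟨h1, h2⟩ := hxY (Finset.mem_univ _) hxV
      rw [coef_symmDiff, hR2 e x hxO, coef_singleton]
      have h3 : scoef E σ e x = if x ∈ E e then 1 else 0 := by
        unfold scoef
        rw [← Finset.sum_ite_eq' (E e) x (fun _ => (1 : ZMod 2))]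
        refine Finset.sum_congr rfl fun z _ => ?_
        by_cases hz : z = x
        · rw [hz, if_pos h1, if_pos rfl]
        · rw [if_neg (h2 z hz), if_neg hz]
      rw [h3]
      exact add_self _
    rcases hflip with ⟨x, hx1, hx2⟩ | hZsub
    · refine f3_final (q := q) (Z := ∅) hg.small hp hexp hw hcons hCl1 hJh hone hY2
        (fun e => R e ∆ {e}) hsub (Finset.empty_subset _) ?_ hcoef
      intro _ v hv
      refine Or.inl (hviol v hv fun h => ?_)
      have h1 := congrFun h x
      unfold Subst.app at h1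
      rw [hx1, Option.elim_some] at h1
      exact hx2 (by simpa using h1)
    · refine f3_final (q := q) (Z := O ∪ moved σ) hg.small hp hexp hw hcons hCl1 hJh hone hY2
        (fun e => R e ∆ {e}) hsub hZsub ?_ hcoef
      intro hZr v hv
      by_cases hv2 : σ.app v = v
      · exact Or.inr (hmove hZr v hv hv2)
      · exact Or.inl (hviol v hv hv2)
  · -- few kept equations
    have hK : Zrᶜ.card ≤ I.card + q := by
      have h1 : Zrᶜ ⊆ I ∪ Gx := by
        intro e he
        rw [Finset.mem_compl, hZrdef, Finset.mem_filter, not_and] at he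
        have he' := he (Finset.mem_univ _)
        rw [Finset.mem_union, hIdef, hGxdef, Finset.mem_filter, Finset.mem_filter]
        by_cases h : R e \ (Cl ∪ Jh) = {e}
        · exact Or.inl ⟨Finset.mem_univ _, h⟩
        · exact Or.inr ⟨Finset.mem_univ _, he', h⟩
      refine (Finset.card_le_card h1).trans ((Finset.card_union_le _ _).trans ?_)
      exact Nat.add_le_add_left hGx _
    classical
    have hY := card_moved_le hg σ hK
      (univ.filter fun y => y ∉ V ∧ ∃ z, σ.tgt z = some y)
      (by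
        intro y hy
        rw [Finset.mem_filter] at hy
        exact moved_of_erased hZ hy.2.1 hy.2.2)
    have hY2 : d * (univ.filter fun y => y ∉ V ∧ ∃ z, σ.tgt z = some y).card ≤ 324 * n := by
      refine hY.trans ?_
      have h1 : a * (I.card + q) ≤ 4 * n := by
        rw [mul_add]
        omega
      calc 4 * n + 80 * a * (I.card + q) = 4 * n + 80 * (a * (I.card + q)) := by ring
        _ ≤ 4 * n + 80 * (4 * n) := Nat.add_le_add_left (Nat.mul_le_mul_left _ h1) _
        _ = 324 * n := by ring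
    refine f3_final (q := q) (Z := ∅) hg.small hp hexp hw hcons hCl1 hJh hone hY2 R ?_
      (Finset.empty_subset _) ?_ ?_
    · intro e
      exact Finset.subset_union_left
    · intro _ v hv
      obtain ⟨e, he⟩ := hun (σ.app v)
      refine Or.inl ⟨e, ?_⟩
      rw [hR3 e v hv, val_singleton]
      intro h
      apply he
      have h1 := add_self (b e)
      linear_combination h - h1
    · intro x hxO hx1 hx2 hxY e
      have hxV : x ∉ V := (hVmem x).2 ⟨⟨hxO, hx1⟩, hx2⟩
      rw [Finset.mem_filter, not_and, not_and, not_exists] at hxY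
      have h1 := hxY (Finset.mem_univ _) hxV
      rw [hR2 e x hxO]
      unfold scoef
      refine Finset.sum_eq_zero fun z _ => ?_
      rw [if_neg (h1 z)]

end Pool.Agent.Lib.MP_e81270_lc_SR
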