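import Pool.Agent.Lib.MP_e81270_lc_SR.Basic
import Pool.Agent.Lib.MP_e81270_lc_SR.Setup
import Pool.Agent.Lib.MP_e81270_lc_SR.B0
import Pool.Agent.Lib.MP_e81270_lc_SR.B2
import Pool.Agent.Lib.MP_e81270_lc_SR.C1
import Pool.Agent.Lib.MP_e81270_lc_SR.F3

/-!
Redundancy and dominance keep the invariant.
-/

set_option autoImplicit false
set_option linter.unusedSectionVars false
set_option linter.unusedVariables false

namespace Pool.Agent.Lib.MP_e81270_lc_SR

open Finset
open scoped symmDiff

variable {n m : ℕ} {E : Fin m → Finset (Fin n)} {b : Fin m → ZMod 2}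

private lemma falsified_of_fixed {O : Finset (Fin n)} {v₀ v : Fin n → ZMod 2} {C : Clause n}
    (hO : vars C ⊆ O) (hv : Fixed O v₀ v) (h : ¬ Sat v₀ C) : ¬ Sat v C := by
  rintro ⟨l, hl, hvl⟩
  refine h ⟨l, hl, ?_⟩
  rw [← hv l.1 (hO (Finset.mem_image_of_mem _ hl))]
  exact hvl

private lemma not_sat_eqClause {e : Finset (Fin n)} {u : Fin n → ZMod 2} :
    ¬ Sat u (e.image fun x => (x, u x + 1)) := by
  rintro ⟨l, hl, hul⟩
  obtain ⟨x, -, rfl⟩ := Finset.mem_image.1 hl
  simp at hul

private lemma mem_subst_clause {σ : Subst n} {c : Clause n} {l : Lit n} :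
    l ∈ σ.clause c ↔ ∃ l0 ∈ c, σ.tgt l0.1 = some l.1 ∧ l.2 = l0.2 + σ.off l0.1 := by
  unfold Subst.clause
  rw [Finset.mem_biUnion]
  constructor
  · rintro ⟨l0, hl0, h⟩
    refine ⟨l0, hl0, ?_⟩
    cases ht : σ.tgt l0.1 with
    | none => rw [ht] at h; exact absurd h (Finset.notMem_empty _)
    | some y =>
      rw [ht] at h
      have h1 : l = (y, l0.2 + σ.off l0.1) := Finset.mem_singleton.1 h
      rw [h1]
      exact ⟨rfl, rfl⟩
  · rintro ⟨l0, hl0, ht, h2⟩
    refine ⟨l0, hl0, ?_⟩
    rw [ht]
    refine Finset.mem_singleton.2 ?_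
    exact Prod.ext rfl h2

private lemma not_sat_subst_clause {σ : Subst n} {e : Finset (Fin n)} {v : Fin n → ZMod 2} :
    ¬ Sat v (σ.clause (e.image fun x => (x, σ.app v x + 1))) := by
  rintro ⟨l, hl, hvl⟩
  rw [mem_subst_clause] at hl
  obtain ⟨l0, hl0, ht, h2⟩ := hl
  obtain ⟨x, -, rfl⟩ := Finset.mem_image.1 hl0
  simp only [Subst.app] at h2 ht
  rw [ht] at h2
  simp only [Option.elim_some] at h2
  have h3 := add_self (σ.off x)
  have h4 : v l.1 = v l.1 + 1 := by
    have h5 : v l.1 + σ.off x + 1 + σ.off x = v l.1 + 1 := by linear_combination h3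
    rw [h5] at h2
    exact hvl.trans h2
  simp at h4

private lemma vars_subst_clause_subset {σ : Subst n} {e : Fin m} {u : Fin n → ZMod 2} :
    vars (σ.clause ((E e).image fun x => (x, u x + 1))) ⊆ targets E σ e := by
  intro y hy
  obtain ⟨l, hl, rfl⟩ := Finset.mem_image.1 hy
  rw [mem_subst_clause] at hl
  obtain ⟨l0, hl0, ht, -⟩ := hl
  obtain ⟨x, hx, rfl⟩ := Finset.mem_image.1 hl0
  unfold targets
  rw [Finset.mem_filter]
  exact ⟨Finset.mem_univ _, x, hx, ht⟩

/-- Every clause which follows from an equation `x = σ(x)` is satisfied by the values on the moved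
variables if `σ(v) = v`, or it is a tautology. -/
private lemma dead_of_fixed {O : Finset (Fin n)} {σ : Subst n} {v : Fin n → ZMod 2}
    (hv : σ.app v = v) {B : Clause n} (hB : B ∈ σ.fixed) : Dead (O ∪ moved σ) v B := by
  obtain ⟨x, hx, hsat⟩ := hB
  by_cases hx0 : σ.tgt x = some x ∧ σ.off x = 0
  · right
    have hall : ∀ s : ZMod 2, (x, s) ∈ B := by
      intro s
      obtain ⟨l, hl, hls⟩ := hsat (fun _ => s) (by
        unfold Subst.app
        rw [hx0.1, hx0.2]
        simp)
      have h1 : l.1 = x := by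
        rcases hx l hl with h | h
        · exact h
        · rw [hx0.1] at h
          exact (Option.some.inj h).symm
      have h2 : l = (x, s) := Prod.ext h1 hls.symm
      rw [← h2]
      exact hl
    exact ⟨x, hall 0, hall 1⟩
  · left
    obtain ⟨l, hl, hls⟩ := hsat v (congrFun hv x)
    refine ⟨l, hl, Finset.mem_union_right _ ?_, hls⟩
    have hxm : σ.tgt x ≠ some x ∨ σ.off x ≠ 0 := by
      by_cases h : σ.tgt x = some x
      · exact Or.inr fun h2 => hx0 ⟨h, h2⟩
      · exact Or.inl h
    unfold moved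
    rw [Finset.mem_filter]
    refine ⟨Finset.mem_univ _, ?_⟩
    by_cases hlx : l.1 = x
    · rw [hlx]
      exact Or.inl hxm
    · rcases hx l hl with h | h
      · exact absurd h hlx
      · exact Or.inr ⟨x, fun h2 => hlx h2.symm, h⟩

/-- PROOF. Let `C` be not dead, so `|vars C ∩ S| ≤ w` (`narrow`); suppose it is not `Loc`. Let `v₀` be a
falsifying assignment (`exists_falsifying`, agreeing with `ρ` on `Sᶜ`), `O = Sᶜ ∪ vars C`:
`Consistent E b r O v₀` by `loc_of_not_consistent`. Let `σ` be the substitution. For `v` fixed on `O`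
(so `v` agrees with `ρ` on `Sᶜ` and falsifies `C`) with `σ.app v = v`, the values of `v` on
`O ∪ moved σ` are not locally consistent if this set is small: all clauses of `σ.fixed` are dead for
them (`dead_of_fixed`), so `not_der_empty` applies. For an equation `e` and `v` fixed on `O` with
`val E b {e} (σ.app v) = 1` let `c` be the clause of `e` with `u = σ.app v`; it is in `cnf E b` and not
satisfied by `σ.app v`, so there is a derivation `Der W Γ (neg C ∪ neg (σ.clause c)) ∅`. Let
`Z = O ∪ vars (σ.clause c)` (contained in `O ∪ targets E σ e`), `|Z ∩ S| ≤ w + 20 a`. All literals of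
`neg C ∪ neg (σ.clause c)` are true under `v` (`not_sat_iff`; a literal of `σ.clause c` is
`(y, u x + 1 + off x)` with `σ.tgt x = some y`, and `v y + off x = u x`). The clauses of `W` and `Γ`
satisfy the hypotheses of `not_der_empty` for `Z`, `v` by `Dead.mono`, `Loc.mono`; so
`Consistent E b r Z v` fails: this is `H` of `exists_rep` (`t = 18 * a`). So `core` applies. -/
theorem inv_of_dominated {a r d D q w : ℕ} {S : Finset (Fin n)} {ρ : Fin n → ZMod 2}
    {W : Finset (Clause n)} (hs : Setup E b a r d D q w S ρ W) {Γ : Set (Clause n)}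
    (hΓ : ∀ B ∈ Γ, Inv E b r w S ρ B) {C : Clause n} (hC : C ∈ W)
    (hred : Dominated (cnf E b) W Γ C) : Inv E b r w S ρ C := by
  by_cases hdead : Dead Sᶜ ρ C
  · exact Or.inl hdead
  have hnar : (vars C ∩ S).card ≤ w := (hs.narrow C hC).resolve_left hdead
  refine Or.inr ⟨hnar, ?_⟩
  by_contra hloc
  obtain ⟨v₀, hfix, hv₀⟩ := exists_falsifying hdead
  obtain ⟨σ, hσC, hσ⟩ := hred
  have hp := hs.params
  have ha := hp.a_pos
  have hwa := hp.w_a
  have hwr := hp.w_r
  have hr18 : r ≤ 18 * a * r := by
    calc r = 1 * r := (one_mul r).symm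
      _ ≤ 18 * a * r := Nat.mul_le_mul_right r (by omega)
  set O : Finset (Fin n) := Sᶜ ∪ vars C with hOdef
  have hOS : (O ∩ S).card ≤ w := by
    refine le_trans (Finset.card_le_card ?_) hnar
    intro x hx
    rw [Finset.mem_inter, hOdef, Finset.mem_union, Finset.mem_compl] at hx
    rw [Finset.mem_inter]
    exact ⟨hx.1.resolve_left fun h => h hx.2, hx.2⟩
  have hcons : Consistent E b r O v₀ := by
    by_contra h
    exact hloc (loc_of_not_consistent hfix hv₀ h)
  have hexp : Expands E S r (18 * a) := expands_of_good hs.good hs.free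
  have hfalse : ∀ v, Fixed O v₀ v → ¬ Sat v C := fun v hv =>
    falsified_of_fixed Finset.subset_union_right hv hv₀
  have hρ : ∀ v, Fixed O v₀ v → Fixed Sᶜ ρ v := by
    intro v hv x hx
    rw [hv x (Finset.mem_union_left _ hx)]
    exact hfix x hx
  have hmove : ((O ∪ moved σ) ∩ S).card ≤ r → ∀ v, Fixed O v₀ v → σ.app v = v →
      ¬ Consistent E b r (O ∪ moved σ) v := by
    intro hcr v hv hvv hco
    rcases hσC with h | h
    · exact h v (hfalse v hv) hvv
    · have hSZ : Sᶜ ⊆ O ∪ moved σ := Finset.subset_union_left.trans Finset.subset_union_left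
      refine not_der_empty (S := S) (Z := O ∪ moved σ) (v₀ := v) (r := r) (t := 18 * a) (w := w)
        (wL := r) (by omega) hexp hcr ?_ (W := W) (Γ := Γ ∪ σ.fixed) (L := neg C) ?_ ?_ ?_ hco h
      · have h1 : 18 * r ≤ 18 * a * r := Nat.mul_le_mul_right r (by omega)
        omega
      · intro B hB
        rcases hs.narrow B hB with h | h
        · exact Or.inl (h.mono hSZ (hρ v hv))
        · exact Or.inr h
      · intro B hB
        rcases hB with hB | hB
        · rcases hΓ B hB with h | ⟨h, h'⟩
          · exact Or.inl (h.mono hSZ (hρ v hv))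
          · exact Or.inr ⟨h, h'.mono hSZ (hρ v hv)⟩
        · exact Or.inl (dead_of_fixed hvv hB)
      · intro l hl
        refine ⟨?_, not_sat_iff.1 (hfalse v hv) l hl⟩
        rw [mem_neg] at hl
        refine Finset.mem_union_left _ (Finset.mem_union_right _ ?_)
        exact Finset.mem_image.2 ⟨_, hl, rfl⟩
  have hcard : ∀ e, ∀ X : Finset (Fin n), X ⊆ targets E σ e → ((O ∪ X) ∩ S).card ≤ w + 20 * a := by
    intro e X hX
    have h1 : (O ∪ X) ∩ S ⊆ (O ∩ S) ∪ X := by
      intro x hx
      rw [Finset.mem_inter, Finset.mem_union] at hx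
      rw [Finset.mem_union, Finset.mem_inter]
      rcases hx.1 with h | h
      · exact Or.inl ⟨h, hx.2⟩
      · exact Or.inr h
    refine (Finset.card_le_card h1).trans ((Finset.card_union_le _ _).trans ?_)
    have h2 := (Finset.card_le_card hX).trans (card_targets_le (E := E) σ e)
    have h3 := hs.good.small e
    omega
  refine core hs.good hs.params hs.unsat hs.free hs.few (Finset.subset_union_left) hOS hcons σ
    hmove ?_
  intro e
  have hK := hcard e (targets E σ e) (Finset.Subset.refl _)
  have H : ∀ v, Fixed O v₀ v → val E b {e} (σ.app v) = 1 →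
      ∃ R : Finset (Fin m), R.card ≤ r ∧
        (∀ x, x ∉ O ∪ targets E σ e → coef E R x = 0) ∧ val E b R v = 1 := by
    intro v hv hval
    set c : Clause n := (E e).image fun x => (x, σ.app v x + 1) with hc
    have hcΓ : c ∈ cnf E b := by
      refine ⟨e, σ.app v, ?_, rfl⟩
      intro h
      rw [val_singleton, h, add_self] at hval
      exact zero_ne_one hval
    have hder : Der W Γ (neg C ∪ neg (σ.clause c)) ∅ := by
      rcases hσ c hcΓ with h | h
      · exact absurd (h v) not_sat_eqClause
      · exact h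
    set Z : Finset (Fin n) := O ∪ vars (σ.clause c) with hZ
    have hZsub : vars (σ.clause c) ⊆ targets E σ e := vars_subst_clause_subset
    have hSZ : Sᶜ ⊆ Z := Finset.subset_union_left.trans Finset.subset_union_left
    have hnc : ¬ Consistent E b r Z v := by
      intro hco
      refine not_der_empty (S := S) (Z := Z) (v₀ := v) (r := r) (t := 18 * a) (w := w)
        (wL := w + 20 * a) (by omega) hexp (hcard e _ hZsub) (by omega) (W := W) (Γ := Γ)
        (L := neg C ∪ neg (σ.clause c)) ?_ ?_ ?_ hco hder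
      · intro B hB
        rcases hs.narrow B hB with h | h
        · exact Or.inl (h.mono hSZ (hρ v hv))
        · exact Or.inr h
      · intro B hB
        rcases hΓ B hB with h | ⟨h, h'⟩
        · exact Or.inl (h.mono hSZ (hρ v hv))
        · exact Or.inr ⟨h, h'.mono hSZ (hρ v hv)⟩
      · intro l hl
        rcases Finset.mem_union.1 hl with h | h
        · refine ⟨?_, not_sat_iff.1 (hfalse v hv) l h⟩
          rw [mem_neg] at h
          refine Finset.mem_union_left _ (Finset.mem_union_right _ ?_)
          exact Finset.mem_image.2 ⟨_, h, rfl⟩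
        · refine ⟨?_, not_sat_iff.1 not_sat_subst_clause l h⟩
          rw [mem_neg] at h
          exact Finset.mem_union_right _ (Finset.mem_image.2 ⟨_, h, rfl⟩)
    unfold Consistent at hnc
    push Not at hnc
    obtain ⟨R, hR1, hR2, hR3⟩ := hnc
    refine ⟨R, hR1, ?_, eq_one_of_ne_zero hR3⟩
    intro x hx
    refine hR2 x fun hxZ => hx ?_
    rcases Finset.mem_union.1 hxZ with h | h
    · exact Finset.mem_union_left _ h
    · exact Finset.mem_union_right _ (hZsub h)
  obtain ⟨R, hR1, hR2, hR3, hR4⟩ := exists_rep (b := b) (v₀ := v₀) (r := r) (t := 18 * a)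
    (by omega) hexp σ e (by omega) hcons H
  refine ⟨R, ?_, hR3, hR4⟩
  have h1 : R.card ≤ 18 * a * R.card := by
    calc R.card = 1 * R.card := (one_mul _).symm
      _ ≤ 18 * a * R.card := Nat.mul_le_mul_right _ (by omega)
  omega

/-- Redundancy is a special case: a substitution which makes `C` true changes every assignment which
violates `C`. -/
theorem dominated_of_redundant {F : Set (Clause n)} {W : Finset (Clause n)} {Γ : Set (Clause n)}
    (hF : F ⊆ Γ) {C : Clause n} (h : Redundant W Γ C) : Dominated F W Γ C := by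
  obtain ⟨σ, hσ, hB⟩ := h
  refine ⟨σ, Or.inl fun v hv h => hv ?_, fun B hBF => hB B (hF hBF)⟩
  have h1 := hσ v
  rwa [h] at h1

end Pool.Agent.Lib.MP_e81270_lc_SR
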