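import Pool.Agent.Lib.MP_e81270_lc_SR.Basic
import Pool.Agent.Lib.MP_e81270_lc_SR.Setup
import Pool.Agent.Lib.MP_e81270_lc_SR.A4
import Pool.Agent.Lib.MP_e81270_lc_SR.B2
import Pool.Agent.Lib.MP_e81270_lc_SR.G2

/-!
The lower bound for a given restriction.
-/

set_option autoImplicit false
set_option linter.unusedSectionVars false
set_option linter.unusedVariables false

namespace Pool.Agent.Lib.MP_e81270_lc_SR

open Finset
open scoped symmDiff

variable {n m : ℕ} {E : Fin m → Finset (Fin n)} {b : Fin m → ZMod 2}

/-- The clauses of the system satisfy the invariant (`R = {i}`; their variables are `E i`), so do the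
clauses which are added (`loc_of_der` with `L = ∅`, `Z = Sᶜ`, `wL = 0`, and `inv_of_dominated`).
Induction on `Reach` (also `cnf E b ⊆ Γ`). The empty clause does not satisfy it: it is not dead, and if
`R` is as in `Loc` then `|R| = 0` by the expansion in `S` (`card_le_of_expands`, `Z = Sᶜ`), but
`val E b ∅ v = 0`. -/
theorem not_refutes {a r d D q w : ℕ} {S : Finset (Fin n)} {ρ : Fin n → ZMod 2}
    {W : Finset (Clause n)} (hs : Setup E b a r d D q w S ρ W) : ¬ Refutes (cnf E b) W := by
  classical
  have hexp : Expands E S r (18 * a) := expands_of_good hs.good hs.free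
  have ha := hs.params.a_pos
  have hwa := hs.params.w_a
  have hwr := hs.params.w_r
  have hr1 : 1 ≤ r := by omega
  have hcs : (Sᶜ ∩ S).card = 0 := by
    rw [card_eq_zero]
    ext x
    simp
  have key : ∀ Γ, Reach (cnf E b) W Γ → cnf E b ⊆ Γ ∧ ∀ B ∈ Γ, Inv E b r w S ρ B := by
    intro Γ hΓ
    induction hΓ with
    | start =>
      refine ⟨subset_refl _, ?_⟩
      rintro B ⟨i, u, hu, rfl⟩
      right
      have hv : vars ((E i).image fun x => (x, u x + 1)) = E i := by
        unfold vars
        rw [image_image]
        ext x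
        simp
      rw [hv]
      refine ⟨?_, {i}, ?_, ?_, ?_⟩
      · have h1 := hs.good.small i
        have h2 : (E i ∩ S).card ≤ (E i).card := card_le_card inter_subset_left
        omega
      · rw [card_singleton]; exact hr1
      · intro x _ hx
        rw [hv] at hx
        rw [coef_singleton, if_neg hx]
      · intro v _ hsat
        rw [val_singleton]
        have h1 : ∑ x ∈ E i, v x = ∑ x ∈ E i, u x := by
          refine sum_congr rfl (fun x hx => ?_)
          by_contra hne
          refine hsat ⟨(x, u x + 1), mem_image.2 ⟨x, hx, rfl⟩, ?_⟩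
          exact ne_iff_eq_add_one.1 hne
        rw [h1, ne_iff_eq_add_one.1 hu]
        have := add_self (b i)
        linear_combination this
    | infer Γ C hΓ hC hder ih =>
      refine ⟨ih.1.trans (Set.subset_insert _ _), ?_⟩
      intro B hB
      rcases Set.mem_insert_iff.1 hB with rfl | hB
      · have h1 := loc_of_der (b := b) (v₀ := ρ) (wL := 0) (w := w) (Z := Sᶜ) (t := 18 * a) (by omega) hexp
          (le_of_eq hcs) (by nlinarith) hs.narrow ih.2 (by simp) hder
        exact h1
      · exact ih.2 B hB
    | redundant Γ C hΓ hC hred ih =>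
      refine ⟨ih.1.trans (Set.subset_insert _ _), ?_⟩
      intro B hB
      rcases Set.mem_insert_iff.1 hB with rfl | hB
      · exact inv_of_dominated hs ih.2 hC (dominated_of_redundant ih.1 hred)
      · exact ih.2 B hB
    | dominated Γ C hΓ hC hred ih =>
      refine ⟨ih.1.trans (Set.subset_insert _ _), ?_⟩
      intro B hB
      rcases Set.mem_insert_iff.1 hB with rfl | hB
      · exact inv_of_dominated hs ih.2 hC hred
      · exact ih.2 B hB
    | delete Γ Γ' hΓ h1 h2 ih => exact ⟨h1, fun B hB => ih.2 B (h2 hB)⟩
  rintro ⟨Γ, hΓ, hemp⟩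
  rcases (key Γ hΓ).2 ∅ hemp with h | ⟨_, R, hR, hco, hval⟩
  · rcases h with ⟨l, hl, _⟩ | ⟨x, hx, _⟩
    · simp at hl
    · simp at hx
  · have h1 := card_le_of_expands hexp hR (Z := Sᶜ) (fun x hx => hco x hx (by simp [vars]))
    rw [hcs] at h1
    have h2 : R.card = 0 := by
      rcases Nat.eq_zero_or_pos R.card with h3 | h3
      · exact h3
      · have : 0 < 18 * a * R.card := by positivity
        omega
    rw [card_eq_zero] at h2
    have h3 := hval ρ (fun _ _ => rfl) (by rintro ⟨l, hl, _⟩; simp at hl)
    rw [h2, val_empty] at h3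
    exact zero_ne_one h3

end Pool.Agent.Lib.MP_e81270_lc_SR
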