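import Pool.Agent.Lib.MP_e81270_lc_SR.Basic

/-!
A restriction which satisfies all wide clauses.
-/

set_option autoImplicit false
set_option linter.unusedSectionVars false
set_option linter.unusedVariables false

namespace Pool.Agent.Lib.MP_e81270_lc_SR

open Finset
open scoped symmDiff

variable {n m : ℕ} {E : Fin m → Finset (Fin n)} {b : Fin m → ZMod 2}

private lemma card_box {K n : ℕ} (A : Finset (Fin n)) (C : Fin n → Finset (Fin K)) (k : ℕ)
    (hC : ∀ x ∈ A, (C x).card = k) :
    (univ.filter (fun f : Fin n → Fin K => ∀ x ∈ A, f x ∈ C x)).card * K ^ A.card =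
      k ^ A.card * K ^ n := by
  have h1 : univ.filter (fun f : Fin n → Fin K => ∀ x ∈ A, f x ∈ C x) =
      Fintype.piFinset (fun x => if x ∈ A then C x else univ) := by
    ext f
    simp only [mem_filter, mem_univ, true_and, Fintype.mem_piFinset]
    constructor
    · intro h x
      by_cases hx : x ∈ A
      · rw [if_pos hx]; exact h x hx
      · rw [if_neg hx]; exact mem_univ _
    · intro h x hx
      have := h x
      rw [if_pos hx] at this
      exact this
  rw [h1, Fintype.card_piFinset, ← prod_mul_prod_compl A]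
  have h2 : ∏ x ∈ A, (if x ∈ A then C x else univ).card = k ^ A.card := by
    rw [← prod_const]
    refine prod_congr rfl (fun x hx => ?_)
    rw [if_pos hx, hC x hx]
  have h3 : ∏ x ∈ Aᶜ, (if x ∈ A then C x else univ).card = K ^ (Aᶜ).card := by
    rw [← prod_const]
    refine prod_congr rfl (fun x hx => ?_)
    rw [if_neg (mem_compl.1 hx), card_univ, Fintype.card_fin]
  rw [h2, h3, mul_assoc, ← pow_add, add_comm, card_add_card_compl, Fintype.card_fin]

private lemma card_lt_two {K : ℕ} (hK : 2 ≤ K) :
    (univ.filter (fun c : Fin K => c.val < 2)).card = 2 := by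
  have h : univ.filter (fun c : Fin K => c.val < 2) = {⟨0, by omega⟩, ⟨1, by omega⟩} := by
    ext c
    simp only [mem_filter, mem_univ, true_and, mem_insert, mem_singleton, Fin.ext_iff]
    omega
  rw [h, card_pair]
  intro h
  have := Fin.ext_iff.1 h
  simp at this

private lemma card_ne_val {K : ℕ} (hK : 2 ≤ K) (s : ZMod 2) :
    (univ.filter (fun c : Fin K => c.val ≠ s.val)).card = K - 1 := by
  have hs : s.val < K := lt_of_lt_of_le (ZMod.val_lt s) hK
  have h : univ.filter (fun c : Fin K => c.val ≠ s.val) = univ.erase ⟨s.val, hs⟩ := by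
    ext c
    simp only [mem_filter, mem_univ, true_and, mem_erase, and_true, ne_eq, Fin.ext_iff]
  rw [h, card_erase_of_mem (mem_univ _), card_univ, Fintype.card_fin]

/-- not too many variables of an equation are not free -/
private lemma cnt_one {K n a : ℕ} (hK : 2 ≤ K) (Ei : Finset (Fin n)) (hE : Ei.card < 20 * a) :
    (univ.filter (fun f : Fin n → Fin K =>
      a < (Ei.filter (fun x => (f x).val < 2)).card)).card * K ^ (a + 1) ≤
      2 ^ (20 * a) * 2 ^ (a + 1) * K ^ n := by
  have h1 : univ.filter (fun f : Fin n → Fin K =>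
      a < (Ei.filter (fun x => (f x).val < 2)).card) ⊆
      (Ei.powersetCard (a + 1)).biUnion (fun A => univ.filter (fun f : Fin n → Fin K =>
        ∀ x ∈ A, f x ∈ univ.filter (fun c : Fin K => c.val < 2))) := by
    intro f hf
    rw [mem_filter] at hf
    obtain ⟨A, hA, hAc⟩ := exists_subset_card_eq (show a + 1 ≤ _ from hf.2)
    rw [mem_biUnion]
    refine ⟨A, ?_, ?_⟩
    · rw [mem_powersetCard]
      exact ⟨hA.trans (filter_subset _ _), hAc⟩
    · rw [mem_filter]
      refine ⟨mem_univ _, fun x hx => ?_⟩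
      rw [mem_filter]
      exact ⟨mem_univ _, (mem_filter.1 (hA hx)).2⟩
  have h2 := card_le_card h1
  have h3 : ((Ei.powersetCard (a + 1)).biUnion (fun A => univ.filter (fun f : Fin n → Fin K =>
        ∀ x ∈ A, f x ∈ univ.filter (fun c : Fin K => c.val < 2)))).card * K ^ (a + 1) ≤
        ∑ A ∈ Ei.powersetCard (a + 1), 2 ^ (a + 1) * K ^ n := by
    refine (Nat.mul_le_mul_right _ card_biUnion_le).trans ?_
    rw [sum_mul]
    refine sum_le_sum (fun A hA => ?_)
    have hAc : A.card = a + 1 := (mem_powersetCard.1 hA).2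
    have := card_box A (fun _ => univ.filter (fun c : Fin K => c.val < 2)) 2
      (fun x _ => card_lt_two hK)
    rw [hAc] at this
    exact this.le
  refine (Nat.mul_le_mul_right _ h2).trans (h3.trans ?_)
  rw [sum_const, card_powersetCard, smul_eq_mul, mul_assoc]
  refine Nat.mul_le_mul_right _ ?_
  exact (Nat.choose_le_two_pow _ _).trans (Nat.pow_le_pow_right (by norm_num) hE.le)

/-- few functions have many variables which are not free -/
private lemma cnt_two {K n : ℕ} (hK : 2 ≤ K) (hn : 0 < n) :
    (univ.filter (fun f : Fin n → Fin K =>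
      n < 80 * (univ.filter (fun x => (f x).val < 2)).card)).card * K ≤ 160 * K ^ n := by
  have h1 : n * (univ.filter (fun f : Fin n → Fin K =>
      n < 80 * (univ.filter (fun x => (f x).val < 2)).card)).card ≤
      ∑ f : Fin n → Fin K, 80 * (univ.filter (fun x => (f x).val < 2)).card := by
    rw [mul_comm, ← smul_eq_mul, ← sum_const]
    refine (sum_le_sum (fun f hf => ?_)).trans
      (sum_le_sum_of_subset (filter_subset _ univ))
    exact (mem_filter.1 hf).2.le
  have h2 : ∑ f : Fin n → Fin K, 80 * (univ.filter (fun x => (f x).val < 2)).card =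
      80 * ∑ x : Fin n, (univ.filter (fun f : Fin n → Fin K => (f x).val < 2)).card := by
    rw [← mul_sum]
    congr 1
    simp only [card_filter]
    rw [sum_comm]
  have h3 : ∀ x : Fin n, (univ.filter (fun f : Fin n → Fin K => (f x).val < 2)).card * K =
      2 * K ^ n := by
    intro x
    have := card_box {x} (fun _ => univ.filter (fun c : Fin K => c.val < 2)) 2
      (fun x _ => card_lt_two hK)
    rw [card_singleton, pow_one, pow_one] at this
    rw [← this]
    congr 2
    ext f
    simp
  have h4 : (80 * ∑ x : Fin n, (univ.filter (fun f : Fin n → Fin K => (f x).val < 2)).card) * K =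
      n * (160 * K ^ n) := by
    rw [mul_assoc, sum_mul, sum_congr rfl (fun x _ => h3 x), sum_const, card_univ,
      Fintype.card_fin, smul_eq_mul]
    ring
  have h5 : n * ((univ.filter (fun f : Fin n → Fin K =>
      n < 80 * (univ.filter (fun x => (f x).val < 2)).card)).card * K) ≤ n * (160 * K ^ n) := by
    rw [← mul_assoc, ← h4, ← h2]
    exact Nat.mul_le_mul_right _ h1
  exact Nat.le_of_mul_le_mul_left h5 hn

open Classical in
/-- few functions leave a wide clause alive -/
private lemma cnt_three {K n w : ℕ} (hK : 2 ≤ K) (B : Clause n) :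
    (univ.filter (fun f : Fin n → Fin K =>
      ¬ Dead (univ.filter (fun x => 2 ≤ (f x).val))ᶜ (fun x => ((f x).val : ZMod 2)) B ∧
      w < (vars B ∩ univ.filter (fun x => 2 ≤ (f x).val)).card)).card * K ^ w ≤
      (K - 1) ^ w * K ^ n := by
  by_cases hw : w ≤ (vars B).card
  · obtain ⟨A, hA, hAc⟩ := exists_subset_card_eq hw
    have hb := card_box A (fun x => univ.filter (fun c : Fin K =>
      c.val ≠ (if (x, (1 : ZMod 2)) ∈ B then (1 : ZMod 2) else 0).val)) (K - 1)
      (fun x _ => card_ne_val hK _)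
    rw [hAc] at hb
    rw [← hb]
    refine Nat.mul_le_mul_right _ (card_le_card ?_)
    intro f hf
    rw [mem_filter] at hf ⊢
    refine ⟨mem_univ _, fun x hx => ?_⟩
    rw [mem_filter]
    refine ⟨mem_univ _, fun he => ?_⟩
    apply hf.2.1
    left
    set s : ZMod 2 := if (x, (1 : ZMod 2)) ∈ B then (1 : ZMod 2) else 0 with hs
    have hxs : (x, s) ∈ B := by
      have hxv := hA hx
      unfold vars at hxv
      rw [mem_image] at hxv
      obtain ⟨⟨x', s'⟩, hl, rfl⟩ := hxv
      by_cases h1 : (x', (1 : ZMod 2)) ∈ B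
      · rw [hs]
        simp only [h1, if_true]
      · rw [hs]
        simp only [h1, if_false]
        rcases eq_zero_or_one s' with h0 | h0
        · rw [h0] at hl
          exact hl
        · rw [h0] at hl
          exact absurd hl h1
    refine ⟨(x, s), hxs, ?_, ?_⟩
    · rw [mem_compl, mem_filter]
      rintro ⟨-, h2⟩
      simp only at h2
      rw [he] at h2
      have := ZMod.val_lt s
      omega
    · simp only
      rw [he]
      exact ZMod.natCast_zmod_val s
  · have h0 : univ.filter (fun f : Fin n → Fin K =>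
      ¬ Dead (univ.filter (fun x => 2 ≤ (f x).val))ᶜ (fun x => ((f x).val : ZMod 2)) B ∧
      w < (vars B ∩ univ.filter (fun x => 2 ≤ (f x).val)).card) = ∅ := by
      rw [filter_eq_empty_iff]
      rintro f - ⟨-, h⟩
      have := card_le_card (inter_subset_left (s₁ := vars B)
        (s₂ := univ.filter (fun x => 2 ≤ (f x).val)))
      omega
    rw [h0, card_empty, zero_mul]
    exact Nat.zero_le _

/-- Count the functions `f : Fin n → Fin (2 ^ 25)`; `f x = 0`: `x` gets the value `0`, `f x = 1`: it gets
the value `1`, otherwise `x` is free. (1) For one `i`: the `f` with more than `a` variables of `E i` not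
free are at most `∑_{A ⊆ E i, |A| = a + 1} 2^(a+1) * (2^25)^(n-a-1) ≤ 2^(20 a) * 2^(-24 (a+1)) * (2^25)^n`,
times `m ≤ 2^(3 a)`. (2) `∑_f #{x not free} = n * 2 * (2^25)^(n-1)`, so `80 * #{not free} > n` for at most
`80 * 2^(-24)` of the `f`. (3) A clause which is not a tautology and has more than `w` variables is not
satisfied (by the values of the variables which are not free) for at most `(2^25-1)^w * (2^25)^(n-w)`
of the `f`, altogether at most a quarter by `hW`. A tautology is dead. -/
theorem exists_restriction {a w : ℕ} (ha : 0 < a) (hsmall : ∀ i, (E i).card < 20 * a)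
    (hm : m ≤ 2 ^ (3 * a)) (W : Finset (Clause n))
    (hW : 4 * W.card * (2 ^ 25 - 1) ^ w ≤ (2 ^ 25) ^ w) :
    ∃ (S : Finset (Fin n)) (ρ : Fin n → ZMod 2), (∀ i, (E i \ S).card ≤ a) ∧
      80 * Sᶜ.card ≤ n ∧ ∀ B ∈ W, Dead Sᶜ ρ B ∨ (vars B ∩ S).card ≤ w := by
  classical
  obtain ⟨K, hK⟩ : ∃ K : ℕ, K = 2 ^ 25 := ⟨_, rfl⟩
  rw [← hK] at hW
  have hK2 : 2 ≤ K := by rw [hK]; norm_num
  have hK640 : 640 ≤ K := by rw [hK]; norm_num
  have hK0 : 0 < K := by omega
  -- the three sets of bad functions
  set B1 : Finset (Fin n → Fin K) := (univ : Finset (Fin m)).biUnion (fun i =>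
    univ.filter (fun f : Fin n → Fin K => a < ((E i).filter (fun x => (f x).val < 2)).card))
    with hB1
  set B2 : Finset (Fin n → Fin K) := univ.filter (fun f : Fin n → Fin K =>
    n < 80 * (univ.filter (fun x => (f x).val < 2)).card) with hB2
  set B3 : Finset (Fin n → Fin K) := W.biUnion (fun B => univ.filter (fun f : Fin n → Fin K =>
    ¬ Dead (univ.filter (fun x => 2 ≤ (f x).val))ᶜ (fun x => ((f x).val : ZMod 2)) B ∧
      w < (vars B ∩ univ.filter (fun x => 2 ≤ (f x).val)).card)) with hB3
  have hc1 : 4 * B1.card ≤ K ^ n := by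
    have h1 : B1.card * K ^ (a + 1) ≤ m * (2 ^ (20 * a) * 2 ^ (a + 1) * K ^ n) := by
      refine (Nat.mul_le_mul_right _ card_biUnion_le).trans ?_
      rw [sum_mul]
      refine (sum_le_sum (fun i _ => cnt_one hK2 (E i) (hsmall i))).trans ?_
      rw [sum_const, card_univ, Fintype.card_fin, smul_eq_mul]
    have h2 : 4 * (m * (2 ^ (20 * a) * 2 ^ (a + 1))) ≤ K ^ (a + 1) := by
      rw [hK]
      calc 4 * (m * (2 ^ (20 * a) * 2 ^ (a + 1)))
          ≤ 4 * (2 ^ (3 * a) * (2 ^ (20 * a) * 2 ^ (a + 1))) :=
            Nat.mul_le_mul_left _ (Nat.mul_le_mul_right _ hm)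
        _ = 2 ^ (2 + (3 * a + (20 * a + (a + 1)))) := by
            rw [pow_add 2 2, pow_add 2 (3 * a), pow_add 2 (20 * a)]
            norm_num
        _ ≤ 2 ^ (25 * (a + 1)) := Nat.pow_le_pow_right (by norm_num) (by omega)
        _ = (2 ^ 25) ^ (a + 1) := by rw [pow_mul]
    have h3 : (4 * B1.card) * K ^ (a + 1) ≤ K ^ n * K ^ (a + 1) := by
      calc (4 * B1.card) * K ^ (a + 1) = 4 * (B1.card * K ^ (a + 1)) := by ring
        _ ≤ 4 * (m * (2 ^ (20 * a) * 2 ^ (a + 1) * K ^ n)) := Nat.mul_le_mul_left _ h1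
        _ = 4 * (m * (2 ^ (20 * a) * 2 ^ (a + 1))) * K ^ n := by ring
        _ ≤ K ^ (a + 1) * K ^ n := Nat.mul_le_mul_right _ h2
        _ = K ^ n * K ^ (a + 1) := by ring
    exact Nat.le_of_mul_le_mul_right h3 (pow_pos hK0 _)
  have hc2 : 4 * B2.card ≤ K ^ n := by
    rcases Nat.eq_zero_or_pos n with hn | hn
    · have h0 : B2 = ∅ := by
        rw [hB2, filter_eq_empty_iff]
        intro f _ h
        have h1 : (univ.filter (fun x : Fin n => (f x).val < 2)).card ≤ n := by
          refine (card_le_univ _).trans ?_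
          rw [Fintype.card_fin]
        omega
      rw [h0, card_empty, mul_zero]
      exact Nat.zero_le _
    · have h1 := cnt_two hK2 hn
      rw [← hB2] at h1
      have h3 : (4 * B2.card) * K ≤ K ^ n * K := by
        calc (4 * B2.card) * K = 4 * (B2.card * K) := by ring
          _ ≤ 4 * (160 * K ^ n) := Nat.mul_le_mul_left _ h1
          _ = K ^ n * 640 := by ring
          _ ≤ K ^ n * K := Nat.mul_le_mul_left _ hK640
      exact Nat.le_of_mul_le_mul_right h3 hK0
  have hc3 : 4 * B3.card ≤ K ^ n := by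
    have h1 : B3.card * K ^ w ≤ W.card * ((K - 1) ^ w * K ^ n) := by
      refine (Nat.mul_le_mul_right _ card_biUnion_le).trans ?_
      rw [sum_mul]
      refine (sum_le_sum (fun B _ => cnt_three (w := w) hK2 B)).trans ?_
      rw [sum_const, smul_eq_mul]
    have h3 : (4 * B3.card) * K ^ w ≤ K ^ n * K ^ w := by
      calc (4 * B3.card) * K ^ w = 4 * (B3.card * K ^ w) := by ring
        _ ≤ 4 * (W.card * ((K - 1) ^ w * K ^ n)) := Nat.mul_le_mul_left _ h1
        _ = 4 * W.card * (K - 1) ^ w * K ^ n := by ring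
        _ ≤ K ^ w * K ^ n := Nat.mul_le_mul_right _ hW
        _ = K ^ n * K ^ w := by ring
    exact Nat.le_of_mul_le_mul_right h3 (pow_pos hK0 _)
  have htot : (B1 ∪ B2 ∪ B3).card < (univ : Finset (Fin n → Fin K)).card := by
    rw [card_univ, Fintype.card_fun, Fintype.card_fin, Fintype.card_fin]
    have h1 : (B1 ∪ B2 ∪ B3).card ≤ B1.card + B2.card + B3.card :=
      (card_union_le _ _).trans (Nat.add_le_add_right (card_union_le _ _) _)
    have h2 : 0 < K ^ n := pow_pos hK0 _
    omega
  obtain ⟨f, -, hf⟩ := exists_mem_notMem_of_card_lt_card htot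
  rw [mem_union, mem_union, not_or, not_or] at hf
  obtain ⟨⟨hf1, hf2⟩, hf3⟩ := hf
  refine ⟨univ.filter (fun x => 2 ≤ (f x).val), fun x => ((f x).val : ZMod 2), ?_, ?_, ?_⟩
  · intro i
    by_contra h
    apply hf1
    rw [hB1, mem_biUnion]
    refine ⟨i, mem_univ _, ?_⟩
    rw [mem_filter]
    refine ⟨mem_univ _, ?_⟩
    have h1 : (E i).filter (fun x => (f x).val < 2) = E i \ univ.filter (fun x => 2 ≤ (f x).val) := by
      ext x
      simp only [mem_filter, mem_sdiff, mem_univ, true_and, not_le]
    rw [h1]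
    omega
  · by_contra h
    apply hf2
    rw [hB2, mem_filter]
    refine ⟨mem_univ _, ?_⟩
    have h1 : univ.filter (fun x => (f x).val < 2) = (univ.filter (fun x => 2 ≤ (f x).val))ᶜ := by
      ext x
      simp only [mem_filter, mem_compl, mem_univ, true_and, not_le]
    rw [h1]
    omega
  · intro B hB
    by_contra h
    rw [not_or, not_le] at h
    apply hf3
    rw [hB3, mem_biUnion]
    refine ⟨B, hB, ?_⟩
    rw [mem_filter]
    exact ⟨mem_univ _, h⟩

end Pool.Agent.Lib.MP_e81270_lc_SR
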