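import Pool.Agent.Lib.MP_e81270_lc_SR.Basic
import Pool.Agent.Lib.MP_e81270_lc_SR.Setup
import Pool.Agent.Lib.MP_e81270_lc_SR.G3
import Pool.Agent.Lib.MP_e81270_lc_SR.H1

/-!
The lower bound for a pseudorandom system.
-/

set_option autoImplicit false
set_option linter.unusedSectionVars false
set_option linter.unusedVariables false

namespace Pool.Agent.Lib.MP_e81270_lc_SR

open Finset
open scoped symmDiff

variable {n m : ℕ} {E : Fin m → Finset (Fin n)} {b : Fin m → ZMod 2}

/-- `exists_restriction` and `not_refutes`. -/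
theorem card_lt_of_refutes {a r d D q w : ℕ} (hg : Good E a r d D q) (hp : Params n a r d D q w)
    (hun : ∀ v : Fin n → ZMod 2, ∃ i, ∑ x ∈ E i, v x ≠ b i) (hm : m ≤ 2 ^ (3 * a))
    {W : Finset (Clause n)} (h : Refutes (cnf E b) W) :
    (2 ^ 25) ^ w < 4 * W.card * (2 ^ 25 - 1) ^ w := by
  by_contra hcon
  push Not at hcon
  obtain ⟨S, ρ, h1, h2, h3⟩ := exists_restriction hp.a_pos hg.small hm W hcon
  exact not_refutes ⟨hg, hp, hun, h1, h2, h3⟩ h

end Pool.Agent.Lib.MP_e81270_lc_SR
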