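import Pool.Agent.Lib.MP_e81270_lc_SR.Basic

/-!
Tuples of variables: definition.
-/

set_option autoImplicit false
set_option linter.unusedSectionVars false
set_option linter.unusedVariables false

namespace Pool.Agent.Lib.MP_e81270_lc_SR

open Finset
open scoped symmDiff Classical

/-- The variables which occur an odd number of times in the tuple `T`. -/
noncomputable def odd {n k : ℕ} (T : Fin k → Fin n) : Finset (Fin n) :=
  univ.filter fun x => Odd (univ.filter fun j => T j = x).card

end Pool.Agent.Lib.MP_e81270_lc_SR
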