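import Pool.Agent.Lib.MP_e81270_lc_SR.Basic
import Pool.Agent.Lib.MP_e81270_lc_SR.I0

/-!
Tuples of variables: basic facts.
-/

set_option autoImplicit false
set_option linter.unusedSectionVars false
set_option linter.unusedVariables false

namespace Pool.Agent.Lib.MP_e81270_lc_SR

open Finset
open scoped symmDiff Classical

private lemma I0a_cast (c : ℕ) (y : ZMod 2) : (c : ZMod 2) * y = if Odd c then y else 0 := by
  split_ifs with h
  · rw [(ZMod.natCast_eq_one_iff_odd).2 h, one_mul]
  · rw [Nat.not_odd_iff_even] at h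
    rw [(ZMod.natCast_eq_zero_iff_even).2 h, zero_mul]

/-- the sum over the variables with odd multiplicity -/
theorem sum_odd {n k : ℕ} (T : Fin k → Fin n) (v : Fin n → ZMod 2) :
    ∑ x ∈ odd T, v x = ∑ j, v (T j) := by
  unfold odd
  rw [Finset.sum_filter]
  have h1 : ∑ j, v (T j) = ∑ x, ∑ j ∈ univ.filter (fun j => T j = x), v (T j) :=
    (Finset.sum_fiberwise univ T (fun j => v (T j))).symm
  rw [h1]
  refine Finset.sum_congr rfl fun x _ => ?_
  have h2 : ∑ j ∈ univ.filter (fun j => T j = x), v (T j)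
      = ∑ j ∈ univ.filter (fun j => T j = x), v x := by
    refine Finset.sum_congr rfl fun j hj => ?_
    rw [Finset.mem_filter] at hj
    rw [hj.2]
  rw [h2, Finset.sum_const, nsmul_eq_mul, I0a_cast]

theorem exists_of_mem_odd {n k : ℕ} {T : Fin k → Fin n} {x : Fin n} (h : x ∈ odd T) :
    ∃ j, T j = x := by
  unfold odd at h
  rw [Finset.mem_filter] at h
  have h1 : 0 < (univ.filter fun j => T j = x).card := h.2.pos
  obtain ⟨j, hj⟩ := Finset.card_pos.1 h1
  exact ⟨j, (Finset.mem_filter.1 hj).2⟩

/-- An injection of the variables of `odd T ∩ X` to the positions with value in `X`. -/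
theorem card_odd_inter_le {n k : ℕ} (T : Fin k → Fin n) (X : Finset (Fin n)) :
    (odd T ∩ X).card ≤ (univ.filter fun j => T j ∈ X).card := by
  have h1 : odd T ∩ X ⊆ (univ.filter fun j => T j ∈ X).image T := by
    intro x hx
    rw [Finset.mem_inter] at hx
    obtain ⟨j, hj⟩ := exists_of_mem_odd hx.1
    rw [Finset.mem_image]
    refine ⟨j, Finset.mem_filter.2 ⟨Finset.mem_univ _, ?_⟩, hj⟩
    rw [hj]
    exact hx.2
  exact (Finset.card_le_card h1).trans Finset.card_image_le

theorem card_odd_le {n k : ℕ} (T : Fin k → Fin n) : (odd T).card ≤ k := by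
  have h := card_odd_inter_le T univ
  rw [Finset.inter_univ] at h
  refine h.trans ((Finset.card_le_univ _).trans ?_)
  rw [Fintype.card_fin]

end Pool.Agent.Lib.MP_e81270_lc_SR
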