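import Pool.Agent.Lib.MP_e81270_lc_SR.Basic
import Pool.Agent.Lib.MP_e81270_lc_SR.I0

/-!
The number of tuples with even sum.
-/

set_option autoImplicit false
set_option linter.unusedSectionVars false
set_option linter.unusedVariables false

namespace Pool.Agent.Lib.MP_e81270_lc_SR

open Finset
open scoped symmDiff Classical

private def i0cChi (c : ZMod 2) : ℤ := match c with
  | 0 => 1
  | 1 => -1

private theorem i0c_add (a b : ZMod 2) : i0cChi (a + b) = i0cChi a * i0cChi b := by
  revert a b
  decide

private theorem i0c_sum {ι : Type} (s : Finset ι) (f : ι → ZMod 2) :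
    i0cChi (∑ j ∈ s, f j) = ∏ j ∈ s, i0cChi (f j) := by
  induction s using Finset.induction_on with
  | empty => rfl
  | insert x s hx ih => rw [Finset.sum_insert hx, Finset.prod_insert hx, i0c_add, ih]

private theorem i0c_one_add (c : ZMod 2) : 1 + i0cChi c = if c = 0 then 2 else 0 := by
  rcases eq_zero_or_one c with rfl | rfl
  · rw [if_pos rfl]
    rfl
  · rw [if_neg one_ne_zero]
    rfl

private theorem i0c_eq (c : ZMod 2) : i0cChi c = 1 - if c ≠ 0 then 2 else 0 := by
  rcases eq_zero_or_one c with rfl | rfl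
  · rw [if_neg (by simp)]
    rfl
  · rw [if_pos one_ne_zero]
    rfl

/-- Let `s` be the number of the `x` with `v x ≠ 0`. `∑_T ∏_j (-1)^(v (T j)) = (n - 2 s)^k`, and this is
the number of the tuples with sum `0` minus the number of those with sum `1`. -/
theorem two_mul_card_zero_sum {n k : ℕ} (v : Fin n → ZMod 2) :
    (2 * (univ.filter fun T : Fin k → Fin n => ∑ j, v (T j) = 0).card : ℤ)
      = (n : ℤ) ^ k + ((n : ℤ) - 2 * (univ.filter fun x => v x ≠ 0).card) ^ k := by
  have h1 : (2 * (univ.filter fun T : Fin k → Fin n => ∑ j, v (T j) = 0).card : ℤ)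
      = ∑ T : Fin k → Fin n, (1 + i0cChi (∑ j, v (T j))) := by
    rw [Finset.sum_congr rfl (fun T _ => i0c_one_add (∑ j, v (T j))), ← Finset.sum_filter,
      Finset.sum_const, nsmul_eq_mul, mul_comm]
  have h2 : ∑ T : Fin k → Fin n, i0cChi (∑ j, v (T j)) = (∑ x : Fin n, i0cChi (v x)) ^ k := by
    have h3 := Finset.prod_univ_sum (fun _ : Fin k => (univ : Finset (Fin n)))
      (fun _ x => i0cChi (v x))
    rw [Fintype.piFinset_univ, Finset.prod_const, Finset.card_univ, Fintype.card_fin] at h3
    rw [h3]
    exact Finset.sum_congr rfl fun T _ => i0c_sum univ fun j => v (T j)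
  have h4 : ∑ x : Fin n, i0cChi (v x) = (n : ℤ) - 2 * (univ.filter fun x => v x ≠ 0).card := by
    rw [Finset.sum_congr rfl (fun x _ => i0c_eq (v x)), Finset.sum_sub_distrib, Finset.sum_const,
      Finset.card_univ, Fintype.card_fin, ← Finset.sum_filter, Finset.sum_const, nsmul_eq_mul,
      nsmul_eq_mul]
    push_cast
    ring
  rw [h1, Finset.sum_add_distrib, h2, h4, Finset.sum_const, Finset.card_univ, Fintype.card_fun,
    Fintype.card_fin, Fintype.card_fin, nsmul_eq_mul, mul_one]
  push_cast
  ring

end Pool.Agent.Lib.MP_e81270_lc_SR
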