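import Pool.Agent.Lib.MP_e81270_lc_SR.Basic
import Pool.Agent.Lib.MP_e81270_lc_SR.I0

/-!
Independent choices.
-/

set_option autoImplicit false
set_option linter.unusedSectionVars false
set_option linter.unusedVariables false

namespace Pool.Agent.Lib.MP_e81270_lc_SR

open Finset
open scoped symmDiff Classical

/-- The conditions `P i`, `i ∈ T`, depend only on `ω i` and on the `ω j` with `j ∉ T`; for fixed other
entries at most `B` of the values of `ω i` satisfy `P i`. (Fix the `ω j`, `j ∉ T`; the rest is a
product. Or induction: compare with `Fintype.piFinset`.) -/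
theorem card_forall_le {α : Type} [Fintype α] {m : ℕ} (T : Finset (Fin m))
    (P : Fin m → (Fin m → α) → Prop) (B : ℕ)
    (hdep : ∀ i ∈ T, ∀ ω ω' : Fin m → α, (∀ j, j ∉ T → ω j = ω' j) → ω i = ω' i → P i ω → P i ω')
    (hB : ∀ i ∈ T, ∀ ω : Fin m → α, (univ.filter fun t : α => P i (Function.update ω i t)).card ≤ B) :
    (univ.filter fun ω : Fin m → α => ∀ i ∈ T, P i ω).card * Fintype.card α ^ T.card
      ≤ B ^ T.card * Fintype.card α ^ m := by
  induction T using Finset.induction_on with
  | empty => simp
  | insert i T hiT ih =>
    have ih' := ih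
      (fun j hj ω ω' h1 h2 => hdep j (Finset.mem_insert_of_mem hj) ω ω'
        (fun l hl => h1 l (fun hl' => hl (Finset.mem_insert_of_mem hl'))) h2)
      (fun j hj ω => hB j (Finset.mem_insert_of_mem hj) ω)
    obtain ⟨A, hA⟩ : ∃ A : Finset (Fin m → α), A = univ.filter fun ω : Fin m → α => ∀ j ∈ T, P j ω :=
      ⟨_, rfl⟩
    obtain ⟨A', hA'⟩ : ∃ A' : Finset (Fin m → α),
      A' = univ.filter fun ω : Fin m → α => ∀ j ∈ insert i T, P j ω := ⟨_, rfl⟩
    rw [← hA] at ih'
    rw [← hA', Finset.card_insert_of_notMem hiT]
    have hkey : A'.card * Fintype.card α ≤ A.card * B := by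
      have h1 : (A' ×ˢ (univ : Finset α)).card ≤
          (A.sigma (fun ω => univ.filter fun t : α => P i (Function.update ω i t))).card := by
        refine Finset.card_le_card_of_injOn
          (fun p => ⟨Function.update p.1 i p.2, p.1 i⟩) ?_ ?_
        · intro p hp
          have hp1 : p.1 ∈ A' := (Finset.mem_product.1 (Finset.mem_coe.1 hp)).1
          rw [hA'] at hp1
          have hp2 := (Finset.mem_filter.1 hp1).2
          rw [Finset.mem_coe, Finset.mem_sigma]
          refine ⟨?_, ?_⟩
          · rw [hA]
            refine Finset.mem_filter.2 ⟨Finset.mem_univ _, fun j hj => ?_⟩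
            have hji : j ≠ i := fun h => hiT (h ▸ hj)
            refine hdep j (Finset.mem_insert_of_mem hj) p.1 _ ?_ ?_
              (hp2 j (Finset.mem_insert_of_mem hj))
            · intro l hl
              have hli : l ≠ i := fun h => hl (h ▸ Finset.mem_insert_self i T)
              simp [Function.update_of_ne hli]
            · simp [Function.update_of_ne hji]
          · refine Finset.mem_filter.2 ⟨Finset.mem_univ _, ?_⟩
            simp only [Function.update_idem, Function.update_eq_self]
            exact hp2 i (Finset.mem_insert_self i T)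
        · intro p _ p' _ h
          simp only [Sigma.mk.injEq, heq_eq_eq] at h
          obtain ⟨h1, h2⟩ := h
          have h3 : p.2 = p'.2 := by
            have := congrFun h1 i
            simpa using this
          refine Prod.ext ?_ h3
          funext l
          by_cases hl : l = i
          · rw [hl]; exact h2
          · have := congrFun h1 l
            simpa [Function.update_of_ne hl] using this
      rw [Finset.card_product, Finset.card_univ, Finset.card_sigma] at h1
      refine h1.trans ?_
      rw [← smul_eq_mul, ← Finset.sum_const]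
      exact Finset.sum_le_sum fun ω _ => hB i (Finset.mem_insert_self i T) ω
    calc A'.card * Fintype.card α ^ (T.card + 1) = (A'.card * Fintype.card α) * Fintype.card α ^ T.card := by
          ring
      _ ≤ (A.card * B) * Fintype.card α ^ T.card := Nat.mul_le_mul_right _ hkey
      _ = B * (A.card * Fintype.card α ^ T.card) := by ring
      _ ≤ B * (B ^ T.card * Fintype.card α ^ m) := Nat.mul_le_mul_left _ ih'
      _ = B ^ (T.card + 1) * Fintype.card α ^ m := by ring

end Pool.Agent.Lib.MP_e81270_lc_SR
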