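import Pool.Agent.Lib.MP_e81270_lc_SR.Basic
import Pool.Agent.Lib.MP_e81270_lc_SR.I0a

/-!
Random systems expand.
-/

set_option autoImplicit false
set_option linter.unusedSectionVars false
set_option linter.unusedVariables false

namespace Pool.Agent.Lib.MP_e81270_lc_SR

open Finset
open scoped symmDiff Classical

/-- the positions of the equations of `R` -/
private def i1W {m : ℕ} (k : ℕ) (R : Finset (Fin m)) : Finset (Fin m × Fin k) := R ×ˢ univ

private theorem i1_cardW {m k : ℕ} (R : Finset (Fin m)) : (i1W k R).card = R.card * k := by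
  unfold i1W
  rw [Finset.card_product, Finset.card_univ, Fintype.card_fin]

/-- the systems in which the values at the positions of `Q` are repetitions -/
private noncomputable def i1S {n m k : ℕ} (R : Finset (Fin m)) (Q : Finset (Fin m × Fin k)) :
    Finset (Fin m → Fin k → Fin n) :=
  univ.filter fun ω => ∀ q ∈ Q, ∃ p ∈ i1W k R, p ∉ Q ∧ ω q.1 q.2 = ω p.1 p.2

private theorem i1_cardS {n m k : ℕ} (R : Finset (Fin m)) (Q : Finset (Fin m × Fin k)) :
    n ^ Q.card * (i1S (n := n) R Q).card ≤ (R.card * k) ^ Q.card * (n ^ k) ^ m := by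
  have hex : ∀ ω : {ω : Fin m → Fin k → Fin n // ω ∈ i1S (n := n) R Q}, ∀ q : {q // q ∈ Q},
      ∃ p ∈ i1W k R, p ∉ Q ∧ ω.1 q.1.1 q.1.2 = ω.1 p.1 p.2 := by
    intro ω q
    have h := ω.2
    unfold i1S at h
    rw [Finset.mem_filter] at h
    exact h.2 q.1 q.2
  choose c hc1 hc2 hc3 using hex
  let F : {ω : Fin m → Fin k → Fin n // ω ∈ i1S (n := n) R Q} →
      ({p : Fin m × Fin k // p ∉ Q} → Fin n) × ({p // p ∈ Q} → {p // p ∈ i1W k R}) :=
    fun ω => (fun p => ω.1 p.1.1 p.1.2, fun q => ⟨c ω q, hc1 ω q⟩)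
  have hF : Function.Injective F := by
    intro ω ω' h
    have h1 : ∀ p : {p : Fin m × Fin k // p ∉ Q}, ω.1 p.1.1 p.1.2 = ω'.1 p.1.1 p.1.2 := by
      intro p
      exact congrFun (congrArg Prod.fst h) p
    have h2 : ∀ q : {p // p ∈ Q}, c ω q = c ω' q := by
      intro q
      have := congrFun (congrArg Prod.snd h) q
      exact congrArg Subtype.val this
    apply Subtype.ext
    funext i j
    by_cases hq : (i, j) ∈ Q
    · have e1 := hc3 ω ⟨(i, j), hq⟩
      have e2 := hc3 ω' ⟨(i, j), hq⟩
      have e3 := h1 ⟨c ω ⟨(i, j), hq⟩, hc2 ω ⟨(i, j), hq⟩⟩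
      rw [h2] at e1
      simp only at e1 e2 e3
      rw [h2] at e3
      rw [e1, e2]
      exact e3
    · exact h1 ⟨(i, j), hq⟩
  have hcard := Fintype.card_le_of_injective F hF
  have hc0 : Fintype.card {ω : Fin m → Fin k → Fin n // ω ∈ i1S (n := n) R Q}
      = (i1S (n := n) R Q).card := Fintype.card_coe _
  rw [hc0, Fintype.card_prod, Fintype.card_fun, Fintype.card_fun, Fintype.card_fin] at hcard
  have e4 : Fintype.card {p // p ∈ i1W k R} = R.card * k := by
    rw [Fintype.card_coe, i1_cardW]
  have e5 : Fintype.card {p // p ∈ Q} = Q.card := Fintype.card_coe _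
  have e6 : Fintype.card {p : Fin m × Fin k // p ∉ Q} + Q.card = m * k := by
    have h1 := Fintype.card_subtype_compl (fun p : Fin m × Fin k => p ∈ Q)
    rw [h1, e5, Fintype.card_prod, Fintype.card_fin, Fintype.card_fin]
    have h2 : Q.card ≤ m * k := by
      have := Finset.card_le_univ Q
      rw [Fintype.card_prod, Fintype.card_fin, Fintype.card_fin] at this
      exact this
    omega
  rw [e4, e5] at hcard
  calc n ^ Q.card * (i1S (n := n) R Q).card
      ≤ n ^ Q.card * (n ^ Fintype.card {p : Fin m × Fin k // p ∉ Q} * (R.card * k) ^ Q.card) :=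
        Nat.mul_le_mul_left _ hcard
    _ = (R.card * k) ^ Q.card * n ^ (Fintype.card {p : Fin m × Fin k // p ∉ Q} + Q.card) := by
        rw [pow_add]
        ring
    _ = (R.card * k) ^ Q.card * (n ^ k) ^ m := by
        rw [e6, ← pow_mul, mul_comm m k]

/-- few unique neighbours give many repetitions -/
private theorem i1_exists {n m a k : ℕ} (hk : k + 1 = 20 * a) (ω : Fin m → Fin k → Fin n)
    (R : Finset (Fin m)) (hR : (uniq (fun i => odd (ω i)) R).card < 19 * a * R.card) :
    ∃ Q ⊆ i1W k R, (a - 1) * R.card ≤ 2 * Q.card ∧ ω ∈ i1S (n := n) R Q := by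
  set g : Fin m × Fin k → Fin n := fun p => ω p.1 p.2 with hg
  set W : Finset (Fin m × Fin k) := i1W k R with hW
  set V : Finset (Fin n) := W.image g with hV
  have hrep : ∀ v : Fin n, v ∈ V → ∃ p, p ∈ W ∧ g p = v := by
    intro v hv
    rw [hV, Finset.mem_image] at hv
    obtain ⟨p, hp1, hp2⟩ := hv
    exact ⟨p, hp1, hp2⟩
  have hWne : Nonempty (Fin m × Fin k) := by
    have hRne : 0 < R.card := by
      rcases Nat.eq_zero_or_pos R.card with h0 | h0
      · rw [h0] at hR
        omega
      · exact h0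
    obtain ⟨i, hi⟩ := Finset.card_pos.1 hRne
    have ha : 0 < a := by
      rcases Nat.eq_zero_or_pos a with h0 | h0
      · rw [h0] at hR
        omega
      · exact h0
    have : 0 < k := by omega
    exact ⟨(i, ⟨0, this⟩)⟩
  choose! rep hrep1 hrep2 using hrep
  set P0 : Finset (Fin m × Fin k) := V.image rep with hP0
  have hP0card : P0.card = V.card := by
    rw [hP0]
    apply Finset.card_image_of_injOn
    intro v hv v' hv' h
    rw [← hrep2 v hv, ← hrep2 v' hv', h]
  have hP0W : P0 ⊆ W := by
    intro p hp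
    rw [hP0, Finset.mem_image] at hp
    obtain ⟨v, hv, rfl⟩ := hp
    exact hrep1 v hv
  refine ⟨W \ P0, Finset.sdiff_subset, ?_, ?_⟩
  · have hQ : (W \ P0).card = W.card - V.card := by
      rw [Finset.card_sdiff_of_subset hP0W, hP0card]
    have hVW : V.card ≤ W.card := by
      rw [← hP0card]
      exact Finset.card_le_card hP0W
    set V1 : Finset (Fin n) := V.filter (fun v => (W.filter (fun p => g p = v)).card = 1) with hV1
    have hsub : V1 ⊆ uniq (fun i => odd (ω i)) R := by
      intro v hv
      rw [hV1, Finset.mem_filter] at hv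
      obtain ⟨hv1, hv2⟩ := hv
      rw [Finset.card_eq_one] at hv2
      obtain ⟨p, hp⟩ := hv2
      have hpm : p ∈ W.filter (fun p => g p = v) := by
        rw [hp]
        exact Finset.mem_singleton_self p
      rw [Finset.mem_filter] at hpm
      have hpR : p.1 ∈ R := by
        have := hpm.1
        rw [hW] at this
        unfold i1W at this
        exact (Finset.mem_product.1 this).1
      have huni : ∀ i ∈ R, ∀ j, ω i j = v → (i, j) = p := by
        intro i hi j hij
        have : (i, j) ∈ W.filter (fun p => g p = v) := by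
          rw [Finset.mem_filter]
          refine ⟨?_, hij⟩
          rw [hW]
          unfold i1W
          exact Finset.mem_product.2 ⟨hi, Finset.mem_univ _⟩
        rw [hp] at this
        exact Finset.mem_singleton.1 this
      unfold uniq
      rw [Finset.mem_filter]
      refine ⟨Finset.mem_univ _, ?_⟩
      rw [Finset.card_eq_one]
      refine ⟨p.1, ?_⟩
      ext i
      rw [Finset.mem_filter, Finset.mem_singleton]
      constructor
      · rintro ⟨hi, hi2⟩
        obtain ⟨j, hj⟩ := exists_of_mem_odd hi2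
        exact congrArg Prod.fst (huni i hi j hj)
      · rintro rfl
        refine ⟨hpR, ?_⟩
        unfold odd
        rw [Finset.mem_filter]
        refine ⟨Finset.mem_univ _, ?_⟩
        have : (univ.filter fun j => ω p.1 j = v) = {p.2} := by
          ext j
          rw [Finset.mem_filter, Finset.mem_singleton]
          constructor
          · rintro ⟨-, hj⟩
            exact congrArg Prod.snd (huni p.1 hpR j hj)
          · rintro rfl
            exact ⟨Finset.mem_univ _, hpm.2⟩
        rw [this, Finset.card_singleton]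
        exact odd_one
    have hcount : 2 * V.card ≤ W.card + V1.card := by
      have h1 : W.card = ∑ v ∈ V, (W.filter (fun p => g p = v)).card :=
        Finset.card_eq_sum_card_image g W
      have h2 : V1.card = ∑ v ∈ V, if (W.filter (fun p => g p = v)).card = 1 then 1 else 0 := by
        rw [hV1, Finset.card_filter]
      rw [h1, h2, ← Finset.sum_add_distrib, mul_comm]
      have h3 : V.card * 2 = ∑ v ∈ V, 2 := by
        rw [Finset.sum_const, smul_eq_mul]
      rw [h3]
      apply Finset.sum_le_sum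
      intro v hv
      have hpos : 0 < (W.filter (fun p => g p = v)).card := by
        apply Finset.card_pos.2
        exact ⟨rep v, Finset.mem_filter.2 ⟨hrep1 v hv, hrep2 v hv⟩⟩
      split_ifs with h
      · omega
      · omega
    have hV1c : V1.card ≤ (uniq (fun i => odd (ω i)) R).card := Finset.card_le_card hsub
    have hWc : W.card = R.card * k := i1_cardW R
    rw [hQ]
    have e1 : R.card * k = R.card * (20 * a - 1) := by
      congr 1
      omega
    obtain ⟨a', rfl⟩ : ∃ a', a = a' + 1 := ⟨a - 1, by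
      have : 0 < a := by
        rcases Nat.eq_zero_or_pos a with h0 | h0
        · rw [h0] at hR
          omega
        · exact h0
      omega⟩
    have e2 : 20 * (a' + 1) - 1 = 19 * (a' + 1) + a' := by omega
    have e3 : R.card * k = 19 * (a' + 1) * R.card + a' * R.card := by
      rw [e1, e2]
      ring
    have e4 : a' + 1 - 1 = a' := by omega
    rw [e4]
    omega
  · unfold i1S
    rw [Finset.mem_filter]
    refine ⟨Finset.mem_univ _, ?_⟩
    intro q hq
    rw [Finset.mem_sdiff] at hq
    have hgV : g q ∈ V := by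
      rw [hV]
      exact Finset.mem_image_of_mem g hq.1
    refine ⟨rep (g q), hrep1 _ hgV, ?_, ?_⟩
    · rw [Finset.mem_sdiff]
      intro h
      apply h.2
      rw [hP0]
      exact Finset.mem_image_of_mem rep hgV
    · have := hrep2 _ hgV
      exact this.symm

private theorem i1_pow (y : ℝ) (hy : 0 ≤ y) (m : ℕ) (h : 2 * (m * y) ≤ 1) (j : ℕ) (hj : j ≤ m) :
    (1 + y) ^ j ≤ 1 + 2 * (j * y) := by
  induction j with
  | zero => simp
  | succ j ih =>
    have ih' := ih (by omega)
    have h1 : 2 * ((j : ℝ) * y) ≤ 1 := by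
      have : (j : ℝ) ≤ m := by exact_mod_cast (by omega : j ≤ m)
      have := mul_le_mul_of_nonneg_right this hy
      linarith
    calc (1 + y) ^ (j + 1) = (1 + y) ^ j * (1 + y) := pow_succ _ _
      _ ≤ (1 + 2 * (j * y)) * (1 + y) := mul_le_mul_of_nonneg_right ih' (by linarith)
      _ ≤ 1 + 2 * (((j + 1 : ℕ) : ℝ) * y) := by
        push_cast
        nlinarith

/-- PROOF. Let `R` be a set of `t ≥ 1` indices with less than `19 a t` unique neighbours, `t ≤ r`. Look at
the `k t` positions `(i, j)`, `i ∈ R`. A value which occurs exactly once is a unique neighbour. So the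
number of distinct values is at most `(k t + 19 a t) / 2`, and with `k = 20 a - 1` the positions whose
value occurs at an earlier position (or: at a position outside the set `Q` of these positions) are at
least `(a - 1) t / 2`. For given `R` and `Q` (`2^(k t)` sets) the number of such `ω` is at most
`(k t)^|Q| * n^(k m - |Q|)`. Since `k t ≤ n / 2^100` this gives the share
`2^(20 a t) * 2^(-50 (a-1) t) ≤ 2^(-25 a t)` (`a ≥ 20`), times `m^t ≤ 2^(2 a t)` sets `R`, and the sum
over `t ≥ 1` is less than `1/16`. -/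
theorem bad_expand {n m a r k : ℕ} (ha : 120 ≤ a) (hk : k + 1 = 20 * a) (hm : m ≤ 2 ^ (2 * a))
    (hr : 2 ^ 100 * (20 * a * r) ≤ n) :
    16 * (univ.filter fun ω : Fin m → Fin k → Fin n => ∃ R : Finset (Fin m), R.card ≤ r ∧
      (uniq (fun i => odd (ω i)) R).card < 19 * a * R.card).card ≤ (n ^ k) ^ m := by
  set N : ℕ := (n ^ k) ^ m with hN
  set B : Finset (Fin m → Fin k → Fin n) := univ.filter fun ω : Fin m → Fin k → Fin n =>
    ∃ R : Finset (Fin m), R.card ≤ r ∧ (uniq (fun i => odd (ω i)) R).card < 19 * a * R.card with hB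
  have hk0 : 0 < k := by omega
  -- the sets which occur
  set RR : Finset (Finset (Fin m)) := univ.filter fun R : Finset (Fin m) => R ≠ ∅ ∧ R.card ≤ r with hRR
  have hcov : B ⊆ RR.biUnion fun R => ((i1W k R).powerset.filter fun Q =>
      (a - 1) * R.card ≤ 2 * Q.card).biUnion fun Q => i1S (n := n) R Q := by
    intro ω hω
    rw [hB, Finset.mem_filter] at hω
    obtain ⟨-, R, hR1, hR2⟩ := hω
    obtain ⟨Q, hQ1, hQ2, hQ3⟩ := i1_exists hk ω R hR2
    rw [Finset.mem_biUnion]
    refine ⟨R, ?_, ?_⟩
    · rw [hRR, Finset.mem_filter]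
      refine ⟨Finset.mem_univ _, ?_, hR1⟩
      rintro rfl
      rw [Finset.card_empty] at hR2
      omega
    · rw [Finset.mem_biUnion]
      refine ⟨Q, ?_, hQ3⟩
      rw [Finset.mem_filter, Finset.mem_powerset]
      exact ⟨hQ1, hQ2⟩
  -- the bound for one pair
  have hone : ∀ R ∈ RR, ∀ Q ∈ (i1W k R).powerset.filter (fun Q => (a - 1) * R.card ≤ 2 * Q.card),
      2 ^ (50 * (a - 1) * R.card) * (i1S (n := n) R Q).card ≤ N := by
    intro R hR Q hQ
    rw [hRR, Finset.mem_filter] at hR
    obtain ⟨-, hR0, hR1⟩ := hR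
    rw [Finset.mem_filter] at hQ
    have hRpos : 0 < R.card := Finset.card_pos.2 (Finset.nonempty_iff_ne_empty.2 hR0)
    have h1 := i1_cardS (n := n) R Q
    have h2 : 2 ^ 100 * (R.card * k) ≤ n := by
      have : R.card * k ≤ 20 * a * r := by
        calc R.card * k ≤ r * (20 * a) := Nat.mul_le_mul hR1 (by omega)
          _ = 20 * a * r := by ring
      exact le_trans (Nat.mul_le_mul_left _ this) hr
    have h3 : (2 ^ 100 * (R.card * k)) ^ Q.card ≤ n ^ Q.card := Nat.pow_le_pow_left h2 _
    rw [mul_pow] at h3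
    have hpos : 0 < (R.card * k) ^ Q.card := by positivity
    have h4 : (R.card * k) ^ Q.card * ((2 ^ 100) ^ Q.card * (i1S (n := n) R Q).card)
        ≤ (R.card * k) ^ Q.card * N := by
      calc (R.card * k) ^ Q.card * ((2 ^ 100) ^ Q.card * (i1S (n := n) R Q).card)
          = ((2 ^ 100) ^ Q.card * (R.card * k) ^ Q.card) * (i1S (n := n) R Q).card := by ring
        _ ≤ n ^ Q.card * (i1S (n := n) R Q).card := Nat.mul_le_mul_right _ h3
        _ ≤ (R.card * k) ^ Q.card * N := h1
    have h5 := Nat.le_of_mul_le_mul_left h4 hpos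
    have h6 : 2 ^ (50 * (a - 1) * R.card) ≤ (2 ^ 100) ^ Q.card := by
      rw [← pow_mul]
      apply Nat.pow_le_pow_right (by norm_num)
      have := hQ.2
      calc 50 * (a - 1) * R.card = 50 * ((a - 1) * R.card) := by ring
        _ ≤ 50 * (2 * Q.card) := Nat.mul_le_mul_left _ this
        _ = 100 * Q.card := by ring
    exact le_trans (Nat.mul_le_mul_right _ h6) h5
  -- the sum
  set y : ℝ := 2 ^ k / 2 ^ (50 * (a - 1)) with hy
  have hy0 : 0 ≤ y := by positivity
  have hsumR : (B.card : ℝ) ≤ ∑ R ∈ RR, (N : ℝ) * y ^ R.card := by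
    have h1 : B.card ≤ ∑ R ∈ RR, ∑ Q ∈ (i1W k R).powerset.filter
        (fun Q => (a - 1) * R.card ≤ 2 * Q.card), (i1S (n := n) R Q).card := by
      refine le_trans (Finset.card_le_card hcov) ?_
      refine le_trans Finset.card_biUnion_le ?_
      exact Finset.sum_le_sum fun R _ => Finset.card_biUnion_le
    have h2 : (B.card : ℝ) ≤ ∑ R ∈ RR, ∑ Q ∈ (i1W k R).powerset.filter
        (fun Q => (a - 1) * R.card ≤ 2 * Q.card), ((i1S (n := n) R Q).card : ℝ) := by
      exact_mod_cast h1
    refine le_trans h2 ?_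
    apply Finset.sum_le_sum
    intro R hR
    have h3 : ∀ Q ∈ (i1W k R).powerset.filter (fun Q => (a - 1) * R.card ≤ 2 * Q.card),
        ((i1S (n := n) R Q).card : ℝ) ≤ (N : ℝ) / (2 ^ (50 * (a - 1))) ^ R.card := by
      intro Q hQ
      rw [le_div_iff₀ (by positivity)]
      have := hone R hR Q hQ
      have h4 : ((2 ^ (50 * (a - 1) * R.card) * (i1S (n := n) R Q).card : ℕ) : ℝ) ≤ (N : ℝ) := by
        exact_mod_cast this
      push_cast at h4
      rw [← pow_mul]
      linarith [h4, mul_comm ((2 : ℝ) ^ (50 * (a - 1) * R.card)) ((i1S (n := n) R Q).card : ℝ)]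
    refine le_trans (Finset.sum_le_sum h3) ?_
    rw [Finset.sum_const, nsmul_eq_mul]
    have h5 : (((i1W k R).powerset.filter (fun Q => (a - 1) * R.card ≤ 2 * Q.card)).card : ℝ)
        ≤ (2 ^ k) ^ R.card := by
      have h6 : ((i1W k R).powerset.filter (fun Q => (a - 1) * R.card ≤ 2 * Q.card)).card
          ≤ 2 ^ (R.card * k) := by
        refine le_trans (Finset.card_filter_le _ _) ?_
        rw [Finset.card_powerset, i1_cardW]
      have h7 : (((i1W k R).powerset.filter (fun Q => (a - 1) * R.card ≤ 2 * Q.card)).card : ℝ)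
          ≤ ((2 ^ (R.card * k) : ℕ) : ℝ) := by exact_mod_cast h6
      refine le_trans h7 ?_
      push_cast
      rw [← pow_mul, mul_comm k]
    calc (((i1W k R).powerset.filter (fun Q => (a - 1) * R.card ≤ 2 * Q.card)).card : ℝ)
          * ((N : ℝ) / (2 ^ (50 * (a - 1))) ^ R.card)
        ≤ (2 ^ k) ^ R.card * ((N : ℝ) / (2 ^ (50 * (a - 1))) ^ R.card) :=
          mul_le_mul_of_nonneg_right h5 (by positivity)
      _ = (N : ℝ) * y ^ R.card := by
          rw [hy, div_pow]
          ring
  have hsum2 : ∑ R ∈ RR, (N : ℝ) * y ^ R.card ≤ (N : ℝ) * ((1 + y) ^ m - 1) := by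
    rw [← Finset.mul_sum]
    apply mul_le_mul_of_nonneg_left _ (by positivity)
    have h1 : ∑ R : Finset (Fin m), y ^ R.card = (1 + y) ^ m := by
      have := Finset.sum_pow_mul_eq_add_pow y 1 (univ : Finset (Fin m))
      simp only [one_pow, mul_one, Finset.card_univ, Fintype.card_fin, Finset.powerset_univ] at this
      rw [this, add_comm]
    have h2 : RR ⊆ univ.erase (∅ : Finset (Fin m)) := by
      intro R hR
      rw [hRR, Finset.mem_filter] at hR
      rw [Finset.mem_erase]
      exact ⟨hR.2.1, Finset.mem_univ _⟩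
    have h3 : ∑ R ∈ RR, y ^ R.card ≤ ∑ R ∈ univ.erase (∅ : Finset (Fin m)), y ^ R.card :=
      Finset.sum_le_sum_of_subset_of_nonneg h2 (fun _ _ _ => by positivity)
    have h4 : y ^ (∅ : Finset (Fin m)).card + ∑ R ∈ univ.erase (∅ : Finset (Fin m)), y ^ R.card
        = ∑ R : Finset (Fin m), y ^ R.card :=
      Finset.add_sum_erase univ (fun R : Finset (Fin m) => y ^ R.card) (Finset.mem_univ ∅)
    rw [Finset.card_empty, pow_zero] at h4
    linarith
  have hmy : 32 * ((m : ℝ) * y) ≤ 1 := by
    have h1 : (m : ℝ) ≤ 2 ^ (2 * a) := by exact_mod_cast hm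
    have h2 : (m : ℝ) * y ≤ 2 ^ (2 * a) * y := mul_le_mul_of_nonneg_right h1 hy0
    have h3 : 32 * ((2 : ℝ) ^ (2 * a) * y) ≤ 1 := by
      rw [hy, ← mul_div_assoc, ← mul_div_assoc, div_le_one (by positivity), ← pow_add]
      have e : (32 : ℝ) * 2 ^ (2 * a + k) = 2 ^ (5 + (2 * a + k)) := by
        rw [pow_add (2 : ℝ) 5]
        norm_num
      rw [e]
      apply pow_le_pow_right₀ (by norm_num)
      omega
    linarith
  have hpw := i1_pow y hy0 m (by linarith) m le_rfl
  have hfin : (16 : ℝ) * B.card ≤ N := by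
    have h1 : (B.card : ℝ) ≤ (N : ℝ) * ((1 + y) ^ m - 1) := le_trans hsumR hsum2
    have h2 : (N : ℝ) * ((1 + y) ^ m - 1) ≤ (N : ℝ) * (1 / 16) := by
      apply mul_le_mul_of_nonneg_left _ (by positivity)
      linarith
    linarith
  exact_mod_cast hfin

end Pool.Agent.Lib.MP_e81270_lc_SR
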