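import Pool.Agent.Lib.MP_e81270_lc_SR.Basic
import Pool.Agent.Lib.MP_e81270_lc_SR.I0c
import Pool.Agent.Lib.MP_e81270_lc_SR.I0d

/-!
Random systems are injective.
-/

set_option autoImplicit false
set_option linter.unusedSectionVars false
set_option linter.unusedVariables false

namespace Pool.Agent.Lib.MP_e81270_lc_SR

open Finset
open scoped symmDiff Classical

/-- union bound over the vectors -/
private lemma inj_union (n m k : ℕ) :
    (univ.filter fun ω : Fin m → Fin k → Fin n => ∃ v : Fin n → ZMod 2, v ≠ 0 ∧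
      ∀ i, ∑ j, v (ω i j) = 0).card ≤ ∑ v ∈ univ.filter (fun v : Fin n → ZMod 2 => v ≠ 0),
        (univ.filter fun T : Fin k → Fin n => ∑ j, v (T j) = 0).card ^ m := by
  have hsub : (univ.filter fun ω : Fin m → Fin k → Fin n => ∃ v : Fin n → ZMod 2, v ≠ 0 ∧
      ∀ i, ∑ j, v (ω i j) = 0) ⊆ (univ.filter (fun v : Fin n → ZMod 2 => v ≠ 0)).biUnion fun v =>
        Fintype.piFinset fun _ : Fin m =>
          (univ.filter fun T : Fin k → Fin n => ∑ j, v (T j) = 0) := by
    intro ω hω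
    rw [Finset.mem_filter] at hω
    obtain ⟨-, v, hv, h⟩ := hω
    rw [Finset.mem_biUnion]
    refine ⟨v, Finset.mem_filter.2 ⟨Finset.mem_univ _, hv⟩, ?_⟩
    rw [Fintype.mem_piFinset]
    intro i
    exact Finset.mem_filter.2 ⟨Finset.mem_univ _, h i⟩
  refine (Finset.card_le_card hsub).trans
    (Finset.card_biUnion_le.trans (Finset.sum_le_sum fun v _ => ?_))
  rw [Fintype.card_piFinset_const]

/-- the generating function of the number of nonzero entries -/
private lemma sum_pow_weight (n : ℕ) (q : ℝ) :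
    ∑ v : Fin n → ZMod 2, q ^ (univ.filter fun x => v x ≠ 0).card = (1 + q) ^ n := by
  have h1 : ∀ v : Fin n → ZMod 2, q ^ (univ.filter fun x => v x ≠ 0).card
      = ∏ x, (if v x = 0 then 1 else q) := by
    intro v
    rw [← Finset.prod_const, Finset.prod_filter]
    refine Finset.prod_congr rfl fun x _ => ?_
    by_cases h : v x = 0 <;> simp [h]
  have h2 := Finset.prod_univ_sum (fun _ : Fin n => (univ : Finset (ZMod 2)))
    (fun _ z => if z = 0 then (1 : ℝ) else q)
  rw [Fintype.piFinset_univ] at h2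
  rw [Finset.sum_congr rfl fun v _ => h1 v, ← h2]
  have h3 : ∑ z : ZMod 2, (if z = 0 then (1 : ℝ) else q) = 1 + q := by
    have : (univ : Finset (ZMod 2)) = {0, 1} := by decide
    rw [this, Finset.sum_pair (by decide)]
    simp
  rw [h3, Finset.prod_const, Finset.card_univ, Fintype.card_fin]

/-- the power estimate -/
private lemma pow_est {t y : ℝ} {k : ℕ} (hk : Odd k) (hy : 0 ≤ y) (ht : t = 1 - y / k) :
    t ^ k ≤ 1 / (1 + y) := by
  have hk0 : (0 : ℝ) < k := by
    have := hk.pos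
    exact_mod_cast this
  rcases le_or_gt t 0 with h | h
  · exact (hk.pow_nonpos h).trans (by positivity)
  · have h1 : t ≤ Real.exp (-(y / k)) := by
      have := Real.add_one_le_exp (-(y / k))
      rw [ht]
      linarith
    have h2 : t ^ k ≤ Real.exp (-y) := by
      calc t ^ k ≤ (Real.exp (-(y / k))) ^ k := pow_le_pow_left₀ h.le h1 k
        _ = Real.exp (-y) := by
          rw [← Real.exp_nat_mul]
          congr 1
          field_simp
    refine h2.trans ?_
    rw [Real.exp_neg, ← one_div]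
    apply one_div_le_one_div_of_le (by positivity)
    have := Real.add_one_le_exp y
    linarith

/-- the share of the systems for one vector -/
private lemma share {n m a k : ℕ} (ha : 120 ≤ a) (hk : k + 1 = 20 * a) (hn' : 2 * k ≤ n)
    (hm : 16 * n ≤ m) (v : Fin n → ZMod 2) (hv : v ≠ 0) :
    (((univ.filter fun T : Fin k → Fin n => ∑ j, v (T j) = 0).card ^ m : ℕ) : ℝ)
      ≤ ((1 / 64) ^ n + (Real.exp (-(8 * k))) ^ (univ.filter fun x => v x ≠ 0).card)
        * ((n ^ k) ^ m : ℕ) := by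
  have hn0 : 0 < n := by omega
  have hnR : (0 : ℝ) < n := by exact_mod_cast hn0
  have hk0 : 0 < k := by omega
  have hkR : (0 : ℝ) < k := by exact_mod_cast hk0
  have hodd : Odd k := ⟨10 * a - 1, by omega⟩
  obtain ⟨s, hs⟩ : ∃ s, s = (univ.filter fun x => v x ≠ 0).card := ⟨_, rfl⟩
  obtain ⟨N, hN⟩ : ∃ N, N = (univ.filter fun T : Fin k → Fin n => ∑ j, v (T j) = 0).card := ⟨_, rfl⟩
  have h2 := two_mul_card_zero_sum (k := k) v
  rw [← hs, ← hN] at h2
  rw [← hs, ← hN]
  have h2R : (2 * N : ℝ) = (n : ℝ) ^ k + ((n : ℝ) - 2 * s) ^ k := by exact_mod_cast h2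
  -- the quotient
  obtain ⟨y, hy⟩ : ∃ y : ℝ, y = 2 * s * k / n := ⟨_, rfl⟩
  have hy0 : 0 ≤ y := by rw [hy]; positivity
  have h3 : ((n : ℝ) - 2 * s) = n * (1 - y / k) := by
    rw [hy]
    field_simp
  have h4 : (1 - y / k) ^ k ≤ 1 / (1 + y) := pow_est hodd hy0 rfl
  rw [h3, mul_pow] at h2R
  have hnk : (0 : ℝ) < (n : ℝ) ^ k := by positivity
  have h5 : (N : ℝ) ≤ (1 / 2 + 1 / (1 + y) / 2) * (n : ℝ) ^ k := by
    have := mul_le_mul_of_nonneg_left h4 hnk.le
    linarith
  have hN0 : (0 : ℝ) ≤ N := Nat.cast_nonneg _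
  push_cast
  rcases le_or_gt 1 y with h | h
  · -- many nonzero entries
    have h6 : 1 / (1 + y) ≤ 1 / 2 := one_div_le_one_div_of_le (by norm_num) (by linarith)
    have h7 : (N : ℝ) ≤ 3 / 4 * (n : ℝ) ^ k := by
      refine h5.trans (mul_le_mul_of_nonneg_right (by linarith) hnk.le)
    have h8 : (N : ℝ) ^ m ≤ (3 / 4) ^ m * ((n : ℝ) ^ k) ^ m := by
      rw [← mul_pow]
      exact pow_le_pow_left₀ hN0 h7 m
    refine h8.trans (mul_le_mul_of_nonneg_right ?_ (by positivity))
    have h9 : ((3 : ℝ) / 4) ^ m ≤ (1 / 64) ^ n := by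
      calc ((3 : ℝ) / 4) ^ m ≤ (3 / 4) ^ (16 * n) :=
            pow_le_pow_of_le_one (by norm_num) (by norm_num) hm
        _ = ((3 / 4) ^ 16) ^ n := by rw [pow_mul]
        _ ≤ (1 / 64) ^ n := pow_le_pow_left₀ (by norm_num) (by norm_num) n
    have h10 : 0 ≤ Real.exp (-(8 * k)) ^ s := by positivity
    linarith
  · -- few nonzero entries
    have h6 : 1 / (1 + y) ≤ 1 - y / 2 := by
      rw [div_le_iff₀ (by linarith)]
      nlinarith
    have h7 : (N : ℝ) ≤ Real.exp (-(y / 4)) * (n : ℝ) ^ k := by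
      refine h5.trans (mul_le_mul_of_nonneg_right ?_ hnk.le)
      have := Real.add_one_le_exp (-(y / 4))
      linarith
    have h8 : (N : ℝ) ^ m ≤ Real.exp (-(y / 4)) ^ m * ((n : ℝ) ^ k) ^ m := by
      rw [← mul_pow]
      exact pow_le_pow_left₀ hN0 h7 m
    refine h8.trans (mul_le_mul_of_nonneg_right ?_ (by positivity))
    have h9 : Real.exp (-(y / 4)) ^ m ≤ Real.exp (-(8 * k)) ^ s := by
      rw [← Real.exp_nat_mul, ← Real.exp_nat_mul]
      apply Real.exp_le_exp.2
      have hmR : (16 * n : ℝ) ≤ m := by exact_mod_cast hm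
      have h10 : (s : ℝ) * (8 * k) = (16 * n) * (y / 4) := by
        rw [hy]
        field_simp
        ring
      have h11 : (16 * n : ℝ) * (y / 4) ≤ m * (y / 4) :=
        mul_le_mul_of_nonneg_right hmR (by positivity)
      linarith
    have h10 : (0 : ℝ) ≤ (1 / 64) ^ n := by positivity
    linarith

/-- PROOF. For `v ≠ 0` with `s` nonzero entries the share of the tuples `T` with `∑ j, v (T j) = 0` is
`(1 + (1 - 2 s / n)^k) / 2` (`two_mul_card_zero_sum`), `k` odd. If `2 s k ≥ n` it is at most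
`(1 + exp (-1)) / 2 ≤ 3/4` (for `2 s > n` the power is negative): the share of the `ω` is at most
`(3/4)^m ≤ 2^(-6 n)`, times `2^n` vectors. If `2 s k < n` it is at most `1 - s k / (2 n)`, the share of
the `ω` is at most `exp (- m s k / (2 n)) ≤ exp (- 8 s k) ≤ 2^(-100 a s)`, times at most
`n^s ≤ 2^(a s)` vectors for every `s ≥ 1`. -/
theorem bad_inj {n m a k : ℕ} (ha : 120 ≤ a) (hk : k + 1 = 20 * a) (hn : n ≤ 2 ^ a) (hn' : 2 * k ≤ n)
    (hm : 16 * n ≤ m) :
    16 * (univ.filter fun ω : Fin m → Fin k → Fin n => ∃ v : Fin n → ZMod 2, v ≠ 0 ∧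
      ∀ i, ∑ j, v (ω i j) = 0).card ≤ (n ^ k) ^ m := by
  have hn0 : 0 < n := by omega
  obtain ⟨q, hq⟩ : ∃ q, q = Real.exp (-(8 * k)) := ⟨_, rfl⟩
  have hq0 : 0 < q := by rw [hq]; exact Real.exp_pos _
  have hM : (0 : ℝ) ≤ ((n ^ k) ^ m : ℕ) := Nat.cast_nonneg _
  -- the sum of the weights
  have h1 : ∑ v ∈ univ.filter (fun v : Fin n → ZMod 2 => v ≠ 0),
      (((1 : ℝ) / 64) ^ n + q ^ (univ.filter fun x => v x ≠ 0).card)
      ≤ (1 / 32) ^ n + ((1 + q) ^ n - 1) := by
    rw [Finset.sum_add_distrib]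
    refine add_le_add ?_ ?_
    · rw [Finset.sum_const, nsmul_eq_mul]
      have h2 : ((univ.filter (fun v : Fin n → ZMod 2 => v ≠ 0)).card : ℝ) ≤ 2 ^ n := by
        have h3 : (univ.filter (fun v : Fin n → ZMod 2 => v ≠ 0)).card ≤ 2 ^ n := by
          refine (Finset.card_le_univ _).trans ?_
          rw [Fintype.card_fun, Fintype.card_fin, ZMod.card]
        exact_mod_cast h3
      calc ((univ.filter (fun v : Fin n → ZMod 2 => v ≠ 0)).card : ℝ) * (1 / 64) ^ n
          ≤ 2 ^ n * (1 / 64) ^ n := mul_le_mul_of_nonneg_right h2 (by positivity)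
        _ = (1 / 32) ^ n := by rw [← mul_pow]; norm_num
    · have h2 := sum_pow_weight n q
      have h3 : ∑ v ∈ univ.filter (fun v : Fin n → ZMod 2 => v ≠ 0),
          q ^ (univ.filter fun x => v x ≠ 0).card
          + ∑ v ∈ univ.filter (fun v : Fin n → ZMod 2 => ¬ v ≠ 0),
            q ^ (univ.filter fun x => v x ≠ 0).card = (1 + q) ^ n := by
        rw [Finset.sum_filter_add_sum_filter_not, h2]
      have h4 : (univ.filter (fun v : Fin n → ZMod 2 => ¬ v ≠ 0)) = {0} := by
        ext v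
        simp
      rw [h4, Finset.sum_singleton] at h3
      have h5 : (univ.filter fun x => (0 : Fin n → ZMod 2) x ≠ 0).card = 0 := by
        simp
      rw [h5, pow_zero] at h3
      linarith
  -- numbers
  have h2 : ((1 : ℝ) / 32) ^ n ≤ 1 / 32 := by
    calc ((1 : ℝ) / 32) ^ n ≤ (1 / 32) ^ 1 :=
          pow_le_pow_of_le_one (by norm_num) (by norm_num) hn0
      _ = 1 / 32 := pow_one _
  have h3 : (n : ℝ) * q ≤ 1 / 128 := by
    have hnR : (n : ℝ) ≤ Real.exp a := by
      have h4 : (n : ℝ) ≤ 2 ^ a := by exact_mod_cast hn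
      have h5 : (2 : ℝ) ^ a ≤ Real.exp 1 ^ a := by
        refine pow_le_pow_left₀ (by norm_num) ?_ a
        have := Real.add_one_le_exp 1
        linarith
      rw [← Real.exp_nat_mul, mul_one] at h5
      exact h4.trans h5
    have h6 : (n : ℝ) * q ≤ Real.exp (a + -(8 * k)) := by
      rw [Real.exp_add, hq]
      exact mul_le_mul_of_nonneg_right hnR (Real.exp_pos _).le
    have h7 : (a : ℝ) + -(8 * k) ≤ -127 := by
      have h8 : (a + 127 : ℕ) ≤ 8 * k := by omega
      have h9 : ((a + 127 : ℕ) : ℝ) ≤ ((8 * k : ℕ) : ℝ) := by exact_mod_cast h8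
      push_cast at h9
      linarith
    have h8 : Real.exp (a + -(8 * k)) ≤ Real.exp (-127) := Real.exp_le_exp.2 h7
    have h9 : Real.exp (-127) ≤ 1 / 128 := by
      rw [Real.exp_neg, ← one_div]
      apply one_div_le_one_div_of_le (by norm_num)
      have := Real.add_one_le_exp 127
      linarith
    exact h6.trans (h8.trans h9)
  have h4 : (1 + q) ^ n - 1 ≤ 1 / 32 := by
    have h5 : (1 + q) ^ n ≤ Real.exp (n * q) := by
      rw [Real.exp_nat_mul]
      refine pow_le_pow_left₀ (by positivity) ?_ n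
      have := Real.add_one_le_exp q
      linarith
    have h6 : Real.exp (n * q) ≤ Real.exp (1 / 128) := Real.exp_le_exp.2 h3
    have h7 : Real.exp (1 / 128) ≤ 1 + 1 / 32 := by
      have h8 : (1 : ℝ) - 1 / 128 ≤ Real.exp (-(1 / 128)) := by
        have := Real.add_one_le_exp (-(1 / 128) : ℝ)
        linarith
      have h9 : Real.exp (1 / 128) * Real.exp (-(1 / 128)) = 1 := by
        rw [← Real.exp_add]
        simp
      have h10 : 0 < Real.exp (1 / 128) := Real.exp_pos _
      nlinarith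
    linarith
  -- assembly
  have h5 := inj_union n m k
  have h6 : ((univ.filter fun ω : Fin m → Fin k → Fin n => ∃ v : Fin n → ZMod 2, v ≠ 0 ∧
      ∀ i, ∑ j, v (ω i j) = 0).card : ℝ) ≤ (1 / 16) * ((n ^ k) ^ m : ℕ) := by
    calc ((univ.filter fun ω : Fin m → Fin k → Fin n => ∃ v : Fin n → ZMod 2, v ≠ 0 ∧
          ∀ i, ∑ j, v (ω i j) = 0).card : ℝ)
        ≤ ((∑ v ∈ univ.filter (fun v : Fin n → ZMod 2 => v ≠ 0),
            (univ.filter fun T : Fin k → Fin n => ∑ j, v (T j) = 0).card ^ m : ℕ) : ℝ) := by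
          exact_mod_cast h5
      _ = ∑ v ∈ univ.filter (fun v : Fin n → ZMod 2 => v ≠ 0),
            (((univ.filter fun T : Fin k → Fin n => ∑ j, v (T j) = 0).card ^ m : ℕ) : ℝ) := by
          push_cast
          rfl
      _ ≤ ∑ v ∈ univ.filter (fun v : Fin n → ZMod 2 => v ≠ 0),
            ((1 / 64) ^ n + q ^ (univ.filter fun x => v x ≠ 0).card) * ((n ^ k) ^ m : ℕ) := by
          refine Finset.sum_le_sum fun v hv => ?_
          rw [Finset.mem_filter] at hv
          have := share ha hk hn' hm v hv.2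
          rw [← hq] at this
          exact this
      _ = (∑ v ∈ univ.filter (fun v : Fin n → ZMod 2 => v ≠ 0),
            ((1 / 64) ^ n + q ^ (univ.filter fun x => v x ≠ 0).card)) * ((n ^ k) ^ m : ℕ) := by
          rw [Finset.sum_mul]
      _ ≤ (1 / 16) * ((n ^ k) ^ m : ℕ) := by
          refine mul_le_mul_of_nonneg_right ?_ hM
          linarith
  have h7 : ((16 * (univ.filter fun ω : Fin m → Fin k → Fin n => ∃ v : Fin n → ZMod 2, v ≠ 0 ∧
      ∀ i, ∑ j, v (ω i j) = 0).card : ℕ) : ℝ) ≤ ((n ^ k) ^ m : ℕ) := by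
    push_cast at h6 ⊢
    linarith
  exact_mod_cast h7

end Pool.Agent.Lib.MP_e81270_lc_SR
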