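import Pool.Agent.Lib.MP_e81270_lc_SR.Basic
import Pool.Agent.Lib.MP_e81270_lc_SR.I0a
import Pool.Agent.Lib.MP_e81270_lc_SR.I0d

/-!
Random systems have small codegrees.
-/

set_option autoImplicit false
set_option linter.unusedSectionVars false
set_option linter.unusedVariables false

namespace Pool.Agent.Lib.MP_e81270_lc_SR

open Finset
open scoped symmDiff Classical

private lemma I3_pair {n k : ℕ} (x y : Fin n) (j j' : Fin k) (hj : j ≠ j') :
    (univ.filter fun t : Fin k → Fin n => t j = x ∧ t j' = y).card * n ^ 2 ≤ n ^ k := by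
  have h1 : ((univ.filter fun t : Fin k → Fin n => t j = x ∧ t j' = y) ×ˢ
      (univ : Finset (Fin n × Fin n))).card ≤ (univ : Finset (Fin k → Fin n)).card := by
    refine Finset.card_le_card_of_injOn
      (fun p => Function.update (Function.update p.1 j p.2.1) j' p.2.2)
      (fun p _ => Finset.mem_coe.2 (Finset.mem_univ _)) ?_
    rintro ⟨t, a, b⟩ hp ⟨t', a', b'⟩ hq heq
    have hp' := (Finset.mem_filter.1 (Finset.mem_product.1 (Finset.mem_coe.1 hp)).1).2
    have hq' := (Finset.mem_filter.1 (Finset.mem_product.1 (Finset.mem_coe.1 hq)).1).2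
    have heq' : Function.update (Function.update t j a) j' b
      = Function.update (Function.update t' j a') j' b' := heq
    have hb : b = b' := by
      have := congrFun heq' j'
      rwa [Function.update_self, Function.update_self] at this
    have ha : a = a' := by
      have := congrFun heq' j
      rwa [Function.update_of_ne hj, Function.update_of_ne hj, Function.update_self,
        Function.update_self] at this
    have ht : t = t' := by
      funext l
      by_cases h1 : l = j'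
      · rw [h1]
        exact hp'.2.trans hq'.2.symm
      · by_cases h2 : l = j
        · rw [h2]
          exact hp'.1.trans hq'.1.symm
        · have := congrFun heq' l
          rwa [Function.update_of_ne h1, Function.update_of_ne h1, Function.update_of_ne h2,
            Function.update_of_ne h2] at this
    rw [ha, hb, ht]
  rw [Finset.card_product, Finset.card_univ, Finset.card_univ, Fintype.card_prod,
    Fintype.card_fin, Fintype.card_fun, Fintype.card_fin, Fintype.card_fin, ← pow_two] at h1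
  exact h1

private lemma I3_B {n k : ℕ} (x y : Fin n) (hxy : x ≠ y) :
    (univ.filter fun t : Fin k → Fin n => x ∈ odd t ∧ y ∈ odd t).card * n ^ 2
      ≤ k ^ 2 * n ^ k := by
  have h1 : (univ.filter fun t : Fin k → Fin n => x ∈ odd t ∧ y ∈ odd t)
      ⊆ ((univ : Finset (Fin k × Fin k)).filter fun p => p.1 ≠ p.2).biUnion
        fun p => univ.filter fun t : Fin k → Fin n => t p.1 = x ∧ t p.2 = y := by
    intro t ht
    rw [Finset.mem_filter] at ht
    obtain ⟨j, hj⟩ := exists_of_mem_odd ht.2.1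
    obtain ⟨j', hj'⟩ := exists_of_mem_odd ht.2.2
    rw [Finset.mem_biUnion]
    refine ⟨(j, j'), Finset.mem_filter.2 ⟨Finset.mem_univ _, ?_⟩,
      Finset.mem_filter.2 ⟨Finset.mem_univ _, hj, hj'⟩⟩
    intro h
    apply hxy
    rw [← hj, ← hj']
    exact congrArg t h
  calc (univ.filter fun t : Fin k → Fin n => x ∈ odd t ∧ y ∈ odd t).card * n ^ 2
      ≤ (∑ p ∈ (univ : Finset (Fin k × Fin k)).filter fun p => p.1 ≠ p.2,
        (univ.filter fun t : Fin k → Fin n => t p.1 = x ∧ t p.2 = y).card) * n ^ 2 :=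
        Nat.mul_le_mul_right _ ((Finset.card_le_card h1).trans Finset.card_biUnion_le)
    _ = ∑ p ∈ (univ : Finset (Fin k × Fin k)).filter fun p => p.1 ≠ p.2,
        (univ.filter fun t : Fin k → Fin n => t p.1 = x ∧ t p.2 = y).card * n ^ 2 :=
        Finset.sum_mul _ _ _
    _ ≤ ∑ _p ∈ (univ : Finset (Fin k × Fin k)).filter fun p => p.1 ≠ p.2, n ^ k :=
        Finset.sum_le_sum fun p hp => I3_pair x y p.1 p.2 (Finset.mem_filter.1 hp).2
    _ = ((univ : Finset (Fin k × Fin k)).filter fun p => p.1 ≠ p.2).card * n ^ k := by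
        rw [Finset.sum_const, smul_eq_mul]
    _ ≤ k ^ 2 * n ^ k := by
        refine Nat.mul_le_mul_right _ ((Finset.card_filter_le _ _).trans ?_)
        rw [Finset.card_univ, Fintype.card_prod, Fintype.card_fin, pow_two]

/-- PROOF. For `x ≠ y` and three different indices, the share of the `ω` such that `x` and `y` occur in
all three tuples is at most `(k ^ 2 / n ^ 2) ^ 3`. -/
theorem bad_codeg {n m k : ℕ} (h : 16 * m ^ 3 * k ^ 6 ≤ n ^ 4) :
    16 * (univ.filter fun ω : Fin m → Fin k → Fin n => ∃ x y : Fin n, x ≠ y ∧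
      2 < (univ.filter fun i => x ∈ odd (ω i) ∧ y ∈ odd (ω i)).card).card ≤ (n ^ k) ^ m := by
  rcases Nat.eq_zero_or_pos n with hn | hn
  · subst hn
    have h0 : (univ.filter fun ω : Fin m → Fin k → Fin 0 => ∃ x y : Fin 0, x ≠ y ∧
      2 < (univ.filter fun i => x ∈ odd (ω i) ∧ y ∈ odd (ω i)).card) = ∅ := by
      refine Finset.filter_eq_empty_iff.2 fun ω _ hω => ?_
      obtain ⟨x, -⟩ := hω
      exact x.elim0
    rw [h0, Finset.card_empty, mul_zero]
    exact Nat.zero_le _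
  set Bad := univ.filter fun ω : Fin m → Fin k → Fin n => ∃ x y : Fin n, x ≠ y ∧
      2 < (univ.filter fun i => x ∈ odd (ω i) ∧ y ∈ odd (ω i)).card with hBad
  -- the index set
  set I : Finset ((Fin n × Fin n) × Finset (Fin m)) :=
    ((univ : Finset (Fin n × Fin n)).filter fun p => p.1 ≠ p.2) ×ˢ
      (Finset.powersetCard 3 (univ : Finset (Fin m))) with hI
  have hcov : Bad ⊆ I.biUnion fun q => univ.filter fun ω : Fin m → Fin k → Fin n =>
      ∀ i ∈ q.2, q.1.1 ∈ odd (ω i) ∧ q.1.2 ∈ odd (ω i) := by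
    intro ω hω
    rw [hBad, Finset.mem_filter] at hω
    obtain ⟨-, x, y, hxy, h3⟩ := hω
    obtain ⟨T, hT, hTc⟩ := Finset.exists_subset_card_eq (Nat.succ_le_of_lt h3)
    rw [Finset.mem_biUnion]
    refine ⟨((x, y), T), ?_, ?_⟩
    · rw [hI, Finset.mem_product]
      exact ⟨Finset.mem_filter.2 ⟨Finset.mem_univ _, hxy⟩,
        Finset.mem_powersetCard.2 ⟨Finset.subset_univ _, hTc⟩⟩
    · refine Finset.mem_filter.2 ⟨Finset.mem_univ _, fun i hi => ?_⟩
      exact (Finset.mem_filter.1 (hT hi)).2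
  have hpk : Fintype.card (Fin k → Fin n) = n ^ k := by
    rw [Fintype.card_fun, Fintype.card_fin, Fintype.card_fin]
  have hone : ∀ q ∈ I, (univ.filter fun ω : Fin m → Fin k → Fin n =>
      ∀ i ∈ q.2, q.1.1 ∈ odd (ω i) ∧ q.1.2 ∈ odd (ω i)).card * (n ^ 2) ^ 3
        ≤ (k ^ 2) ^ 3 * (n ^ k) ^ m := by
    intro q hq
    rw [hI, Finset.mem_product, Finset.mem_filter, Finset.mem_powersetCard] at hq
    obtain ⟨⟨-, hxy⟩, -, hTc⟩ := hq
    set B := (univ.filter fun t : Fin k → Fin n => q.1.1 ∈ odd t ∧ q.1.2 ∈ odd t).card with hB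
    have hBle : ∀ (i : Fin m) (ω : Fin m → Fin k → Fin n),
        (univ.filter fun t : Fin k → Fin n => q.1.1 ∈ odd (Function.update ω i t i)
          ∧ q.1.2 ∈ odd (Function.update ω i t i)).card ≤ B := by
      intro i ω
      refine Finset.card_le_card fun t ht => ?_
      rw [Finset.mem_filter, Function.update_self] at ht
      exact Finset.mem_filter.2 ht
    have h1 : (univ.filter fun ω : Fin m → Fin k → Fin n =>
        ∀ i ∈ q.2, q.1.1 ∈ odd (ω i) ∧ q.1.2 ∈ odd (ω i)).card * (n ^ k) ^ 3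
          ≤ B ^ 3 * (n ^ k) ^ m := by
      have h0 := card_forall_le (α := Fin k → Fin n) q.2
        (fun i ω => q.1.1 ∈ odd (ω i) ∧ q.1.2 ∈ odd (ω i)) B
        (fun i _ ω ω' _ h2 h3 => by rw [← h2]; exact h3)
        (fun i _ ω => by convert hBle i ω)
      rw [hTc, hpk] at h0
      convert h0
    have h2 := I3_B (k := k) q.1.1 q.1.2 hxy
    rw [← hB] at h2
    have h3 : (B * n ^ 2) ^ 3 ≤ (k ^ 2 * n ^ k) ^ 3 := Nat.pow_le_pow_left h2 3
    have hpos : 0 < (n ^ k) ^ 3 := by positivity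
    refine Nat.le_of_mul_le_mul_right (c := (n ^ k) ^ 3) ?_ hpos
    generalize (univ.filter fun ω : Fin m → Fin k → Fin n =>
      ∀ i ∈ q.2, q.1.1 ∈ odd (ω i) ∧ q.1.2 ∈ odd (ω i)).card = A at h1 ⊢
    calc A * (n ^ 2) ^ 3 * (n ^ k) ^ 3 = (A * (n ^ k) ^ 3) * (n ^ 2) ^ 3 := by ring
      _ ≤ (B ^ 3 * (n ^ k) ^ m) * (n ^ 2) ^ 3 := Nat.mul_le_mul_right _ h1
      _ = (B * n ^ 2) ^ 3 * (n ^ k) ^ m := by ring
      _ ≤ (k ^ 2 * n ^ k) ^ 3 * (n ^ k) ^ m := Nat.mul_le_mul_right _ h3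
      _ = (k ^ 2) ^ 3 * (n ^ k) ^ m * (n ^ k) ^ 3 := by ring
  have hIc : I.card ≤ n ^ 2 * m ^ 3 := by
    rw [hI, Finset.card_product, Finset.card_powersetCard, Finset.card_univ, Fintype.card_fin]
    refine Nat.mul_le_mul ((Finset.card_filter_le _ _).trans ?_) (Nat.choose_le_pow m 3)
    rw [Finset.card_univ, Fintype.card_prod, Fintype.card_fin, pow_two]
  have hmain : Bad.card * (n ^ 2) ^ 3 ≤ (n ^ 2 * m ^ 3) * ((k ^ 2) ^ 3 * (n ^ k) ^ m) := by
    calc Bad.card * (n ^ 2) ^ 3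
        ≤ (∑ q ∈ I, (univ.filter fun ω : Fin m → Fin k → Fin n =>
          ∀ i ∈ q.2, q.1.1 ∈ odd (ω i) ∧ q.1.2 ∈ odd (ω i)).card) * (n ^ 2) ^ 3 :=
          Nat.mul_le_mul_right _ ((Finset.card_le_card hcov).trans Finset.card_biUnion_le)
      _ = ∑ q ∈ I, (univ.filter fun ω : Fin m → Fin k → Fin n =>
          ∀ i ∈ q.2, q.1.1 ∈ odd (ω i) ∧ q.1.2 ∈ odd (ω i)).card * (n ^ 2) ^ 3 :=
          Finset.sum_mul _ _ _
      _ ≤ ∑ _q ∈ I, (k ^ 2) ^ 3 * (n ^ k) ^ m := Finset.sum_le_sum hone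
      _ = I.card * ((k ^ 2) ^ 3 * (n ^ k) ^ m) := by rw [Finset.sum_const, smul_eq_mul]
      _ ≤ _ := Nat.mul_le_mul_right _ hIc
  have hn6 : 0 < n ^ 6 := by positivity
  refine Nat.le_of_mul_le_mul_right (c := n ^ 6) ?_ hn6
  calc 16 * Bad.card * n ^ 6 = 16 * (Bad.card * (n ^ 2) ^ 3) := by ring
    _ ≤ 16 * ((n ^ 2 * m ^ 3) * ((k ^ 2) ^ 3 * (n ^ k) ^ m)) := Nat.mul_le_mul_left _ hmain
    _ = (16 * m ^ 3 * k ^ 6) * (n ^ 2 * (n ^ k) ^ m) := by ring
    _ ≤ n ^ 4 * (n ^ 2 * (n ^ k) ^ m) := Nat.mul_le_mul_right _ h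
    _ = (n ^ k) ^ m * n ^ 6 := by ring

end Pool.Agent.Lib.MP_e81270_lc_SR
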