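import Pool.Agent.Lib.MP_e81270_lc_SR.Basic
import Pool.Agent.Lib.MP_e81270_lc_SR.I0c
import Pool.Agent.Lib.MP_e81270_lc_SR.I0d

/-!
Random systems have large degrees.
-/

set_option autoImplicit false
set_option linter.unusedSectionVars false
set_option linter.unusedVariables false

namespace Pool.Agent.Lib.MP_e81270_lc_SR

open Finset
open scoped symmDiff Classical

/-- `x` occurs an odd number of times iff the sum of its indicator function is not zero -/
private theorem i4_mem_odd {n k : ℕ} (T : Fin k → Fin n) (x : Fin n) :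
    x ∈ odd T ↔ ¬ ∑ j, (if T j = x then (1 : ZMod 2) else 0) = 0 := by
  unfold odd
  rw [Finset.mem_filter, Finset.sum_boole]
  simp only [Finset.mem_univ, true_and]
  rw [← ZMod.natCast_ne_zero_iff_odd]

private theorem i4_pow {t : ℝ} (k : ℕ) (ht0 : 0 ≤ t) (ht1 : t ≤ 1) (hk : k * t ≤ 1) :
    (1 - t) ^ k ≤ 1 - k * t / 2 := by
  have h1 : 1 + (k : ℝ) * t ≤ (1 + t) ^ k := one_add_mul_le_pow (by linarith) k
  have h2 : (1 - t) ^ k * (1 + t) ^ k ≤ 1 := by
    rw [← mul_pow]
    exact pow_le_one₀ (by nlinarith) (by nlinarith)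
  have h3 : 0 ≤ (1 - t) ^ k := pow_nonneg (by linarith) k
  have h4 : (1 - t) ^ k * (1 + k * t) ≤ 1 := (mul_le_mul_of_nonneg_left h1 h3).trans h2
  have h5 : 0 ≤ (k : ℝ) * t := by positivity
  have h6 : 1 ≤ (1 - k * t / 2) * (1 + k * t) := by nlinarith
  have h7 : (1 - t) ^ k * (1 + k * t) ≤ (1 - k * t / 2) * (1 + k * t) := h4.trans h6
  exact le_of_mul_le_mul_right h7 (by linarith)

/-- the number of tuples which contain `x` an odd number of times, real form -/
private theorem i4_share {n k : ℕ} (hk : 1 ≤ k) (hn' : 2 * k ≤ n) (x : Fin n) :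
    (k : ℝ) / (2 * n) * (n : ℝ) ^ k ≤ ((univ.filter fun T : Fin k → Fin n => x ∈ odd T).card : ℝ) := by
  have hn0 : (0 : ℝ) < n := by
    have : 0 < n := by omega
    exact_mod_cast this
  have h1 := two_mul_card_zero_sum (n := n) (k := k) (fun y => if y = x then (1 : ZMod 2) else 0)
  have h2 : (univ.filter fun y : Fin n => (if y = x then (1 : ZMod 2) else 0) ≠ 0) = {x} := by
    ext y
    simp
  rw [h2, Finset.card_singleton] at h1
  have h3 : (univ.filter fun T : Fin k → Fin n => ∑ j, (if T j = x then (1 : ZMod 2) else 0) = 0).card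
      + (univ.filter fun T : Fin k → Fin n => x ∈ odd T).card = n ^ k := by
    have h4 := Finset.card_filter_add_card_filter_not (s := (univ : Finset (Fin k → Fin n)))
      (fun T => ∑ j, (if T j = x then (1 : ZMod 2) else 0) = 0)
    have h5 : Fintype.card (Fin k → Fin n) = n ^ k := by simp
    rw [Finset.card_univ, h5] at h4
    rw [← h4]
    congr 2
    refine Finset.filter_congr (fun T _ => ?_)
    exact i4_mem_odd T x
  have h1' : 2 * ((univ.filter fun T : Fin k → Fin n =>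
      ∑ j, (if T j = x then (1 : ZMod 2) else 0) = 0).card : ℝ) = (n : ℝ) ^ k + ((n : ℝ) - 2) ^ k := by
    have h6 : ((2 * (univ.filter fun T : Fin k → Fin n =>
      ∑ j, (if T j = x then (1 : ZMod 2) else 0) = 0).card : ℤ) : ℝ)
        = (((n : ℤ) ^ k + ((n : ℤ) - 2 * ((1 : ℕ) : ℤ)) ^ k : ℤ) : ℝ) := by
      rw [h1]
    push_cast at h6
    exact h6
  have h3' : ((univ.filter fun T : Fin k → Fin n =>
      ∑ j, (if T j = x then (1 : ZMod 2) else 0) = 0).card : ℝ)
      + ((univ.filter fun T : Fin k → Fin n => x ∈ odd T).card : ℝ) = (n : ℝ) ^ k := by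
    exact_mod_cast h3
  have hkn : 2 * (k : ℝ) ≤ n := by exact_mod_cast hn'
  have h7 := i4_pow (t := 2 / (n : ℝ)) k (by positivity)
    (by
      rw [div_le_one hn0]
      have : (1 : ℝ) ≤ k := by exact_mod_cast hk
      linarith)
    (by
      rw [← mul_div_assoc, div_le_one hn0]
      linarith)
  have h8 : ((n : ℝ) - 2) ^ k = (n : ℝ) ^ k * (1 - 2 / n) ^ k := by
    rw [← mul_pow]
    congr 1
    field_simp
  have h9 : (n : ℝ) ^ k * (1 - 2 / n) ^ k ≤ (n : ℝ) ^ k * (1 - k * (2 / n) / 2) :=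
    mul_le_mul_of_nonneg_left h7 (by positivity)
  have h10 : (k : ℝ) / (2 * n) * (n : ℝ) ^ k = (n : ℝ) ^ k * (k * (2 / n) / 2) / 2 := by
    field_simp
  rw [h10]
  rw [h8] at h1'
  nlinarith

/-- exponential moment: the number of systems in which `x` has degree less than `d` -/
private theorem i4_fixed {n m k d : ℕ} (hk : 1 ≤ k) (hn' : 2 * k ≤ n) (x : Fin n) :
    ((univ.filter fun ω : Fin m → Fin k → Fin n => (univ.filter fun i => x ∈ odd (ω i)).card < d).card : ℝ)
      ≤ 2 ^ d * (Real.exp (-(m * k / (4 * n))) * ((n : ℝ) ^ k) ^ m) := by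
  have hn0 : (0 : ℝ) < n := by
    have : 0 < n := by omega
    exact_mod_cast this
  set f : (Fin k → Fin n) → ℝ := fun T => if x ∈ odd T then 1 / 2 else 1 with hf
  have h1 : ∑ T, f T ≤ Real.exp (-(k / (4 * n))) * (n : ℝ) ^ k := by
    have h2 : ∑ T, f T = (n : ℝ) ^ k - ((univ.filter fun T : Fin k → Fin n => x ∈ odd T).card : ℝ) / 2 := by
      have h3 : ∀ T, f T = 1 - (if x ∈ odd T then (1 : ℝ) else 0) / 2 := by
        intro T
        simp only [hf]
        split_ifs <;> norm_num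
      simp only [h3]
      rw [Finset.sum_sub_distrib, ← Finset.sum_div, Finset.sum_boole]
      simp
    have h4 := i4_share (n := n) hk hn' x
    have h5 : 1 - (k : ℝ) / (4 * n) ≤ Real.exp (-(k / (4 * n))) := by
      have := Real.add_one_le_exp (-((k : ℝ) / (4 * n)))
      linarith
    have h6 : (0 : ℝ) ≤ (n : ℝ) ^ k := by positivity
    have h7 := mul_le_mul_of_nonneg_right h5 h6
    have h8 : (k : ℝ) / (4 * n) * (n : ℝ) ^ k = ((k : ℝ) / (2 * n) * (n : ℝ) ^ k) / 2 := by
      field_simp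
      ring
    rw [h2]
    have h9 : (1 - (k : ℝ) / (4 * n)) * (n : ℝ) ^ k = (n : ℝ) ^ k - (k : ℝ) / (4 * n) * (n : ℝ) ^ k := by ring
    rw [h9, h8] at h7
    linarith
  have h2 : 0 ≤ ∑ T, f T := by
    refine Finset.sum_nonneg (fun T _ => ?_)
    simp only [hf]
    split_ifs <;> norm_num
  have h3 : (∑ T, f T) ^ m ≤ Real.exp (-(m * k / (4 * n))) * ((n : ℝ) ^ k) ^ m := by
    calc (∑ T, f T) ^ m ≤ (Real.exp (-(k / (4 * n))) * (n : ℝ) ^ k) ^ m := pow_le_pow_left₀ h2 h1 m
      _ = Real.exp (-(m * k / (4 * n))) * ((n : ℝ) ^ k) ^ m := by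
        rw [mul_pow, ← Real.exp_nat_mul]
        congr 2
        ring
  have h4 : (∑ T, f T) ^ m = ∑ ω : Fin m → Fin k → Fin n,
      (1 / 2 : ℝ) ^ (univ.filter fun i => x ∈ odd (ω i)).card := by
    rw [Fintype.sum_pow]
    refine Finset.sum_congr rfl (fun ω _ => ?_)
    simp only [hf]
    rw [Finset.prod_ite]
    simp
  have h5 : ((univ.filter fun ω : Fin m → Fin k → Fin n =>
      (univ.filter fun i => x ∈ odd (ω i)).card < d).card : ℝ) * (1 / 2 : ℝ) ^ d
      ≤ ∑ ω : Fin m → Fin k → Fin n, (1 / 2 : ℝ) ^ (univ.filter fun i => x ∈ odd (ω i)).card := by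
    calc ((univ.filter fun ω : Fin m → Fin k → Fin n =>
      (univ.filter fun i => x ∈ odd (ω i)).card < d).card : ℝ) * (1 / 2 : ℝ) ^ d
        = ∑ _ω ∈ univ.filter (fun ω : Fin m → Fin k → Fin n =>
          (univ.filter fun i => x ∈ odd (ω i)).card < d), (1 / 2 : ℝ) ^ d := by
          rw [Finset.sum_const, nsmul_eq_mul]
      _ ≤ ∑ ω ∈ univ.filter (fun ω : Fin m → Fin k → Fin n =>
          (univ.filter fun i => x ∈ odd (ω i)).card < d),
            (1 / 2 : ℝ) ^ (univ.filter fun i => x ∈ odd (ω i)).card := by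
          refine Finset.sum_le_sum (fun ω hω => ?_)
          exact pow_le_pow_of_le_one (by norm_num) (by norm_num) (Finset.mem_filter.1 hω).2.le
      _ ≤ _ := Finset.sum_le_sum_of_subset_of_nonneg (Finset.subset_univ _)
          (fun ω _ _ => by positivity)
  rw [← h4] at h5
  have h6 := h5.trans h3
  have h7 : (2 : ℝ) ^ d * (1 / 2 : ℝ) ^ d = 1 := by
    rw [← mul_pow]
    norm_num
  calc ((univ.filter fun ω : Fin m → Fin k → Fin n =>
      (univ.filter fun i => x ∈ odd (ω i)).card < d).card : ℝ)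
      = 2 ^ d * (((univ.filter fun ω : Fin m → Fin k → Fin n =>
      (univ.filter fun i => x ∈ odd (ω i)).card < d).card : ℝ) * (1 / 2 : ℝ) ^ d) := by
        rw [mul_comm _ ((1 / 2 : ℝ) ^ d), ← mul_assoc, h7, one_mul]
    _ ≤ _ := mul_le_mul_of_nonneg_left h6 (by positivity)

/-- PROOF. The share `p` of the tuples `T` with `x ∈ odd T` is `(1 - (1 - 2 / n)^k) / 2 ≥ k / (2 n)`
(`two_mul_card_zero_sum` for the indicator function of `x`; `(1 - 2/n)^k ≤ exp (-2 k / n) ≤ 1 - k / n`).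
`∑_ω 2^(d - deg) = 2^d ((1 - p / 2) n^k)^m ≤ 2^d exp (- m k / (4 n)) (n^k)^m`, so the share of the `ω`
with `deg < d` is at most `2^d exp (- m k / (4 n))`, times `n` variables `x`. `m k / (4 n) ≥ 4.9 a m / n`
and `d ≤ 2 a m / n`. -/
theorem bad_deg {n m a k d : ℕ} (ha : 120 ≤ a) (hk : k + 1 = 20 * a) (hn : n ≤ 2 ^ a)
    (hn' : 2 * k ≤ n) (hm : 16 * n ≤ m) (hd : d * n ≤ 2 * a * m) :
    16 * (univ.filter fun ω : Fin m → Fin k → Fin n => ∃ x : Fin n,
      (univ.filter fun i => x ∈ odd (ω i)).card < d).card ≤ (n ^ k) ^ m := by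
  have hk1 : 1 ≤ k := by omega
  have hn0 : (0 : ℝ) < n := by
    have : 0 < n := by omega
    exact_mod_cast this
  set bad := univ.filter fun ω : Fin m → Fin k → Fin n => ∃ x : Fin n,
      (univ.filter fun i => x ∈ odd (ω i)).card < d with hbad
  have hsub : bad ⊆ (univ : Finset (Fin n)).biUnion (fun x => univ.filter fun ω : Fin m → Fin k → Fin n =>
      (univ.filter fun i => x ∈ odd (ω i)).card < d) := by
    intro ω hω
    obtain ⟨x, hx⟩ := (Finset.mem_filter.1 hω).2
    exact Finset.mem_biUnion.2 ⟨x, Finset.mem_univ _, Finset.mem_filter.2 ⟨Finset.mem_univ _, hx⟩⟩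
  have h1 : (bad.card : ℝ) ≤ n * (2 ^ d * (Real.exp (-(m * k / (4 * n))) * ((n : ℝ) ^ k) ^ m)) := by
    calc (bad.card : ℝ) ≤ ((∑ x : Fin n, (univ.filter fun ω : Fin m → Fin k → Fin n =>
          (univ.filter fun i => x ∈ odd (ω i)).card < d).card : ℕ) : ℝ) := by
          exact_mod_cast (Finset.card_le_card hsub).trans Finset.card_biUnion_le
      _ = ∑ x : Fin n, ((univ.filter fun ω : Fin m → Fin k → Fin n =>
          (univ.filter fun i => x ∈ odd (ω i)).card < d).card : ℝ) := by push_cast; rfl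
      _ ≤ ∑ _x : Fin n, 2 ^ d * (Real.exp (-(m * k / (4 * n))) * ((n : ℝ) ^ k) ^ m) :=
          Finset.sum_le_sum (fun x _ => i4_fixed hk1 hn' x)
      _ = _ := by
          rw [Finset.sum_const, Finset.card_univ, Fintype.card_fin, nsmul_eq_mul]
  -- the exponent
  have h2exp : ∀ j : ℕ, (2 : ℝ) ^ j ≤ Real.exp j := by
    intro j
    have h3 : (2 : ℝ) ≤ Real.exp 1 := by
      have := Real.add_one_le_exp (1 : ℝ)
      linarith
    calc (2 : ℝ) ^ j ≤ (Real.exp 1) ^ j := pow_le_pow_left₀ (by norm_num) h3 j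
      _ = Real.exp j := by rw [← Real.exp_nat_mul, mul_one]
  have hdr : (d : ℝ) * n ≤ 2 * a * m := by exact_mod_cast hd
  have hmr : 16 * (n : ℝ) ≤ m := by exact_mod_cast hm
  have har : (120 : ℝ) ≤ a := by exact_mod_cast ha
  have hkr : (k : ℝ) + 1 = 20 * a := by exact_mod_cast hk
  have h4 : (4 : ℝ) + a + d ≤ m * k / (4 * n) := by
    rw [le_div_iff₀ (by positivity)]
    have h5 : (m : ℝ) * k = m * (20 * a - 1) := by rw [← hkr]; ring
    rw [h5]
    have h6 : ((4 : ℝ) + a + d) * (4 * n) = 16 * n + 4 * a * n + 4 * (d * n) := by ring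
    rw [h6]
    nlinarith
  have h5 : 16 * (n : ℝ) * 2 ^ d ≤ Real.exp (m * k / (4 * n)) := by
    have h6 : (16 : ℝ) ≤ Real.exp 4 := by
      have := h2exp 4
      norm_num at this
      exact this
    have h7 : (n : ℝ) ≤ Real.exp a := by
      have h8 : (n : ℝ) ≤ 2 ^ a := by exact_mod_cast hn
      exact h8.trans (h2exp a)
    calc 16 * (n : ℝ) * 2 ^ d ≤ Real.exp 4 * Real.exp a * Real.exp d := by
          gcongr
          exact h2exp d
      _ = Real.exp (4 + a + d) := by rw [Real.exp_add, Real.exp_add]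
      _ ≤ _ := Real.exp_le_exp.2 h4
  have h6 : 16 * (bad.card : ℝ) ≤ ((n : ℝ) ^ k) ^ m := by
    calc 16 * (bad.card : ℝ) ≤ 16 * (n * (2 ^ d * (Real.exp (-(m * k / (4 * n))) * ((n : ℝ) ^ k) ^ m))) := by
          linarith
      _ = (16 * (n : ℝ) * 2 ^ d) * (Real.exp (-(m * k / (4 * n))) * ((n : ℝ) ^ k) ^ m) := by ring
      _ ≤ Real.exp (m * k / (4 * n)) * (Real.exp (-(m * k / (4 * n))) * ((n : ℝ) ^ k) ^ m) :=
          mul_le_mul_of_nonneg_right h5 (by positivity)
      _ = ((n : ℝ) ^ k) ^ m := by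
          rw [← mul_assoc, ← Real.exp_add]
          simp
  exact_mod_cast h6

end Pool.Agent.Lib.MP_e81270_lc_SR
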