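import Pool.Agent.Lib.MP_e81270_lc_SR.Basic

/-!
A bipartite part of a function graph.
-/

set_option autoImplicit false
set_option linter.unusedSectionVars false
set_option linter.unusedVariables false

namespace Pool.Agent.Lib.MP_e81270_lc_SR

open Finset
open scoped symmDiff Classical

/-- Average over all subsets `U` of `Fin m` the number of the `i ∈ B` with `i ∈ U`, `f i ∉ U`: a quarter
of `B`. -/
theorem exists_independent_part {m : ℕ} (B : Finset (Fin m)) (f : Fin m → Fin m)
    (hf : ∀ i ∈ B, f i ≠ i) : ∃ T ⊆ B, B.card ≤ 4 * T.card ∧ ∀ i ∈ T, f i ∉ T := by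
  rcases B.eq_empty_or_nonempty with h0 | ⟨i₀, hi₀⟩
  · exact ⟨∅, by simp, by simp [h0], by simp⟩
  -- the number of the sets which separate `i` from `f i`
  have hcount : ∀ i ∈ B, 2 ^ m ≤ 4 * (univ.filter fun U : Finset (Fin m) => i ∈ U ∧ f i ∉ U).card := by
    intro i hi
    have h1 : (((univ.erase i).erase (f i) : Finset (Fin m)).powerset).card
        ≤ (univ.filter fun U : Finset (Fin m) => i ∈ U ∧ f i ∉ U).card := by
      refine card_le_card_of_injOn (fun U => insert i U) ?_ ?_
      · intro U hU
        rw [mem_coe, mem_powerset] at hU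
        rw [coe_filter]
        refine ⟨mem_univ _, mem_insert_self _ _, ?_⟩
        rw [mem_insert, not_or]
        exact ⟨hf i hi, fun h => by simpa using hU h⟩
      · intro U hU U' hU' he
        rw [mem_coe, mem_powerset] at hU hU'
        have h2 : i ∉ U := fun h => by simpa using hU h
        have h3 : i ∉ U' := fun h => by simpa using hU' h
        have := congrArg (fun V => V.erase i) he
        simpa [erase_insert h2, erase_insert h3] using this
    rw [card_powerset, card_erase_of_mem (mem_erase.2 ⟨hf i hi, mem_univ _⟩),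
      card_erase_of_mem (mem_univ _), card_univ, Fintype.card_fin] at h1
    have h2 : 2 ≤ m := by
      have h3 := card_le_univ ({i, f i} : Finset (Fin m))
      rw [card_pair (hf i hi).symm, Fintype.card_fin] at h3
      exact h3
    have h3 : 2 ^ m = 4 * 2 ^ (m - 1 - 1) := by
      obtain ⟨k, rfl⟩ := Nat.exists_eq_add_of_le h2
      rw [show 2 + k - 1 - 1 = k by omega, pow_add]
      norm_num
    rw [h3]
    exact Nat.mul_le_mul_left _ h1
  by_contra hcon
  push Not at hcon
  have hU : ∀ U : Finset (Fin m), 4 * (B.filter fun i => i ∈ U ∧ f i ∉ U).card < B.card := by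
    intro U
    by_contra h1
    push Not at h1
    obtain ⟨i, hi, hfi⟩ := hcon (B.filter fun i => i ∈ U ∧ f i ∉ U) (filter_subset _ _) h1
    rw [mem_filter] at hi hfi
    exact hi.2.2 hfi.2.1
  have h1 : ∑ U : Finset (Fin m), (B.filter fun i => i ∈ U ∧ f i ∉ U).card
      = ∑ i ∈ B, (univ.filter fun U : Finset (Fin m) => i ∈ U ∧ f i ∉ U).card := by
    simp only [card_filter]
    rw [sum_comm]
  have h2 : 2 ^ m * B.card ≤ 4 * ∑ U : Finset (Fin m), (B.filter fun i => i ∈ U ∧ f i ∉ U).card := by
    rw [h1, mul_sum, mul_comm, ← smul_eq_mul, ← sum_const]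
    exact sum_le_sum hcount
  have h3 : 4 * ∑ U : Finset (Fin m), (B.filter fun i => i ∈ U ∧ f i ∉ U).card < 2 ^ m * B.card := by
    rw [mul_sum]
    calc ∑ U : Finset (Fin m), 4 * (B.filter fun i => i ∈ U ∧ f i ∉ U).card
        < ∑ U : Finset (Fin m), B.card := sum_lt_sum_of_nonempty univ_nonempty (fun U _ => hU U)
      _ = 2 ^ m * B.card := by
        rw [sum_const, card_univ, Fintype.card_finset, Fintype.card_fin, smul_eq_mul]
  exact absurd h2 (not_le.2 h3)

end Pool.Agent.Lib.MP_e81270_lc_SR
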