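import Pool.Agent.Lib.MP_e81270_lc_SR.Basic
import Pool.Agent.Lib.MP_e81270_lc_SR.I0a
import Pool.Agent.Lib.MP_e81270_lc_SR.I0d
import Pool.Agent.Lib.MP_e81270_lc_SR.I5a

/-!
Random systems are rigid.
-/

set_option autoImplicit false
set_option linter.unusedSectionVars false
set_option linter.unusedVariables false

namespace Pool.Agent.Lib.MP_e81270_lc_SR

open Finset
open scoped symmDiff Classical

/-- the condition for one pair of equations -/
private def i5cnd {n k : ℕ} (a D : ℕ) (τ : Fin n → Option (Fin n)) (u v : Fin k → Fin n) : Prop :=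
  14 * a ≤ ((odd u).filter fun x => ∃ y ∈ odd v, τ x = some y ∧ mult ⟨τ, 0⟩ y ≤ D).card

private theorem i5_count {n k : ℕ} (X : Finset (Fin n)) (s : ℕ) (hs : s ≤ k) :
    (univ.filter fun T : Fin k → Fin n => s ≤ (univ.filter fun j => T j ∈ X).card).card
      ≤ 2 ^ k * X.card ^ s * n ^ (k - s) := by
  have h1 : (univ.filter fun T : Fin k → Fin n => s ≤ (univ.filter fun j => T j ∈ X).card) ⊆
      (powersetCard s (univ : Finset (Fin k))).biUnion
        (fun J => Fintype.piFinset (fun j => if j ∈ J then X else univ)) := by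
    intro T hT
    rw [mem_filter] at hT
    obtain ⟨J, hJ, hJc⟩ := Finset.exists_subset_card_eq hT.2
    rw [mem_biUnion]
    refine ⟨J, mem_powersetCard.2 ⟨subset_univ _, hJc⟩, ?_⟩
    rw [Fintype.mem_piFinset]
    intro j
    split_ifs with hj
    · exact (mem_filter.1 (hJ hj)).2
    · exact mem_univ _
  refine (card_le_card h1).trans ?_
  refine (card_biUnion_le_card_mul _ _ (X.card ^ s * n ^ (k - s)) ?_).trans ?_
  · intro J hJ
    rw [mem_powersetCard] at hJ
    rw [Fintype.card_piFinset]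
    apply le_of_eq
    have h2 : ∀ j : Fin k, (if j ∈ J then X else univ).card = if j ∈ J then X.card else n := by
      intro j
      split_ifs
      · rfl
      · simp
    simp only [h2]
    rw [Finset.prod_ite, Finset.prod_const, Finset.prod_const]
    congr 2
    · rw [Finset.filter_mem_eq_inter, Finset.univ_inter, hJ.2]
    · have : (univ.filter fun j : Fin k => j ∉ J) = Jᶜ := by
        ext j; simp
      rw [this, card_compl, hJ.2, Fintype.card_fin]
  · rw [card_powersetCard, card_univ, Fintype.card_fin, mul_assoc]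
    exact Nat.mul_le_mul_right _ (Nat.choose_le_two_pow k s)

private theorem i5_X {n k : ℕ} (D : ℕ) (τ : Fin n → Option (Fin n)) (v : Fin k → Fin n) :
    (univ.filter fun x => ∃ y ∈ odd v, τ x = some y ∧ mult ⟨τ, 0⟩ y ≤ D).card ≤ k * D := by
  have h1 : (univ.filter fun x => ∃ y ∈ odd v, τ x = some y ∧ mult ⟨τ, 0⟩ y ≤ D) ⊆
      ((odd v).filter fun y => mult ⟨τ, 0⟩ y ≤ D).biUnion
        (fun y => univ.filter fun z => (⟨τ, 0⟩ : Subst n).tgt z = some y) := by
    intro x hx
    rw [mem_filter] at hx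
    obtain ⟨_, y, hy, hxy, hm⟩ := hx
    rw [mem_biUnion]
    exact ⟨y, mem_filter.2 ⟨hy, hm⟩, mem_filter.2 ⟨mem_univ _, hxy⟩⟩
  refine (card_le_card h1).trans ?_
  refine (card_biUnion_le_card_mul _ _ D ?_).trans ?_
  · intro y hy
    have h2 := (mem_filter.1 hy).2
    unfold mult at h2
    convert h2
  · apply Nat.mul_le_mul_right
    exact (card_le_card (filter_subset _ _)).trans (card_odd_le v)

private theorem i5_one {n k a : ℕ} (D : ℕ) (hk : k + 1 = 20 * a) (ha : 0 < a)
    (τ : Fin n → Option (Fin n)) (v : Fin k → Fin n) :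
    (univ.filter fun u : Fin k → Fin n => i5cnd a D τ u v).card
      ≤ 2 ^ k * (20 * a * D) ^ (14 * a) * n ^ (k - 14 * a) := by
  set X : Finset (Fin n) := univ.filter fun x => ∃ y ∈ odd v, τ x = some y ∧ mult ⟨τ, 0⟩ y ≤ D with hX
  have h1 : (univ.filter fun u : Fin k → Fin n => i5cnd a D τ u v) ⊆
      (univ.filter fun T : Fin k → Fin n => 14 * a ≤ (univ.filter fun j => T j ∈ X).card) := by
    intro u hu
    rw [mem_filter] at hu ⊢
    refine ⟨mem_univ _, ?_⟩
    refine le_trans ?_ (card_odd_inter_le u X)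
    refine le_trans hu.2 (card_le_card ?_)
    intro x hx
    rw [mem_filter] at hx
    rw [mem_inter, hX, mem_filter]
    exact ⟨hx.1, mem_univ _, hx.2⟩
  refine (card_le_card h1).trans ?_
  refine (i5_count X (14 * a) (by omega)).trans ?_
  have h2 : X.card ≤ 20 * a * D := (i5_X D τ v).trans (Nat.mul_le_mul_right _ (by omega))
  gcongr

private def i5P {n m k t : ℕ} (a D : ℕ) (τ : Fin n → Option (Fin n)) (s g : Fin t → Fin m)
    (i : Fin m) (ω : Fin m → Fin k → Fin n) : Prop :=
  ∀ j, s j = i → i5cnd a D τ (ω i) (ω (g j))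

private theorem i5_event {n m a k D t : ℕ} (hk : k + 1 = 20 * a) (ha : 0 < a)
    (τ : Fin n → Option (Fin n)) (s g : Fin t → Fin m) :
    (univ.filter fun ω : Fin m → Fin k → Fin n => Function.Injective s ∧ (∀ j j', g j ≠ s j') ∧
      ∀ j, i5cnd a D τ (ω (s j)) (ω (g j))).card * (n ^ k) ^ t ≤
      (2 ^ k * (20 * a * D) ^ (14 * a) * n ^ (k - 14 * a)) ^ t * (n ^ k) ^ m := by
  by_cases hs : Function.Injective s ∧ ∀ j j', g j ≠ s j'
  · obtain ⟨hs1, hs2⟩ := hs
    have key := card_forall_le (α := Fin k → Fin n) (univ.image s)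
      (i5P a D τ s g)
      (2 ^ k * (20 * a * D) ^ (14 * a) * n ^ (k - 14 * a)) ?_ ?_
    · rw [card_image_of_injective _ hs1, card_univ, Fintype.card_fin] at key
      have hα : Fintype.card (Fin k → Fin n) = n ^ k := by
        rw [Fintype.card_fun, Fintype.card_fin, Fintype.card_fin]
      rw [hα] at key
      refine le_trans (Nat.mul_le_mul_right _ (card_le_card ?_)) key
      intro ω hω
      have hω' := (Finset.mem_filter.1 hω).2
      apply Finset.mem_filter.2
      refine ⟨mem_univ _, ?_⟩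
      intro i hi j hj
      subst hj
      exact hω'.2.2 j
    · intro i hi ω ω' h1 h2 hP j hj
      have h3 : g j ∉ univ.image s := by
        rw [mem_image]
        rintro ⟨j', _, hj'⟩
        exact hs2 j j' hj'.symm
      rw [← h2, ← h1 _ h3]
      exact hP j hj
    · intro i hi ω
      rw [mem_image] at hi
      obtain ⟨j, _, hj⟩ := hi
      refine le_trans (card_le_card ?_) (i5_one D hk ha τ (ω (g j)))
      intro u hu
      have hu' := (Finset.mem_filter.1 hu).2
      apply Finset.mem_filter.2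
      refine ⟨mem_univ _, ?_⟩
      have h4 := hu' j hj
      have h5 : g j ≠ i := by
        rw [← hj]; exact hs2 j j
      rw [Function.update_self, Function.update_of_ne h5] at h4
      exact h4
  · have : (univ.filter fun ω : Fin m → Fin k → Fin n => Function.Injective s ∧ (∀ j j', g j ≠ s j') ∧
      ∀ j, i5cnd a D τ (ω (s j)) (ω (g j))) = ∅ := by
      rw [filter_eq_empty_iff]
      intro ω _ hc
      exact hs ⟨hc.1, hc.2.1⟩
    rw [this, card_empty, zero_mul]
    exact Nat.zero_le _

/-- PROOF. `σ` enters only through `σ.tgt` (`(n + 1)^n` functions). Let more than `q ≥ 4 t` equations `i` be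
in the set, with `f i = j`. By `exists_independent_part` (and shrinking) there is a set `T` of `t` indices
among them with `f i ∉ T` for `i ∈ T`: at most `m^t` sets and `m^t` functions on `T`. For given `σ`, `T`,
`f` use `card_forall_le`: for fixed `ω (f i)` the set `X` of the `x` with `σ.tgt x = some y`,
`y ∈ odd (ω (f i))`, `mult σ y ≤ D` has at most `20 a D` elements, and `14 a` variables of `odd T` are in
it only if `T` has at least `14 a` positions in it (`card_odd_inter_le`): at most
`2^k * (20 a D)^(14 a) * n^(k - 14 a)` tuples `T`. -/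
theorem bad_rigid {n m a k q D t : ℕ} (hk : k + 1 = 20 * a) (ha : 0 < a) (ht : 4 * t ≤ q + 1)
    (ht' : 0 < t)
    (h : 16 * (n + 1) ^ n * (m ^ 2 * 2 ^ k * (20 * a * D) ^ (14 * a)) ^ t ≤ (n ^ (14 * a)) ^ t) :
    16 * (univ.filter fun ω : Fin m → Fin k → Fin n => ∃ σ : Subst n,
      q < (univ.filter fun i => ∃ j, j ≠ i ∧ 14 * a ≤ ((odd (ω i)).filter fun x =>
        ∃ y ∈ odd (ω j), σ.tgt x = some y ∧ mult σ y ≤ D).card).card).card ≤ (n ^ k) ^ m := by
  set Bad : Finset (Fin m → Fin k → Fin n) := univ.filter fun ω : Fin m → Fin k → Fin n => ∃ σ : Subst n,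
      q < (univ.filter fun i => ∃ j, j ≠ i ∧ 14 * a ≤ ((odd (ω i)).filter fun x =>
        ∃ y ∈ odd (ω j), σ.tgt x = some y ∧ mult σ y ≤ D).card).card with hBad
  -- inclusion in the union of the events
  have hsub : Bad ⊆ (univ : Finset ((Fin n → Option (Fin n)) × (Fin t → Fin m) × (Fin t → Fin m))).biUnion
      (fun p => univ.filter fun ω : Fin m → Fin k → Fin n => Function.Injective p.2.1 ∧
        (∀ j j', p.2.2 j ≠ p.2.1 j') ∧ ∀ j, i5cnd a D p.1 (ω (p.2.1 j)) (ω (p.2.2 j))) := by
    intro ω hω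
    rw [hBad, mem_filter] at hω
    obtain ⟨_, σ, hσ⟩ := hω
    set B : Finset (Fin m) := univ.filter fun i => ∃ j, j ≠ i ∧ 14 * a ≤ ((odd (ω i)).filter fun x =>
        ∃ y ∈ odd (ω j), σ.tgt x = some y ∧ mult σ y ≤ D).card with hB
    have hex : ∀ i : Fin m, ∃ j : Fin m, i ∈ B → (j ≠ i ∧ i5cnd a D σ.tgt (ω i) (ω j)) := by
      intro i
      by_cases hi : i ∈ B
      · have h1 := (mem_filter.1 hi).2
        obtain ⟨j, hj, hj'⟩ := h1
        refine ⟨j, fun _ => ⟨hj, ?_⟩⟩
        unfold i5cnd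
        exact hj'
      · exact ⟨i, fun hc => absurd hc hi⟩
    choose f hf using hex
    obtain ⟨T, hTB, hTc, hTf⟩ := exists_independent_part B f (fun i hi => (hf i hi).1)
    have htT : t ≤ T.card := by omega
    obtain ⟨T', hT'T, hT'c⟩ := Finset.exists_subset_card_eq htT
    have hmem : ∀ j, T'.orderEmbOfFin hT'c j ∈ T' := fun j => Finset.orderEmbOfFin_mem T' hT'c j
    rw [mem_biUnion]
    refine ⟨(σ.tgt, fun j => T'.orderEmbOfFin hT'c j, fun j => f (T'.orderEmbOfFin hT'c j)),
      mem_univ _, ?_⟩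
    rw [mem_filter]
    refine ⟨mem_univ _, ?_, ?_, ?_⟩
    · intro x y hxy
      exact (T'.orderEmbOfFin hT'c).injective hxy
    · intro j j' hc
      simp only at hc
      exact hTf _ (hT'T (hmem j)) (hc ▸ hT'T (hmem j'))
    · intro j
      exact (hf _ (hTB (hT'T (hmem j)))).2
  -- counting
  have hcount : Bad.card * (n ^ k) ^ t ≤ (n + 1) ^ n * (m ^ t * m ^ t) *
      ((2 ^ k * (20 * a * D) ^ (14 * a) * n ^ (k - 14 * a)) ^ t * (n ^ k) ^ m) := by
    calc Bad.card * (n ^ k) ^ t
        ≤ (∑ p : (Fin n → Option (Fin n)) × (Fin t → Fin m) × (Fin t → Fin m),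
            (univ.filter fun ω : Fin m → Fin k → Fin n => Function.Injective p.2.1 ∧
        (∀ j j', p.2.2 j ≠ p.2.1 j') ∧ ∀ j, i5cnd a D p.1 (ω (p.2.1 j)) (ω (p.2.2 j))).card) *
              (n ^ k) ^ t :=
          Nat.mul_le_mul_right _ ((card_le_card hsub).trans card_biUnion_le)
      _ = ∑ p : (Fin n → Option (Fin n)) × (Fin t → Fin m) × (Fin t → Fin m),
            (univ.filter fun ω : Fin m → Fin k → Fin n => Function.Injective p.2.1 ∧
        (∀ j j', p.2.2 j ≠ p.2.1 j') ∧ ∀ j, i5cnd a D p.1 (ω (p.2.1 j)) (ω (p.2.2 j))).card *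
              (n ^ k) ^ t := by rw [Finset.sum_mul]
      _ ≤ ∑ p : (Fin n → Option (Fin n)) × (Fin t → Fin m) × (Fin t → Fin m),
            ((2 ^ k * (20 * a * D) ^ (14 * a) * n ^ (k - 14 * a)) ^ t * (n ^ k) ^ m) :=
          Finset.sum_le_sum (fun p _ => i5_event hk ha p.1 p.2.1 p.2.2)
      _ = (n + 1) ^ n * (m ^ t * m ^ t) *
            ((2 ^ k * (20 * a * D) ^ (14 * a) * n ^ (k - 14 * a)) ^ t * (n ^ k) ^ m) := by
          rw [Finset.sum_const, card_univ, Fintype.card_prod, Fintype.card_prod, Fintype.card_fun,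
            Fintype.card_fun, Fintype.card_option, Fintype.card_fin, Fintype.card_fin,
            Fintype.card_fin, smul_eq_mul]
  have hka : 14 * a ≤ k := by omega
  rcases Nat.eq_zero_or_pos n with hn | hn
  · -- no tuples
    subst hn
    rcases Nat.eq_zero_or_pos m with hm | hm
    · subst hm
      have : Bad = ∅ := by
        rw [hBad, filter_eq_empty_iff]
        rintro ω _ ⟨σ, hσ⟩
        have h1 : (univ : Finset (Fin 0)) = ∅ := rfl
        rw [h1, filter_empty, card_empty] at hσ
        omega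
      rw [this, card_empty, mul_zero]
      exact Nat.zero_le _
    · have : Bad = ∅ := by
        rw [Finset.eq_empty_iff_forall_notMem]
        intro ω _
        exact (ω ⟨0, hm⟩ ⟨0, by omega⟩).elim0
      rw [this, card_empty, mul_zero]
      exact Nat.zero_le _
  · have hpos : 0 < (n ^ k) ^ t := by positivity
    apply Nat.le_of_mul_le_mul_right _ hpos
    have hnk : n ^ (14 * a) * n ^ (k - 14 * a) = n ^ k := by
      rw [← pow_add]
      congr 1
      omega
    calc 16 * Bad.card * (n ^ k) ^ t = 16 * (Bad.card * (n ^ k) ^ t) := by ring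
      _ ≤ 16 * ((n + 1) ^ n * (m ^ t * m ^ t) *
          ((2 ^ k * (20 * a * D) ^ (14 * a) * n ^ (k - 14 * a)) ^ t * (n ^ k) ^ m)) :=
          Nat.mul_le_mul_left _ hcount
      _ = (16 * (n + 1) ^ n * (m ^ 2 * 2 ^ k * (20 * a * D) ^ (14 * a)) ^ t) *
          ((n ^ (k - 14 * a)) ^ t * (n ^ k) ^ m) := by
          have e1 : m ^ t * m ^ t = (m ^ 2) ^ t := by rw [← mul_pow, sq]
          rw [e1]
          simp only [mul_pow]
          ring
      _ ≤ (n ^ (14 * a)) ^ t * ((n ^ (k - 14 * a)) ^ t * (n ^ k) ^ m) :=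
          Nat.mul_le_mul_right _ h
      _ = (n ^ k) ^ m * (n ^ k) ^ t := by
          rw [← mul_assoc, ← mul_pow, hnk, mul_comm]

end Pool.Agent.Lib.MP_e81270_lc_SR
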