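import Pool.Agent.Lib.MP_e81270_lc_SR.Basic
import Pool.Agent.Lib.MP_e81270_lc_SR.I0a
import Pool.Agent.Lib.MP_e81270_lc_SR.I0d

/-!
Random systems are mixing.
-/

set_option autoImplicit false
set_option linter.unusedSectionVars false
set_option linter.unusedVariables false

namespace Pool.Agent.Lib.MP_e81270_lc_SR

open Finset
open scoped symmDiff Classical

/-- exponential moment of the number of positions with value in `X` -/
private theorem i6_moment {n k : ℕ} (X : Finset (Fin n)) :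
    ∑ T : Fin k → Fin n, 16 ^ (univ.filter fun j => T j ∈ X).card = (n + 15 * X.card) ^ k := by
  have h1 : ∑ x : Fin n, (if x ∈ X then 16 else 1) = n + 15 * X.card := by
    rw [Finset.sum_ite]
    simp only [Finset.sum_const, smul_eq_mul, mul_one]
    have h2 : (univ.filter fun x : Fin n => x ∈ X).card = X.card := by
      rw [Finset.filter_univ_mem]
    have h3 := Finset.card_filter_add_card_filter_not (s := (univ : Finset (Fin n))) (fun x => x ∈ X)
    rw [Finset.card_univ, Fintype.card_fin] at h3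
    omega
  rw [← h1, Fintype.sum_pow]
  refine Finset.sum_congr rfl (fun T _ => ?_)
  rw [Finset.prod_ite]
  simp

/-- few tuples meet `X` in many variables -/
private theorem i6_tuples {n a k : ℕ} (hk : k + 1 = 20 * a) (X : Finset (Fin n))
    (hX : 20 * X.card ≤ 11 * n) :
    (univ.filter fun T : Fin k → Fin n => 18 * a ≤ (odd T ∩ X).card).card * 2 ^ (7 * a) ≤ n ^ k := by
  have h1 : (univ.filter fun T : Fin k → Fin n => 18 * a ≤ (odd T ∩ X).card).card * 16 ^ (18 * a)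
      ≤ (n + 15 * X.card) ^ k := by
    rw [← i6_moment (k := k) X]
    calc (univ.filter fun T : Fin k → Fin n => 18 * a ≤ (odd T ∩ X).card).card * 16 ^ (18 * a)
        = ∑ _T ∈ univ.filter (fun T : Fin k → Fin n => 18 * a ≤ (odd T ∩ X).card), 16 ^ (18 * a) := by
          rw [Finset.sum_const, smul_eq_mul]
      _ ≤ ∑ T ∈ univ.filter (fun T : Fin k → Fin n => 18 * a ≤ (odd T ∩ X).card),
            16 ^ (univ.filter fun j => T j ∈ X).card := by
          refine Finset.sum_le_sum (fun T hT => ?_)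
          exact Nat.pow_le_pow_right (by norm_num)
            (((Finset.mem_filter.1 hT).2).trans (card_odd_inter_le T X))
      _ ≤ ∑ T : Fin k → Fin n, 16 ^ (univ.filter fun j => T j ∈ X).card :=
          Finset.sum_le_sum_of_subset (Finset.subset_univ _)
  have h2 : 4 * (n + 15 * X.card) ≤ 37 * n := by omega
  have h3 : 4 ^ k * (n + 15 * X.card) ^ k ≤ 37 ^ k * n ^ k := by
    rw [← mul_pow, ← mul_pow]
    exact Nat.pow_le_pow_left h2 k
  -- 37^(20 a) 2^(7 a) ≤ 16^(18 a) 4^(20 a)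
  have h4 : 37 ^ (20 * a) * 2 ^ (7 * a) ≤ 16 ^ (18 * a) * 4 ^ (20 * a) := by
    have h5 : 37 ^ 20 * 2 ^ 7 ≤ 16 ^ 18 * 4 ^ 20 := by norm_num
    have h6 := Nat.pow_le_pow_left h5 a
    rw [mul_pow, mul_pow, ← pow_mul, ← pow_mul, ← pow_mul, ← pow_mul] at h6
    exact h6
  have h7 : 37 ^ k * 2 ^ (7 * a) * 4 ≤ 16 ^ (18 * a) * 4 ^ k * 4 := by
    have h8 : 37 ^ (20 * a) = 37 ^ k * 37 := by rw [← hk, pow_succ]
    have h9 : 4 ^ (20 * a) = 4 ^ k * 4 := by rw [← hk, pow_succ]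
    rw [h8, h9] at h4
    have h10 : 37 ^ k * 2 ^ (7 * a) * 4 ≤ 37 ^ k * 37 * 2 ^ (7 * a) := by
      have : 37 ^ k * 2 ^ (7 * a) * 4 ≤ 37 ^ k * 2 ^ (7 * a) * 37 := Nat.mul_le_mul_left _ (by norm_num)
      calc _ ≤ _ := this
        _ = _ := by ring
    calc _ ≤ _ := h10
      _ ≤ _ := h4
      _ = _ := by ring
  have h11 : 37 ^ k * 2 ^ (7 * a) ≤ 16 ^ (18 * a) * 4 ^ k := Nat.le_of_mul_le_mul_right h7 (by norm_num)
  set N := (univ.filter fun T : Fin k → Fin n => 18 * a ≤ (odd T ∩ X).card).card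
  have h12 : (N * 2 ^ (7 * a)) * (16 ^ (18 * a) * 4 ^ k) ≤ n ^ k * (16 ^ (18 * a) * 4 ^ k) := by
    calc (N * 2 ^ (7 * a)) * (16 ^ (18 * a) * 4 ^ k) = (N * 16 ^ (18 * a)) * (4 ^ k * 2 ^ (7 * a)) := by ring
      _ ≤ (n + 15 * X.card) ^ k * (4 ^ k * 2 ^ (7 * a)) := Nat.mul_le_mul_right _ h1
      _ = (4 ^ k * (n + 15 * X.card) ^ k) * 2 ^ (7 * a) := by ring
      _ ≤ (37 ^ k * n ^ k) * 2 ^ (7 * a) := Nat.mul_le_mul_right _ h3
      _ = n ^ k * (37 ^ k * 2 ^ (7 * a)) := by ring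
      _ ≤ n ^ k * (16 ^ (18 * a) * 4 ^ k) := Nat.mul_le_mul_left _ h11
  exact Nat.le_of_mul_le_mul_right h12 (by positivity)

/-- fixed `X`, fixed set of indices -/
private theorem i6_fixed {n m a k q : ℕ} (hk : k + 1 = 20 * a) (hn : 1 ≤ n) (X : Finset (Fin n))
    (hX : 20 * X.card ≤ 11 * n) (S : Finset (Fin m)) (hS : S.card = q + 1) :
    (univ.filter fun ω : Fin m → Fin k → Fin n => ∀ i ∈ S, 18 * a ≤ (odd (ω i) ∩ X).card).card
      * 2 ^ (7 * a * (q + 1)) ≤ (n ^ k) ^ m := by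
  have h1 := card_forall_le (α := Fin k → Fin n) S
    (fun i ω => 18 * a ≤ (odd (ω i) ∩ X).card)
    (univ.filter fun T : Fin k → Fin n => 18 * a ≤ (odd T ∩ X).card).card
    (by
      intro i _ ω ω' _ h2 h3
      rw [← h2]
      exact h3)
    (by
      intro i _ ω
      simp only [Function.update_self]
      exact le_refl _)
  have hcard : Fintype.card (Fin k → Fin n) = n ^ k := by simp
  rw [hcard, hS] at h1
  set M := (univ.filter fun ω : Fin m → Fin k → Fin n => ∀ i ∈ S, 18 * a ≤ (odd (ω i) ∩ X).card).card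
  set N := (univ.filter fun T : Fin k → Fin n => 18 * a ≤ (odd T ∩ X).card).card with hN
  have h2 : N * 2 ^ (7 * a) ≤ n ^ k := i6_tuples hk X hX
  have h1' : M * (n ^ k) ^ (q + 1) ≤ N ^ (q + 1) * (n ^ k) ^ m := by convert h1
  have h3 : (M * 2 ^ (7 * a * (q + 1))) * (n ^ k) ^ (q + 1) ≤ (n ^ k) ^ m * (n ^ k) ^ (q + 1) := by
    calc (M * 2 ^ (7 * a * (q + 1))) * (n ^ k) ^ (q + 1)
        = (M * (n ^ k) ^ (q + 1)) * (2 ^ (7 * a)) ^ (q + 1) := by
          rw [← pow_mul 2 (7 * a) (q + 1)]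
          ring
      _ ≤ (N ^ (q + 1) * (n ^ k) ^ m) * (2 ^ (7 * a)) ^ (q + 1) := Nat.mul_le_mul_right _ h1'
      _ = (n ^ k) ^ m * (N * 2 ^ (7 * a)) ^ (q + 1) := by
          rw [mul_pow]
          ring
      _ ≤ (n ^ k) ^ m * (n ^ k) ^ (q + 1) := Nat.mul_le_mul_left _ (Nat.pow_le_pow_left h2 _)
  exact Nat.le_of_mul_le_mul_right h3 (by positivity)

/-- PROOF. Let `20 |X| ≤ 11 n`. `∑_T 16^#{j, T j ∈ X} = (n + 15 |X|)^k ≤ (37/4 n)^k`, so at most
`(37/4)^k / 16^(18 a) * n^k ≤ 2^(-7 a) * n^k` tuples `T` have `|odd T ∩ X| ≥ 18 a`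
(`card_odd_inter_le`; `(37/4)^20 * 2^7 ≤ 16^18`). For `2^n` sets `X` and at most `m^(q+1)` sets of `q + 1`
indices, `card_forall_le`: share at most `2^n * 2^(2 a (q+1)) * 2^(-7 a (q+1)) ≤ 2^(-4 n)`. -/
theorem bad_mix {n m a k q : ℕ} (ha : 120 ≤ a) (hk : k + 1 = 20 * a) (hm : m ≤ 2 ^ (2 * a))
    (hn : 1 ≤ n) (hq : n < a * (q + 1)) :
    16 * (univ.filter fun ω : Fin m → Fin k → Fin n => ∃ X : Finset (Fin n), 20 * X.card ≤ 11 * n ∧
      q < (univ.filter fun i => 18 * a ≤ (odd (ω i) ∩ X).card).card).card ≤ (n ^ k) ^ m := by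
  set I : Finset (Finset (Fin n) × Finset (Fin m)) :=
    (univ.filter fun X : Finset (Fin n) => 20 * X.card ≤ 11 * n) ×ˢ (univ.powersetCard (q + 1)) with hI
  set bad := univ.filter fun ω : Fin m → Fin k → Fin n => ∃ X : Finset (Fin n), 20 * X.card ≤ 11 * n ∧
      q < (univ.filter fun i => 18 * a ≤ (odd (ω i) ∩ X).card).card with hbad
  have hsub : bad ⊆ I.biUnion (fun p => univ.filter fun ω : Fin m → Fin k → Fin n =>
      ∀ i ∈ p.2, 18 * a ≤ (odd (ω i) ∩ p.1).card) := by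
    intro ω hω
    obtain ⟨X, hX, hXq⟩ := (Finset.mem_filter.1 hω).2
    obtain ⟨S, hS1, hS2⟩ := Finset.exists_subset_card_eq (Nat.succ_le_of_lt hXq)
    refine Finset.mem_biUnion.2 ⟨(X, S), ?_, ?_⟩
    · rw [hI, Finset.mem_product]
      refine ⟨Finset.mem_filter.2 ⟨Finset.mem_univ _, hX⟩, ?_⟩
      rw [Finset.mem_powersetCard]
      exact ⟨Finset.subset_univ _, hS2⟩
    · refine Finset.mem_filter.2 ⟨Finset.mem_univ _, fun i hi => ?_⟩
      exact (Finset.mem_filter.1 (hS1 hi)).2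
  have h1 : bad.card * 2 ^ (7 * a * (q + 1)) ≤ I.card * (n ^ k) ^ m := by
    calc bad.card * 2 ^ (7 * a * (q + 1))
        ≤ (∑ p ∈ I, (univ.filter fun ω : Fin m → Fin k → Fin n =>
            ∀ i ∈ p.2, 18 * a ≤ (odd (ω i) ∩ p.1).card).card) * 2 ^ (7 * a * (q + 1)) :=
          Nat.mul_le_mul_right _ ((Finset.card_le_card hsub).trans Finset.card_biUnion_le)
      _ = ∑ p ∈ I, (univ.filter fun ω : Fin m → Fin k → Fin n =>
            ∀ i ∈ p.2, 18 * a ≤ (odd (ω i) ∩ p.1).card).card * 2 ^ (7 * a * (q + 1)) := by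
          rw [Finset.sum_mul]
      _ ≤ ∑ _p ∈ I, (n ^ k) ^ m := by
          refine Finset.sum_le_sum (fun p hp => ?_)
          rw [hI, Finset.mem_product] at hp
          exact i6_fixed hk hn p.1 (Finset.mem_filter.1 hp.1).2 p.2 (Finset.mem_powersetCard.1 hp.2).2
      _ = I.card * (n ^ k) ^ m := by rw [Finset.sum_const, smul_eq_mul]
  have h2 : I.card ≤ 2 ^ n * 2 ^ (2 * a * (q + 1)) := by
    rw [hI, Finset.card_product, Finset.card_powersetCard, Finset.card_univ, Fintype.card_fin]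
    refine Nat.mul_le_mul ?_ ?_
    · refine (Finset.card_le_univ _).trans ?_
      rw [Fintype.card_finset, Fintype.card_fin]
    · calc m.choose (q + 1) ≤ m ^ (q + 1) := Nat.choose_le_pow _ _
        _ ≤ (2 ^ (2 * a)) ^ (q + 1) := Nat.pow_le_pow_left hm _
        _ = 2 ^ (2 * a * (q + 1)) := by rw [← pow_mul]
  have h3 : 16 * 2 ^ n * 2 ^ (2 * a * (q + 1)) ≤ 2 ^ (7 * a * (q + 1)) := by
    have h4 : (16 : ℕ) = 2 ^ 4 := by norm_num
    rw [h4, ← pow_add, ← pow_add]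
    refine Nat.pow_le_pow_right (by norm_num) ?_
    have h5 : 2 * a * (q + 1) = 2 * (a * (q + 1)) := by ring
    have h6 : 7 * a * (q + 1) = 7 * (a * (q + 1)) := by ring
    rw [h5, h6]
    omega
  have h7 : (16 * bad.card) * (2 ^ n * 2 ^ (2 * a * (q + 1)))
      ≤ (n ^ k) ^ m * (2 ^ n * 2 ^ (2 * a * (q + 1))) := by
    calc (16 * bad.card) * (2 ^ n * 2 ^ (2 * a * (q + 1)))
        = bad.card * (16 * 2 ^ n * 2 ^ (2 * a * (q + 1))) := by ring
      _ ≤ bad.card * 2 ^ (7 * a * (q + 1)) := Nat.mul_le_mul_left _ h3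
      _ ≤ I.card * (n ^ k) ^ m := h1
      _ ≤ (2 ^ n * 2 ^ (2 * a * (q + 1))) * (n ^ k) ^ m := Nat.mul_le_mul_right _ h2
      _ = _ := by ring
  exact Nat.le_of_mul_le_mul_right h7 (by positivity)

end Pool.Agent.Lib.MP_e81270_lc_SR
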