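import Pool.Agent.Lib.MP_e81270_lc_SR.Basic
import Pool.Agent.Lib.MP_e81270_lc_SR.I1
import Pool.Agent.Lib.MP_e81270_lc_SR.I2
import Pool.Agent.Lib.MP_e81270_lc_SR.I3
import Pool.Agent.Lib.MP_e81270_lc_SR.I4
import Pool.Agent.Lib.MP_e81270_lc_SR.I5
import Pool.Agent.Lib.MP_e81270_lc_SR.I6

/-!
Existence of pseudorandom systems.
-/

set_option autoImplicit false
set_option linter.unusedSectionVars false
set_option linter.unusedVariables false

namespace Pool.Agent.Lib.MP_e81270_lc_SR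

open Finset
open scoped symmDiff Classical

/-- The six bad events have together at most `6/16` of the `ω` (`n ≥ 1`). `E i = odd (ω i)`. -/
theorem exists_good {n m a r k d D q t : ℕ} (ha : 120 ≤ a) (hk : k + 1 = 20 * a)
    (hn : n ≤ 2 ^ a) (hn' : 2 * k ≤ n) (hm : 16 * n ≤ m) (hm' : m ≤ 2 ^ (2 * a))
    (hr : 2 ^ 100 * (20 * a * r) ≤ n) (h3 : 16 * m ^ 3 * k ^ 6 ≤ n ^ 4)
    (hd : d * n ≤ 2 * a * m) (ht : 4 * t ≤ q + 1) (ht' : 0 < t)
    (h5 : 16 * (n + 1) ^ n * (m ^ 2 * 2 ^ k * (20 * a * D) ^ (14 * a)) ^ t ≤ (n ^ (14 * a)) ^ t)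
    (hq : n < a * (q + 1)) :
    ∃ E : Fin m → Finset (Fin n), Good E a r d D q := by
  have hk1 : 1 ≤ k := by omega
  have hn1 : 1 ≤ n := by omega
  set N : ℕ := (n ^ k) ^ m with hN
  have hNpos : 0 < N := by positivity
  have b1 := bad_expand (n := n) (m := m) (r := r) ha hk hm' hr
  have b2 := bad_inj (n := n) (m := m) ha hk hn hn' hm
  have b3 := bad_codeg (n := n) (m := m) (k := k) h3
  have b4 := bad_deg (n := n) (m := m) (d := d) ha hk hn hn' hm hd
  have b5 := bad_rigid (n := n) (m := m) (q := q) (D := D) (t := t) hk (by omega) ht ht' h5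
  have b6 := bad_mix (n := n) (m := m) (q := q) ha hk hm' hn1 hq
  set B1 := univ.filter fun ω : Fin m → Fin k → Fin n => ∃ R : Finset (Fin m), R.card ≤ r ∧
      (uniq (fun i => odd (ω i)) R).card < 19 * a * R.card with hB1
  set B2 := univ.filter fun ω : Fin m → Fin k → Fin n => ∃ v : Fin n → ZMod 2, v ≠ 0 ∧
      ∀ i, ∑ j, v (ω i j) = 0 with hB2
  set B3 := univ.filter fun ω : Fin m → Fin k → Fin n => ∃ x y : Fin n, x ≠ y ∧
      2 < (univ.filter fun i => x ∈ odd (ω i) ∧ y ∈ odd (ω i)).card with hB3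
  set B4 := univ.filter fun ω : Fin m → Fin k → Fin n => ∃ x : Fin n,
      (univ.filter fun i => x ∈ odd (ω i)).card < d with hB4
  set B5 := univ.filter fun ω : Fin m → Fin k → Fin n => ∃ σ : Subst n,
      q < (univ.filter fun i => ∃ j, j ≠ i ∧ 14 * a ≤ ((odd (ω i)).filter fun x =>
        ∃ y ∈ odd (ω j), σ.tgt x = some y ∧ mult σ y ≤ D).card).card with hB5
  set B6 := univ.filter fun ω : Fin m → Fin k → Fin n => ∃ X : Finset (Fin n),
      20 * X.card ≤ 11 * n ∧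
      q < (univ.filter fun i => 18 * a ≤ (odd (ω i) ∩ X).card).card with hB6
  have hcard : Fintype.card (Fin m → Fin k → Fin n) = N := by
    rw [Fintype.card_fun, Fintype.card_fun, Fintype.card_fin, Fintype.card_fin, Fintype.card_fin]
  have hU : (B1 ∪ (B2 ∪ (B3 ∪ (B4 ∪ (B5 ∪ B6))))).card < N := by
    have c1 := card_union_le B1 (B2 ∪ (B3 ∪ (B4 ∪ (B5 ∪ B6))))
    have c2 := card_union_le B2 (B3 ∪ (B4 ∪ (B5 ∪ B6)))
    have c3 := card_union_le B3 (B4 ∪ (B5 ∪ B6))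
    have c4 := card_union_le B4 (B5 ∪ B6)
    have c5 := card_union_le B5 B6
    omega
  have hex : ∃ ω : Fin m → Fin k → Fin n, ω ∉ B1 ∪ (B2 ∪ (B3 ∪ (B4 ∪ (B5 ∪ B6)))) := by
    by_contra hcon
    push Not at hcon
    have h1 : (univ : Finset (Fin m → Fin k → Fin n)) ⊆
        B1 ∪ (B2 ∪ (B3 ∪ (B4 ∪ (B5 ∪ B6)))) := fun ω _ => hcon ω
    have h2 := card_le_card h1
    rw [card_univ, hcard] at h2
    omega
  obtain ⟨ω, hω⟩ := hex
  simp only [mem_union, not_or] at hω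
  obtain ⟨w1, w2, w3, w4, w5, w6⟩ := hω
  rw [hB1, mem_filter] at w1
  rw [hB2, mem_filter] at w2
  rw [hB3, mem_filter] at w3
  rw [hB4, mem_filter] at w4
  rw [hB5, mem_filter] at w5
  rw [hB6, mem_filter] at w6
  refine ⟨fun i => odd (ω i), ?_, ?_, ?_, ?_, ?_, ?_, ?_⟩
  · intro i
    have := card_odd_le (ω i)
    omega
  · intro R hR
    by_contra hcon
    exact w1 ⟨mem_univ _, R, hR, not_le.1 hcon⟩
  · intro v hv
    by_contra hcon
    push Not at hcon
    refine w2 ⟨mem_univ _, v, hv, fun i => ?_⟩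
    rw [← sum_odd]
    exact hcon i
  · intro x y hxy
    by_contra hcon
    exact w3 ⟨mem_univ _, x, y, hxy, not_le.1 hcon⟩
  · intro x
    by_contra hcon
    exact w4 ⟨mem_univ _, x, not_le.1 hcon⟩
  · intro σ
    by_contra hcon
    exact w5 ⟨mem_univ _, σ, not_le.1 hcon⟩
  · intro X hX
    by_contra hcon
    exact w6 ⟨mem_univ _, X, hX, not_le.1 hcon⟩

end Pool.Agent.Lib.MP_e81270_lc_SR
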