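import Pool.Agent.Lib.MP_e81270_lc_SR.Basic

/-!
An unsatisfiable right-hand side.
-/

set_option autoImplicit false
set_option linter.unusedSectionVars false
set_option linter.unusedVariables false

namespace Pool.Agent.Lib.MP_e81270_lc_SR

open Finset
open scoped symmDiff Classical

/-- There are `2^n` assignments and `2^m` right-hand sides. -/
theorem exists_unsat {n m : ℕ} (h : n < m) (E : Fin m → Finset (Fin n)) :
    ∃ b : Fin m → ZMod 2, ∀ v : Fin n → ZMod 2, ∃ i, ∑ x ∈ E i, v x ≠ b i := by
  by_contra hcon
  push Not at hcon
  choose g hg using hcon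
  have hinj : Function.Injective g := by
    intro b b' hbb
    funext i
    rw [← hg b i, ← hg b' i, hbb]
  have h1 := Fintype.card_le_of_injective g hinj
  rw [Fintype.card_fun, Fintype.card_fun, ZMod.card, Fintype.card_fin, Fintype.card_fin] at h1
  exact absurd ((Nat.pow_le_pow_iff_right (by norm_num)).1 h1) (by omega)

end Pool.Agent.Lib.MP_e81270_lc_SR
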