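import Pool.Agent.Lib.MP_e81270_lc_SR.Basic

/-!
The number of clauses.
-/

set_option autoImplicit false
set_option linter.unusedSectionVars false
set_option linter.unusedVariables false

namespace Pool.Agent.Lib.MP_e81270_lc_SR

open Finset
open scoped symmDiff Classical

/-- A clause of the equation `E i` is determined by `i` and the values on `E i`. -/
theorem ncard_cnf_le {n m a : ℕ} (E : Fin m → Finset (Fin n)) (b : Fin m → ZMod 2)
    (h : ∀ i, (E i).card < 20 * a) : (cnf E b).ncard ≤ m * 2 ^ (20 * a) := by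
  have hsub : cnf E b ⊆ ↑((univ : Finset (Fin m)).biUnion fun i =>
      (E i).powerset.image fun T => (E i).image fun x =>
        ((x, if x ∈ T then (1 : ZMod 2) else 0) : Lit n)) := by
    rintro C ⟨i, u, hu, rfl⟩
    rw [Finset.mem_coe, Finset.mem_biUnion]
    refine ⟨i, mem_univ _, ?_⟩
    rw [Finset.mem_image]
    refine ⟨(E i).filter fun x => u x + 1 = 1, ?_, ?_⟩
    · rw [Finset.mem_powerset]
      exact Finset.filter_subset _ _
    · refine Finset.image_congr ?_
      intro x hx
      have hx' : x ∈ E i := hx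
      by_cases h1 : u x + 1 = 1
      · have hm : x ∈ (E i).filter fun x => u x + 1 = 1 := Finset.mem_filter.2 ⟨hx', h1⟩
        simp only [if_pos hm, h1]
      · have h0 : u x + 1 = 0 := (eq_zero_or_one _).resolve_right h1
        have hm : x ∉ (E i).filter fun x => u x + 1 = 1 := fun hc => h1 (Finset.mem_filter.1 hc).2
        simp only [if_neg hm, h0]
  refine (Set.ncard_le_ncard hsub (Finset.finite_toSet _)).trans ?_
  rw [Set.ncard_coe_finset]
  refine Finset.card_biUnion_le.trans ?_
  have hi : ∀ i ∈ (univ : Finset (Fin m)), ((E i).powerset.image fun T => (E i).image fun x =>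
        ((x, if x ∈ T then (1 : ZMod 2) else 0) : Lit n)).card ≤ 2 ^ (20 * a) := by
    intro i _
    refine Finset.card_image_le.trans ?_
    rw [Finset.card_powerset]
    exact Nat.pow_le_pow_right (by norm_num) (h i).le
  refine (Finset.sum_le_card_nsmul _ _ _ hi).trans ?_
  rw [Finset.card_univ, Fintype.card_fin, smul_eq_mul]

/-- the system as a set of clauses is unsatisfiable -/
theorem cnf_unsat {n m : ℕ} {E : Fin m → Finset (Fin n)} {b : Fin m → ZMod 2}
    (h : ∀ v : Fin n → ZMod 2, ∃ i, ∑ x ∈ E i, v x ≠ b i) :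
    ¬ ∃ v, ∀ C ∈ cnf E b, Sat v C := by
  rintro ⟨v, hv⟩
  obtain ⟨i, hi⟩ := h v
  obtain ⟨l, hl, hvl⟩ := hv _ ⟨i, v, hi, rfl⟩
  rw [Finset.mem_image] at hl
  obtain ⟨x, hx, rfl⟩ := hl
  simp at hvl

end Pool.Agent.Lib.MP_e81270_lc_SR
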