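import Pool.Agent.Lib.MP_e81270_lc_SR.Basic

/-!
The numerical condition of the rigidity estimate.
-/

set_option autoImplicit false
set_option linter.unusedSectionVars false
set_option linter.unusedVariables false

namespace Pool.Agent.Lib.MP_e81270_lc_SR

open Finset
open scoped symmDiff

private lemma lin_le_pow (l : ℕ) (hl : 11 ≤ l) : 100 * (l + 1) ≤ 2 ^ l := by
  induction l, hl using Nat.le_induction with
  | base => norm_num
  | succ l hl ih =>
    rw [pow_succ]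
    omega

/-- the comparison of the exponents -/
private lemma exponents {a n l t L : ℕ} (haL : a = L + 1) (ha : 1200 ≤ a) (hl : 100 * l ≤ a)
    (ht1 : 1 ≤ t) (hn : n ≤ 4 * a * t + 3 * a) :
    4 + a * n + (2 * (118 + a) + 20 * a + (118 + 2 * l) * (14 * a)) * t ≤ L * (14 * a) * t := by
  have h1 : a * n ≤ a * (4 * a * t + 3 * a) := Nat.mul_le_mul_left _ hn
  have h2 : 100 * l * (a * t) ≤ a * (a * t) := Nat.mul_le_mul_right _ hl
  have h3 : (4 + 3 * (a * a)) * 1 ≤ (4 + 3 * (a * a)) * t := Nat.mul_le_mul_left _ ht1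
  have h4 : 1200 * (a * t) ≤ a * (a * t) := Nat.mul_le_mul_right _ ha
  have h5 : 1200 * t ≤ a * t := Nat.mul_le_mul_right _ ha
  have h6 : L * (14 * a) * t + 14 * (a * t) = 14 * (a * (a * t)) := by
    rw [haL]; ring
  have h7 : a * (4 * a * t + 3 * a) = 4 * (a * (a * t)) + 3 * (a * a) := by ring
  have h8 : (4 + 3 * (a * a)) * t = 4 * t + 3 * (a * (a * t)) := by ring
  have h9 : (2 * (118 + a) + 20 * a + (118 + 2 * l) * (14 * a)) * t
      = 236 * t + 1674 * (a * t) + 28 * (l * (a * t)) := by ring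
  have h10 : 100 * l * (a * t) = 100 * (l * (a * t)) := by ring
  rw [h9]
  rw [h7] at h1
  rw [h8] at h3
  rw [h10] at h2
  omega

/-- `a = Nat.log 2 n + 1`, so `2 ^ (a - 1) ≤ n < 2 ^ a`. Binary logarithms: the left side is at most
`4 + n (a + 1) + t (2 (118 + a) + 20 a + 14 a (118 + 2 log a))`, the right side at least
`14 a (a - 1) t`, `t ≥ n / (4 a) - 1`. (Estimates by powers of two: `n + 1 ≤ 2 ^ a`,
`m ^ 2 ≤ 2 ^ (236 + 2 a)`, `20 a D ≤ 2 ^ (118 + 2 l)` where `a ≤ 2 ^ l`, for instance `l = a / 100` for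
large `n`, `n ^ (14 a) ≥ 2 ^ (14 a (a - 1))`; then compare exponents.) -/
theorem exists_rigid_bound : ∃ N : ℕ, ∀ n ≥ N,
    16 * (n + 1) ^ n * ((2 ^ 118 * n) ^ 2 * 2 ^ (20 * (Nat.log 2 n + 1) - 1) *
      (20 * (Nat.log 2 n + 1) * (2 ^ 113 * (Nat.log 2 n + 1))) ^ (14 * (Nat.log 2 n + 1))) ^
        ((n / (Nat.log 2 n + 1) + 1) / 4)
      ≤ (n ^ (14 * (Nat.log 2 n + 1))) ^ ((n / (Nat.log 2 n + 1) + 1) / 4) := by
  refine ⟨2 ^ 1200, fun n hn => ?_⟩
  have hn0 : n ≠ 0 := by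
    intro h
    rw [h] at hn
    exact absurd (Nat.pos_of_ne_zero (pow_ne_zero 1200 two_ne_zero)) (not_lt.2 hn)
  have hL : 1200 ≤ Nat.log 2 n := Nat.le_log_of_pow_le Nat.one_lt_two hn
  have h1 : 2 ^ (Nat.log 2 n) ≤ n := Nat.pow_log_le_self 2 hn0
  have h2 : n < 2 ^ (Nat.log 2 n + 1) := Nat.lt_pow_succ_log_self Nat.one_lt_two n
  clear hn
  generalize hLe : Nat.log 2 n = L at *
  obtain ⟨l, hl⟩ : ∃ l, l = (L + 1) / 100 := ⟨_, rfl⟩
  have hl11 : 11 ≤ l := by omega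
  have hlp := lin_le_pow l hl11
  have ha : L + 1 ≤ 2 ^ l := by omega
  have hl100 : 100 * l ≤ L + 1 := by omega
  obtain ⟨a, hae⟩ : ∃ a, a = L + 1 := ⟨_, rfl⟩
  rw [← hae] at h2 ha hl100 ⊢
  obtain ⟨t, hte⟩ : ∃ t, t = (n / a + 1) / 4 := ⟨_, rfl⟩
  rw [← hte]
  have ha0 : 0 < a := by omega
  have ht : n ≤ 4 * a * t + 3 * a := by
    have h3 : n < a * (n / a + 1) := Nat.lt_mul_div_succ n ha0
    have h4 : n / a + 1 ≤ 4 * t + 3 := by omega
    have h5 : a * (n / a + 1) ≤ a * (4 * t + 3) := Nat.mul_le_mul_left _ h4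
    have h6 : a * (4 * t + 3) = 4 * a * t + 3 * a := by ring
    omega
  have ht1 : 1 ≤ t := by
    have h3 : 2 ^ (l + 2) ≤ 2 ^ L := Nat.pow_le_pow_right (by norm_num) (by omega)
    rw [pow_add] at h3
    have h4 : 4 * a ≤ n := by omega
    have h5 : 4 ≤ n / a := (Nat.le_div_iff_mul_le ha0).2 h4
    omega
  -- the three estimates
  have e1 : 16 * (n + 1) ^ n ≤ 2 ^ (4 + a * n) := by
    rw [pow_add, pow_mul]
    exact Nat.mul_le_mul (by norm_num) (Nat.pow_le_pow_left h2 n)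
  have e2 : (2 ^ 118 * n) ^ 2 * 2 ^ (20 * a - 1) * (20 * a * (2 ^ 113 * a)) ^ (14 * a)
      ≤ 2 ^ (2 * (118 + a) + 20 * a + (118 + 2 * l) * (14 * a)) := by
    have f1 : (2 ^ 118 * n) ^ 2 ≤ 2 ^ (2 * (118 + a)) := by
      rw [mul_comm 2 (118 + a), pow_mul, pow_add]
      exact Nat.pow_le_pow_left (Nat.mul_le_mul_left _ h2.le) 2
    have f2 : 2 ^ (20 * a - 1) ≤ 2 ^ (20 * a) :=
      Nat.pow_le_pow_right (by norm_num) (Nat.sub_le _ _)
    have f3 : 20 * a * (2 ^ 113 * a) ≤ 2 ^ (118 + 2 * l) := by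
      calc 20 * a * (2 ^ 113 * a) ≤ 2 ^ 5 * 2 ^ l * (2 ^ 113 * 2 ^ l) :=
            Nat.mul_le_mul (Nat.mul_le_mul (by norm_num) ha) (Nat.mul_le_mul_left _ ha)
        _ = 2 ^ (118 + 2 * l) := by
            rw [← pow_add, ← pow_add, ← pow_add]
            congr 1
            ring
    calc _ ≤ 2 ^ (2 * (118 + a)) * 2 ^ (20 * a) * (2 ^ (118 + 2 * l)) ^ (14 * a) :=
          Nat.mul_le_mul (Nat.mul_le_mul f1 f2) (Nat.pow_le_pow_left f3 _)
      _ = _ := by rw [← pow_mul, ← pow_add, ← pow_add]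
  have e3 : 2 ^ (L * (14 * a) * t) ≤ (n ^ (14 * a)) ^ t := by
    rw [pow_mul, pow_mul]
    exact Nat.pow_le_pow_left (Nat.pow_le_pow_left h1 _) _
  refine le_trans (Nat.mul_le_mul e1 (Nat.pow_le_pow_left e2 t)) (le_trans ?_ e3)
  rw [← pow_mul, ← pow_add]
  refine Nat.pow_le_pow_right (by norm_num) ?_
  exact exponents hae (by omega) hl100 ht1 ht

end Pool.Agent.Lib.MP_e81270_lc_SR
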