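import Pool.Agent.Lib.MP_e81270_lc_SR.Basic
import Pool.Agent.Lib.MP_e81270_lc_SR.Setup
import Pool.Agent.Lib.MP_e81270_lc_SR.J3a

/-!
The choice of the parameters.
-/

set_option autoImplicit false
set_option linter.unusedSectionVars false
set_option linter.unusedVariables false

namespace Pool.Agent.Lib.MP_e81270_lc_SR

open Finset
open scoped symmDiff

private theorem j3_lin {l : ℕ} (hl : 11 ≤ l) : 100 * (l + 1) ≤ 2 ^ l := by
  induction l, hl using Nat.le_induction with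
  | base => norm_num
  | succ l hl ih =>
    rw [pow_succ]
    omega

private theorem j3_le {a : ℕ} (ha : 1100 ≤ a) : a ≤ 2 ^ (a / 100) := by
  have h1 : 11 ≤ a / 100 := by omega
  have h2 := j3_lin h1
  omega

private theorem j3_big6 {a n : ℕ} (ha : 2001 ≤ a) (hn : 2 ^ (a - 1) ≤ n) :
    16 * (2 ^ 118) ^ 3 * (20 * a) ^ 6 ≤ n := by
  have h1 : a ≤ 2 ^ (a / 100) := j3_le (by omega)
  have h2 : 20 * a ≤ 2 ^ 5 * 2 ^ (a / 100) := by
    have : (2 : ℕ) ^ 5 = 32 := by norm_num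
    rw [this]
    omega
  have h3 : 16 * (2 ^ 118) ^ 3 * (20 * a) ^ 6 ≤ 2 ^ 4 * (2 ^ 118) ^ 3 * (2 ^ 5 * 2 ^ (a / 100)) ^ 6 := by
    have h4 : (16 : ℕ) = 2 ^ 4 := by norm_num
    rw [h4]
    exact Nat.mul_le_mul_left _ (Nat.pow_le_pow_left h2 6)
  have h5 : (2 : ℕ) ^ 4 * (2 ^ 118) ^ 3 * (2 ^ 5 * 2 ^ (a / 100)) ^ 6
      = 2 ^ (4 + 118 * 3 + (5 + a / 100) * 6) := by
    rw [← pow_add, ← pow_mul, ← pow_mul, ← pow_add, ← pow_add]
  have h6 : 4 + 118 * 3 + (5 + a / 100) * 6 ≤ a - 1 := by omega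
  calc 16 * (2 ^ 118) ^ 3 * (20 * a) ^ 6 ≤ 2 ^ (4 + 118 * 3 + (5 + a / 100) * 6) := by
        rw [← h5]
        exact h3
    _ ≤ 2 ^ (a - 1) := Nat.pow_le_pow_right (by norm_num) h6
    _ ≤ n := hn

private theorem j3_big2 {a n : ℕ} (ha : 2001 ≤ a) (hn : 2 ^ (a - 1) ≤ n) :
    2 ^ 120 * (a * a) ≤ n := by
  have h1 : a ≤ 2 ^ (a / 100) := j3_le (by omega)
  calc 2 ^ 120 * (a * a) ≤ 2 ^ 120 * (2 ^ (a / 100) * 2 ^ (a / 100)) :=
        Nat.mul_le_mul_left _ (Nat.mul_le_mul h1 h1)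
    _ = 2 ^ (120 + (a / 100 + a / 100)) := by rw [← pow_add, ← pow_add]
    _ ≤ 2 ^ (a - 1) := Nat.pow_le_pow_right (by norm_num) (by omega)
    _ ≤ n := hn

/-- `a = Nat.log 2 n + 1`, `k = 20 a - 1`, `m = 2^118 n`, `r = n / (2^105 a)`, `d = 2^119 a`, `D = 2^113 a`,
`q = n / a`, `t = (q + 1) / 4`, `w = r / 84`. All inequalities hold for large `n` (`a` is small compared
to every power of `n`); the condition for `t` is `exists_rigid_bound`. -/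
theorem exists_parameters : ∃ N : ℕ, ∀ n ≥ N, ∃ a k r d D q t w : ℕ,
    120 ≤ a ∧ k + 1 = 20 * a ∧ n ≤ 2 ^ a ∧ 2 * k ≤ n ∧ 16 * n ≤ 2 ^ 118 * n ∧
    2 ^ 118 * n ≤ 2 ^ (2 * a) ∧ 2 ^ 100 * (20 * a * r) ≤ n ∧
    16 * (2 ^ 118 * n) ^ 3 * k ^ 6 ≤ n ^ 4 ∧ d * n ≤ 2 * a * (2 ^ 118 * n) ∧ 4 * t ≤ q + 1 ∧ 0 < t ∧
    16 * (n + 1) ^ n * ((2 ^ 118 * n) ^ 2 * 2 ^ k * (20 * a * D) ^ (14 * a)) ^ t
      ≤ (n ^ (14 * a)) ^ t ∧
    n < a * (q + 1) ∧ Params n a r d D q w ∧ (n : ℝ) / (2 ^ 113 * a) ≤ w ∧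
    (a : ℝ) ≤ 3 * Real.log n := by
  obtain ⟨N₀, hN₀⟩ := exists_rigid_bound
  refine ⟨max N₀ (2 ^ 2000), fun n hn => ?_⟩
  have hrb := hN₀ n (le_trans (le_max_left _ _) hn)
  have hlog : 2000 ≤ Nat.log 2 n :=
    Nat.le_log_of_pow_le (by norm_num) (le_trans (le_max_right _ _) hn)
  clear hn
  have hn0 : n ≠ 0 := by
    rintro rfl
    simp at hlog
  have hlt : n < 2 ^ (Nat.log 2 n + 1) := Nat.lt_pow_succ_log_self (by norm_num) n
  have hge : 2 ^ Nat.log 2 n ≤ n := Nat.pow_log_le_self 2 hn0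
  obtain ⟨a, ha⟩ : ∃ a, a = Nat.log 2 n + 1 := ⟨_, rfl⟩
  rw [← ha] at hrb hlt
  have ha1 : 2001 ≤ a := by omega
  have hge' : 2 ^ (a - 1) ≤ n := by
    have : a - 1 = Nat.log 2 n := by omega
    rw [this]
    exact hge
  have hb6 := j3_big6 ha1 hge'
  have hb2 := j3_big2 ha1 hge'
  have hb1 : 2 ^ 120 * a ≤ n := by
    refine le_trans (Nat.mul_le_mul_left _ ?_) hb2
    exact Nat.le_mul_of_pos_left a (by omega)
  have hap : 0 < a := by omega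
  -- the number r
  obtain ⟨r, hr⟩ : ∃ r, r = n / (2 ^ 105 * a) := ⟨_, rfl⟩
  have hr1 : 2 ^ 105 * (a * r) ≤ n := by
    rw [← mul_assoc, hr]
    exact Nat.mul_div_le n (2 ^ 105 * a)
  have hr2 : n < 2 ^ 105 * (a * r) + 2 ^ 105 * a := by
    have h1 := Nat.lt_mul_div_succ n (show 0 < 2 ^ 105 * a by positivity)
    rw [← hr] at h1
    calc n < 2 ^ 105 * a * (r + 1) := h1
      _ = 2 ^ 105 * (a * r) + 2 ^ 105 * a := by ring
  have hr3 : 2 ^ 15 * a ≤ r := by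
    by_contra hcon
    have h1 : r + 1 ≤ 2 ^ 15 * a := by omega
    have h2 : 2 ^ 105 * (a * (r + 1)) ≤ 2 ^ 105 * (a * (2 ^ 15 * a)) :=
      Nat.mul_le_mul_left _ (Nat.mul_le_mul_left _ h1)
    have h3 : 2 ^ 105 * (a * (2 ^ 15 * a)) = 2 ^ 120 * (a * a) := by ring
    have h4 : 2 ^ 105 * (a * (r + 1)) = 2 ^ 105 * (a * r) + 2 ^ 105 * a := by ring
    rw [h3, h4] at h2
    omega
  -- the number w
  obtain ⟨w, hw⟩ : ∃ w, w = r / 84 := ⟨_, rfl⟩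
  have hw1 : 84 * w ≤ r := by omega
  have hw2 : r ≤ 84 * w + 83 := by omega
  have hrx : r ≤ a * r := Nat.le_mul_of_pos_left r hap
  have haw : a * r ≤ 84 * (a * w) + 83 * a := by
    calc a * r ≤ a * (84 * w + 83) := Nat.mul_le_mul_left _ hw2
      _ = 84 * (a * w) + 83 * a := by ring
  have hnw : n ≤ 2 ^ 113 * (a * w) := by omega
  refine ⟨a, 20 * a - 1, r, 2 ^ 119 * a, 2 ^ 113 * a, n / a, (n / a + 1) / 4, w, ?_, ?_, ?_, ?_,
    ?_, ?_, ?_, ?_, ?_, ?_, ?_, ?_, ?_, ?_, ?_, ?_⟩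
  · omega
  · omega
  · exact hlt.le
  · omega
  · omega
  · calc 2 ^ 118 * n ≤ 2 ^ a * 2 ^ a :=
          Nat.mul_le_mul (Nat.pow_le_pow_right (by norm_num) (by omega)) hlt.le
      _ = 2 ^ (2 * a) := by rw [← pow_add]; congr 1; ring
  · calc 2 ^ 100 * (20 * a * r) = 20 * 2 ^ 100 * (a * r) := by ring
      _ ≤ 2 ^ 105 * (a * r) := Nat.mul_le_mul_right _ (by norm_num)
      _ ≤ n := hr1
  · have h1 : (20 * a - 1) ^ 6 ≤ (20 * a) ^ 6 := Nat.pow_le_pow_left (by omega) 6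
    calc 16 * (2 ^ 118 * n) ^ 3 * (20 * a - 1) ^ 6
        ≤ 16 * (2 ^ 118 * n) ^ 3 * (20 * a) ^ 6 := Nat.mul_le_mul_left _ h1
      _ = (16 * (2 ^ 118) ^ 3 * (20 * a) ^ 6) * n ^ 3 := by
          rw [mul_pow (2 ^ 118) n 3]
          generalize ((2 : ℕ) ^ 118) ^ 3 = c
          ring
      _ ≤ n * n ^ 3 := Nat.mul_le_mul_right _ hb6
      _ = n ^ 4 := by ring
  · exact le_of_eq (by ring)
  · omega
  · have h1 : 3 ≤ n / a := by
      rw [Nat.le_div_iff_mul_le hap]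
      omega
    omega
  · exact hrb
  · exact Nat.lt_mul_div_succ n hap
  · refine ⟨hap, ?_, hw1, ?_, ?_, ?_, Nat.mul_div_le n a, ?_, ?_⟩
    · omega
    · omega
    · omega
    · calc n < 2 ^ 113 * (a * r) := by omega
        _ ≤ a * (2 ^ 113 * (a * r)) := Nat.le_mul_of_pos_left _ hap
        _ = a * (2 ^ 113 * a) * r := by ring
    · calc 2592 * n ≤ 2 ^ 119 * (a * r) := by omega
        _ = 2 ^ 119 * a * r := by ring
    · calc 164 * n ≤ 2 ^ 113 * (a * r) := by omega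
        _ = 2 ^ 113 * a * r := by ring
  · have hapR : (0 : ℝ) < 2 ^ 113 * (a : ℝ) := by positivity
    rw [div_le_iff₀ hapR]
    have h1 : (n : ℝ) ≤ 2 ^ 113 * ((a : ℝ) * w) := by exact_mod_cast hnw
    calc (n : ℝ) ≤ 2 ^ 113 * ((a : ℝ) * w) := h1
      _ = w * (2 ^ 113 * a) := by ring
  · have hnpos : (0 : ℝ) < (2 : ℝ) ^ (a - 1) := by positivity
    have h1 : ((2 : ℝ)) ^ (a - 1) ≤ (n : ℝ) := by exact_mod_cast hge'
    have h2 : Real.log ((2 : ℝ) ^ (a - 1)) ≤ Real.log n := Real.log_le_log hnpos h1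
    rw [Real.log_pow] at h2
    have h3 : ((a - 1 : ℕ) : ℝ) = (a : ℝ) - 1 := by
      rw [Nat.cast_sub hap]
      norm_num
    rw [h3] at h2
    have h4 := Real.log_two_gt_d9
    have h5 : (2001 : ℝ) ≤ a := by exact_mod_cast ha1
    nlinarith

end Pool.Agent.Lib.MP_e81270_lc_SR
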