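import Pool.Agent.Lib.MP_e81270_lc_SR.Basic

/-!
The exponential bound.
-/

set_option autoImplicit false
set_option linter.unusedSectionVars false
set_option linter.unusedVariables false

namespace Pool.Agent.Lib.MP_e81270_lc_SR

open Finset
open scoped symmDiff

/-- `(1 + 1 / (2^25 - 1))^w ≥ exp (w / 2^25)`, so `4 |W| > exp (w / 2^25) ≥ exp (n / (3 * 2^138 * log n))`, and
`exp (n / (2^140 log n)) ≤ exp (n / (3 * 2^138 * log n)) / 4` for large `n` (`n / log n → ∞`). -/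
theorem exists_exp_bound : ∃ N : ℕ, ∀ n ≥ N, ∀ a w W : ℕ, (n : ℝ) / (2 ^ 113 * a) ≤ w →
    0 < a → (a : ℝ) ≤ 3 * Real.log n → (2 ^ 25) ^ w < 4 * W * (2 ^ 25 - 1) ^ w →
    Real.exp ((1 / 2 ^ 140) * n / Real.log n) ≤ W := by
  refine ⟨(18 * 2 ^ 140) ^ 2, fun n hn a w W hw ha haln h => ?_⟩
  have hnR : ((18 * 2 ^ 140 : ℝ)) ^ 2 ≤ n := by exact_mod_cast hn
  have hn0 : (0 : ℝ) < n := lt_of_lt_of_le (by positivity) hnR
  have hn2 : (2 : ℝ) ≤ n := le_trans (by norm_num) hnR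
  have hsq : (18 * 2 ^ 140 : ℝ) ≤ Real.sqrt n := by
    rw [← Real.sqrt_sq (by positivity : (0 : ℝ) ≤ 18 * 2 ^ 140)]
    exact Real.sqrt_le_sqrt hnR
  have hsq0 : 0 < Real.sqrt n := Real.sqrt_pos.2 hn0
  have hlog0 : 0 < Real.log n := Real.log_pos (by linarith)
  have hlog : Real.log n ≤ 2 * Real.sqrt n := by
    have h1 : Real.log n = 2 * Real.log (Real.sqrt n) := by
      rw [Real.log_sqrt hn0.le]; ring
    have h2 := Real.log_le_sub_one_of_pos hsq0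
    linarith
  obtain ⟨y, hy⟩ : ∃ y : ℝ, y = (1 / 2 ^ 140) * n / Real.log n := ⟨_, rfl⟩
  have hy9 : 9 ≤ y := by
    rw [hy, le_div_iff₀ hlog0]
    have h1 : (n : ℝ) = Real.sqrt n * Real.sqrt n := (Real.mul_self_sqrt hn0.le).symm
    have h2 : (18 * 2 ^ 140 : ℝ) * Real.sqrt n ≤ n := by
      calc (18 * 2 ^ 140 : ℝ) * Real.sqrt n ≤ Real.sqrt n * Real.sqrt n :=
            mul_le_mul_of_nonneg_right hsq hsq0.le
        _ = n := h1.symm
    calc 9 * Real.log n ≤ 18 * Real.sqrt n := by linarith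
      _ = 1 / 2 ^ 140 * ((18 * 2 ^ 140 : ℝ) * Real.sqrt n) := by ring
      _ ≤ 1 / 2 ^ 140 * n := mul_le_mul_of_nonneg_left h2 (by positivity)
  have ha0 : (0 : ℝ) < a := by exact_mod_cast ha
  have hw2 : 4 / 3 * y ≤ w / 2 ^ 25 := by
    rw [le_div_iff₀ (by positivity)]
    refine le_trans ?_ hw
    have h1 : (n : ℝ) / (2 ^ 113 * (3 * Real.log n)) ≤ n / (2 ^ 113 * a) := by
      apply div_le_div_of_nonneg_left hn0.le (by positivity)
      exact mul_le_mul_of_nonneg_left haln (by positivity)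
    refine le_trans (le_of_eq ?_) h1
    rw [hy]
    field_simp
    ring
  have h1 : Real.exp (w / 2 ^ 25 : ℝ) < 4 * W := by
    have h2 : (1 - 1 / 2 ^ 25 : ℝ) ≤ Real.exp (-(1 / 2 ^ 25)) := by
      have := Real.add_one_le_exp (-(1 / 2 ^ 25) : ℝ)
      linarith
    have h3 : (1 - 1 / 2 ^ 25 : ℝ) ^ w ≤ Real.exp (-(w / 2 ^ 25 : ℝ)) := by
      calc (1 - 1 / 2 ^ 25 : ℝ) ^ w ≤ Real.exp (-(1 / 2 ^ 25)) ^ w :=
            pow_le_pow_left₀ (by norm_num) h2 w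
        _ = Real.exp (-(w / 2 ^ 25 : ℝ)) := by
            rw [← Real.exp_nat_mul]
            congr 1
            ring
    have h4 : ((2 ^ 25 : ℝ)) ^ w < 4 * W * (2 ^ 25 - 1) ^ w := by
      have h5 : (((2 ^ 25) ^ w : ℕ) : ℝ) < ((4 * W * (2 ^ 25 - 1) ^ w : ℕ) : ℝ) := by
        exact_mod_cast h
      have h6 : (((2 ^ 25 - 1 : ℕ)) : ℝ) = 2 ^ 25 - 1 := by norm_num
      push_cast at h5
      rw [← h6]
      push_cast
      exact_mod_cast h5
    have h5 : (1 : ℝ) < 4 * W * (1 - 1 / 2 ^ 25) ^ w := by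
      have h6 : (1 - 1 / 2 ^ 25 : ℝ) = (2 ^ 25 - 1) / 2 ^ 25 := by norm_num
      rw [h6, div_pow, ← mul_div_assoc, lt_div_iff₀ (by positivity), one_mul]
      exact h4
    have h6 : (1 : ℝ) < 4 * W * Real.exp (-(w / 2 ^ 25 : ℝ)) :=
      lt_of_lt_of_le h5 (mul_le_mul_of_nonneg_left h3 (by positivity))
    rw [Real.exp_neg, ← div_eq_mul_inv, lt_div_iff₀ (Real.exp_pos _), one_mul] at h6
    exact h6
  rw [← hy]
  have h2 : Real.exp (4 / 3 * y) < 4 * W := lt_of_le_of_lt (Real.exp_le_exp.2 hw2) h1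
  have h3 : Real.exp (4 / 3 * y) = Real.exp y * Real.exp (y / 3) := by
    rw [← Real.exp_add]; congr 1; ring
  have h4 : 4 ≤ Real.exp (y / 3) := by
    have := Real.add_one_le_exp (y / 3)
    linarith
  rw [h3] at h2
  have h5 : Real.exp y * 4 ≤ Real.exp y * Real.exp (y / 3) :=
    mul_le_mul_of_nonneg_left h4 (Real.exp_pos _).le
  linarith

end Pool.Agent.Lib.MP_e81270_lc_SR
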