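import Pool.Agent.Lib.MP_e81270_lc_SR.Basic
import Pool.Agent.Lib.MP_e81270_lc_SR.H2
import Pool.Agent.Lib.MP_e81270_lc_SR.I7
import Pool.Agent.Lib.MP_e81270_lc_SR.J1
import Pool.Agent.Lib.MP_e81270_lc_SR.J2
import Pool.Agent.Lib.MP_e81270_lc_SR.J3
import Pool.Agent.Lib.MP_e81270_lc_SR.J4

/-!
The theorem.
-/

set_option autoImplicit false
set_option linter.unusedSectionVars false
set_option linter.unusedVariables false

namespace Pool.Agent.Lib.MP_e81270_lc_SR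

open Finset
open scoped symmDiff

private theorem j5_pow {n a : ℕ} (hn : 1 ≤ n) (ha : (a : ℝ) ≤ 3 * Real.log n) :
    2 ^ (20 * a) ≤ n ^ 42 := by
  have hn0 : (0 : ℝ) < n := by exact_mod_cast hn
  have hl : 0 ≤ Real.log n := Real.log_nonneg (by exact_mod_cast hn)
  have h1 : ((2 : ℝ)) ^ (20 * a) ≤ (n : ℝ) ^ 42 := by
    have e1 : ((2 : ℝ)) ^ (20 * a) = Real.exp (Real.log 2 * ((20 * a : ℕ) : ℝ)) := by
      rw [Real.exp_mul, Real.exp_log (by norm_num), Real.rpow_natCast]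
    have e2 : (n : ℝ) ^ 42 = Real.exp (Real.log n * ((42 : ℕ) : ℝ)) := by
      rw [Real.exp_mul, Real.exp_log hn0, Real.rpow_natCast]
    rw [e1, e2]
    apply Real.exp_le_exp.2
    push_cast
    have h2 : Real.log 2 ≤ 0.7 := by
      have := Real.log_two_lt_d9
      linarith
    have h3 : 0 ≤ Real.log 2 := Real.log_nonneg (by norm_num)
    calc Real.log 2 * (20 * (a : ℝ)) ≤ 0.7 * (20 * (3 * Real.log n)) := by
          apply mul_le_mul h2 _ (by positivity) (by norm_num)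
          linarith
      _ = Real.log n * 42 := by ring
  exact_mod_cast h1

/-- Assembly: `exists_parameters`, `exists_good`, `exists_unsat`, `card_lt_of_refutes`,
`exists_exp_bound`, `ncard_cnf_le`, `cnf_unsat`. `|E i| < 20 a ≤ 60 log n`;
`(cnf E b).ncard ≤ 2^118 n 2^(20 a) ≤ 2^118 n (2 n)^20 ≤ n^22` needs `2^(a-1) ≤ n`: from
`2 ^ a ≤ 2 n`? use `a ≤ 3 log n`, so `2^(20 a) ≤ exp (60 log 2 log n) ≤ n^42`; `K = 60` is enough. -/
theorem main : ∃ c : ℝ, 0 < c ∧ ∃ K N : ℕ, ∀ n ≥ N, ∃ (m : ℕ) (E : Fin m → Finset (Fin n))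
    (b : Fin m → ZMod 2), m ≤ 2 ^ 118 * n ∧ (∀ i, ((E i).card : ℝ) ≤ K * Real.log n) ∧
    (cnf E b).ncard ≤ n ^ K ∧ (¬ ∃ v, ∀ C ∈ cnf E b, Sat v C) ∧
    ∀ W : Finset (Clause n), Refutes (cnf E b) W → Real.exp (c * n / Real.log n) ≤ W.card := by
  obtain ⟨N1, hN1⟩ := exists_parameters
  obtain ⟨N2, hN2⟩ := exists_exp_bound
  refine ⟨1 / 2 ^ 140, by positivity, 60, max N1 N2, fun n hn => ?_⟩
  obtain ⟨a, k, r, d, D, q, t, w, ha, hk, hna, h2k, hm16, hm2a, hr, h3, hd, ht, ht', h5, hq, hp, hw, hal⟩ :=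
    hN1 n ((le_max_left _ _).trans hn)
  have hn1 : 4096 ≤ n := by omega
  obtain ⟨E, hg⟩ := exists_good ha hk hna h2k hm16 hm2a hr h3 hd ht ht' h5 hq
  have hnm : n < 2 ^ 118 * n := by
    have : 1 < 2 ^ 118 := by norm_num
    nlinarith
  obtain ⟨b, hb⟩ := exists_unsat hnm E
  have hm3a : 2 ^ 118 * n ≤ 2 ^ (3 * a) :=
    hm2a.trans (Nat.pow_le_pow_right (by norm_num) (by omega))
  have hlog : 0 ≤ Real.log n := Real.log_nonneg (by exact_mod_cast (by omega : 1 ≤ n))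
  refine ⟨2 ^ 118 * n, E, b, le_rfl, ?_, ?_, cnf_unsat hb, ?_⟩
  · intro i
    have h1 : ((E i).card : ℝ) ≤ 20 * a := by exact_mod_cast (hg.small i).le
    push_cast
    linarith
  · refine (ncard_cnf_le (a := a) E b hg.small).trans ?_
    have h1 : 2 ^ (20 * a) ≤ n ^ 42 := j5_pow (by omega) hal
    have h2 : 2 ^ 118 ≤ n ^ 10 := by
      calc 2 ^ 118 ≤ (4096 : ℕ) ^ 10 := by norm_num
        _ ≤ n ^ 10 := Nat.pow_le_pow_left hn1 10
    calc 2 ^ 118 * n * 2 ^ (20 * a) ≤ n ^ 10 * n * n ^ 42 :=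
          Nat.mul_le_mul (Nat.mul_le_mul_right n h2) h1
      _ = n ^ 53 := by ring
      _ ≤ n ^ 60 := Nat.pow_le_pow_right (by omega) (by norm_num)
  · intro W hW
    exact hN2 n ((le_max_right _ _).trans hn) a w W.card hw (by omega) hal
      (card_lt_of_refutes hg hp hb hm3a hW)

end Pool.Agent.Lib.MP_e81270_lc_SR
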